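import Pool.Agent.T2H68.ZD.Dens

/-!
Finite sets of representatives and proportions which are uniform in the residue class
(helper file).
-/

namespace Pool.Agent.T2H68.ZD

/-- a finite set of vectors with representatives of all residue classes modulo `Q`, near to a given
real vector -/
theorem finite_reps {ι : Type*} [Finite ι] (Q m : ℕ) (hQ : 0 < Q) (hm : 0 < m)
    (hco : Nat.Coprime Q m) (N : ι → ℤ) (M : ι → ℝ) (ε : ℝ) (hε : 0 < ε) :
    ∃ W : Set (ℕ × (ι → ℤ)), W.Finite ∧ (∀ q ∈ W, 0 < q.1 ∧ q.1 ≡ 1 [MOD m] ∧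
      (∀ s, |(q.2 s : ℝ) / q.1 - M s| < ε) ∧ ∀ s, q.2 s ≡ N s [ZMOD m]) ∧
      ∀ g : ι → ℤ, ∃ q ∈ W, ∀ s, ∃ r : ℤ, q.2 s = g s + Q * r := by
  classical
  have h := fun g : ι → Fin Q => approx_class Q m hQ hm hco (fun s => ((g s : ℕ) : ℤ)) N M ε hε
  choose k a h1 h2 h3 h4 h5 using h
  refine ⟨Set.range fun g => (k g, a g), Set.finite_range _, ?_, ?_⟩
  · rintro _ ⟨g, rfl⟩
    exact ⟨h1 g, h2 g, h3 g, h4 g⟩
  · intro g
    have hQz : (0 : ℤ) < Q := by exact_mod_cast hQ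
    have hlt : ∀ s, (g s % Q).toNat < Q := by
      intro s
      have h1 := Int.emod_lt_of_pos (g s) hQz
      have h2 := Int.emod_nonneg (g s) hQz.ne'
      omega
    let g' : ι → Fin Q := fun s => ⟨(g s % Q).toNat, hlt s⟩
    refine ⟨_, ⟨g', rfl⟩, fun s => ?_⟩
    obtain ⟨r, hr⟩ := h5 g' s
    refine ⟨r - g s / Q, ?_⟩
    show a g' s = _
    rw [hr]
    have h2 := Int.emod_nonneg (g s) hQz.ne'
    have h6 : (((g' s : Fin Q) : ℕ) : ℤ) = g s % Q := by
      show (((g s % Q).toNat : ℕ) : ℤ) = _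
      exact Int.toNat_of_nonneg h2
    rw [h6]
    have h7 := Int.emod_add_mul_ediv (g s) Q
    linear_combination h7

/-- a residue class contains a positive proportion of all integral vectors, with constants which
depend only on the modulus -/
theorem prop_class' {ι : Type*} [Fintype ι] (Q : ℕ) (hQ : 0 < Q) :
    ∃ δ : ℝ, 0 < δ ∧ ∀ (g : ι → ℤ) (Good : (ι → ℤ) → Prop),
      (∀ h : ι → ℤ, (∀ s, ∃ r : ℤ, h s = g s + Q * r) → Good h) →
      ∀ H : ℕ, Q ≤ H → δ * (H : ℝ) ^ (Fintype.card ι) ≤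
        (Set.ncard {h : ι → ℤ | (∀ s, |h s| ≤ H) ∧ Good h} : ℝ) := by
  classical
  have hQr : (0 : ℝ) < Q := by exact_mod_cast hQ
  have hQz : (0 : ℤ) < Q := by exact_mod_cast hQ
  refine ⟨(1 / (2 * (Q : ℝ))) ^ (Fintype.card ι), by positivity, fun g Good hG H hH => ?_⟩
  let T' := H / Q
  let g' : ι → ℤ := fun s => g s % Q
  have hg' : ∀ s, 0 ≤ g' s ∧ g' s < Q := fun s =>
    ⟨Int.emod_nonneg _ hQz.ne', Int.emod_lt_of_pos _ hQz⟩
  let f : (ι → Fin T') → (ι → ℤ) := fun t s => g' s + Q * ((t s : ℕ) : ℤ)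
  have hfinj : Function.Injective f := by
    intro t t' h
    funext s
    have h1 : g' s + Q * ((t s : ℕ) : ℤ) = g' s + Q * ((t' s : ℕ) : ℤ) := congrFun h s
    have h2 : (Q : ℤ) * ((t s : ℕ) : ℤ) = Q * ((t' s : ℕ) : ℤ) := by linarith
    have h3 := mul_left_cancel₀ hQz.ne' h2
    exact Fin.ext (by exact_mod_cast h3)
  have hfin : {h : ι → ℤ | (∀ s, |h s| ≤ H) ∧ Good h}.Finite := by
    refine (Set.Finite.pi fun _ : ι => Set.finite_Icc (-(H : ℤ)) H).subset ?_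
    rintro c ⟨hc, -⟩ s -
    exact Set.mem_Icc.2 (abs_le.1 (hc s))
  have hsub : Set.range f ⊆ {h : ι → ℤ | (∀ s, |h s| ≤ H) ∧ Good h} := by
    rintro _ ⟨t, rfl⟩
    refine ⟨fun s => ?_, hG _ fun s => ⟨-(g s / Q) + ((t s : ℕ) : ℤ), ?_⟩⟩
    · have h1 := hg' s
      have h2 : (t s : ℕ) + 1 ≤ T' := (t s).2
      have h3 : Q * ((t s : ℕ) + 1) ≤ Q * T' := Nat.mul_le_mul_left _ h2
      have h4 : Q * T' ≤ H := Nat.mul_div_le H Q
      have h5 : (Q : ℤ) * (((t s : ℕ) : ℤ) + 1) ≤ H := by exact_mod_cast h3.trans h4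
      have h6 : (0 : ℤ) ≤ Q * ((t s : ℕ) : ℤ) := by positivity
      rw [abs_of_nonneg (by show 0 ≤ g' s + Q * ((t s : ℕ) : ℤ); linarith)]
      show g' s + Q * ((t s : ℕ) : ℤ) ≤ H
      linarith
    · show g s % Q + Q * ((t s : ℕ) : ℤ) = _
      have := Int.emod_add_mul_ediv (g s) Q
      linear_combination this
  have hcard : T' ^ (Fintype.card ι) ≤ Set.ncard {h : ι → ℤ | (∀ s, |h s| ≤ H) ∧ Good h} := by
    have h1 := Set.ncard_le_ncard hsub hfin
    have h2 : (Set.range f).ncard = T' ^ (Fintype.card ι) := by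
      rw [← Set.image_univ, Set.ncard_image_of_injective _ hfinj, Set.ncard_univ,
        Nat.card_eq_fintype_card, Fintype.card_fun, Fintype.card_fin]
    rwa [h2] at h1
  have hT : (H : ℝ) / (2 * Q) ≤ T' := by
    have h1 : 1 ≤ T' := (Nat.one_le_div_iff hQ).2 hH
    have h2 : H < Q * (T' + 1) := Nat.lt_mul_div_succ H hQ
    have h3 : (H : ℝ) < Q * (T' + 1) := by exact_mod_cast h2
    have h4 : (1 : ℝ) ≤ T' := by exact_mod_cast h1
    rw [div_le_iff₀ (by positivity)]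
    nlinarith
  calc (1 / (2 * (Q : ℝ))) ^ (Fintype.card ι) * (H : ℝ) ^ (Fintype.card ι) =
        ((H : ℝ) / (2 * Q)) ^ (Fintype.card ι) := by
        rw [← mul_pow]
        congr 1
        ring
    _ ≤ (T' : ℝ) ^ (Fintype.card ι) := by
        have : (0 : ℝ) ≤ (H : ℝ) / (2 * Q) := by positivity
        gcongr
    _ ≤ _ := by exact_mod_cast hcard

end Pool.Agent.T2H68.ZD
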