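import Pool.Agent.T2H68.ZD.Defs

/-!
Points of the translates at a place (helper file).
-/

namespace Pool.Agent.T2H68.ZD

open MvPolynomial

theorem v_one_of_sub (V : ValuationSubring ℂ) {a b : ℂ} (hb : V.valuation b = 1)
    (h : V.valuation (a - b) < 1) : V.valuation a = 1 := by
  have h1 : V.valuation (b + (a - b)) = V.valuation b :=
    V.valuation.map_add_eq_of_lt_left (by rw [hb]; exact h)
  rw [add_sub_cancel, hb] at h1
  exact h1

/-- a coordinate which is not a unit is near to the image of a corner -/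
theorem side (V : ValuationSubring ℂ) {a b c e : ℂ} {t : Fin 2 → ℂ}
    (ht : ∀ κ, V.valuation (t κ) ≤ 1) (ha : V.valuation (a - 1) < 1)
    (hb : V.valuation (b - -t 0) < 1) (hc : V.valuation (c - -1) < 1)
    (he : V.valuation (e - t 1) < 1) {u : ℂ} (hu : V.valuation u ≠ 1) :
    ∃ (r P Q : ℂ) (κ : Fin 2), r ≠ 0 ∧ e * u - b = r * P ∧ -c * u + a = r * Q ∧
      V.valuation (P - t κ) < 1 ∧ V.valuation (Q - 1) < 1 := by
  have hle : ∀ {x y : ℂ}, V.valuation y ≤ 1 → V.valuation (x - y) < 1 → V.valuation x ≤ 1 := by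
    intro x y h1 h2
    have : V.valuation ((x - y) + y) ≤ 1 := V.valuation.map_add_le h2.le h1
    rwa [sub_add_cancel] at this
  have ha1 : V.valuation a ≤ 1 := hle (by rw [map_one]) ha
  have hb1 : V.valuation b ≤ 1 := hle (by rw [Valuation.map_neg]; exact ht 0) hb
  have hc1 : V.valuation c ≤ 1 := hle (by rw [Valuation.map_neg, map_one]) hc
  have he1 : V.valuation e ≤ 1 := hle (ht 1) he
  rcases lt_or_gt_of_ne hu with h | h
  · refine ⟨1, e * u - b, -c * u + a, 0, one_ne_zero, (one_mul _).symm, (one_mul _).symm, ?_, ?_⟩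
    · have e1 : e * u - b - t 0 = e * u - (b - -t 0) := by ring
      rw [e1]
      refine V.valuation.map_sub_lt ?_ hb
      rw [map_mul]
      exact (mul_le_of_le_one_left' he1).trans_lt h
    · have e1 : -c * u + a - 1 = (a - 1) - c * u := by ring
      rw [e1]
      refine V.valuation.map_sub_lt ha ?_
      rw [map_mul]
      exact (mul_le_of_le_one_left' hc1).trans_lt h
  · have hu0 : u ≠ 0 := by
      rintro rfl
      rw [map_zero] at h
      exact absurd h (not_lt.2 zero_le)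
    have hinv : V.valuation u⁻¹ < 1 := by
      rw [map_inv₀]
      exact inv_lt_one_of_one_lt₀ h
    refine ⟨u, e - b * u⁻¹, -c + a * u⁻¹, 1, hu0, ?_, ?_, ?_, ?_⟩
    · field_simp
    · field_simp
    · have e1 : e - b * u⁻¹ - t 1 = (e - t 1) - b * u⁻¹ := by ring
      rw [e1]
      refine V.valuation.map_sub_lt he ?_
      rw [map_mul]
      exact (mul_le_of_le_one_left' hb1).trans_lt hinv
    · have e1 : -c + a * u⁻¹ - 1 = a * u⁻¹ - (c - -1) := by ring
      rw [e1]
      refine V.valuation.map_sub_lt ?_ hc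
      rw [map_mul]
      exact (mul_le_of_le_one_left' ha1).trans_lt hinv

/-- the data of a matrix near to the matrix with the zero `t 0` and the pole `t 1` -/
structure Near (V : ValuationSubring ℂ) (t : Fin 2 → ℂ) (a b c e : ℂ) : Prop where
  int : ∀ κ, V.valuation (t κ) ≤ 1
  a : V.valuation (a - 1) < 1
  b : V.valuation (b - -t 0) < 1
  c : V.valuation (c - -1) < 1
  e : V.valuation (e - t 1) < 1

/-- the relation between two transformed coordinates: one of them is a unit -/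
theorem local_unit (V : ValuationSubring ℂ) (s : Finset (Fin 2 →₀ ℕ)) (f : (Fin 2 →₀ ℕ) → ℂ)
    (d : ℕ) (hs : ∀ m ∈ s, m 0 ≤ d ∧ m 1 ≤ d) (hf : ∀ m ∈ s, V.valuation (f m) ≤ 1)
    {a b c e a' b' c' e' : ℂ} {t t' : Fin 2 → ℂ} (h : Near V t a b c e)
    (h' : Near V t' a' b' c' e')
    (hcor : ∀ κ κ', V.valuation (bih s f d (t κ) 1 (t' κ') 1) = 1) {u v : ℂ}
    (hG : bih s f d (e * u - b) (-c * u + a) (e' * v - b') (-c' * v + a') = 0) :
    V.valuation u = 1 ∨ V.valuation v = 1 := by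
  by_contra hcon
  push Not at hcon
  obtain ⟨hu, hv⟩ := hcon
  obtain ⟨r, P, Q, κ, hr, e1, e2, h1, h2⟩ := side V h.int h.a h.b h.c h.e hu
  obtain ⟨r', P', Q', κ', hr', e1', e2', h1', h2'⟩ := side V h'.int h'.a h'.b h'.c h'.e hv
  rw [e1, e2, e1', e2', bih_smul s f d hs] at hG
  rcases mul_eq_zero.1 hG with h0 | h0
  · rcases mul_eq_zero.1 h0 with h00 | h00
    · exact pow_ne_zero _ hr h00
    · exact pow_ne_zero _ hr' h00
  · exact bih_unit V s f d hf (h.int κ) (by rw [map_one]) (h'.int κ') (by rw [map_one]) h1 h2 h1' h2'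
      (hcor κ κ') h0

/-- a coordinate is not a pole if another coordinate is a zero -/
theorem local_pole (V : ValuationSubring ℂ) (s : Finset (Fin 2 →₀ ℕ)) (f : (Fin 2 →₀ ℕ) → ℂ)
    (d : ℕ) (hs : ∀ m ∈ s, m 0 ≤ d ∧ m 1 ≤ d) (hf : ∀ m ∈ s, V.valuation (f m) ≤ 1)
    {a b c e : ℂ} {t t' : Fin 2 → ℂ} (h : Near V t a b c e) (ht' : ∀ κ, V.valuation (t' κ) ≤ 1)
    (hcor : ∀ κ κ', V.valuation (bih s f d (t κ) 1 (t' κ') 1) = 1) {x : ℂ}
    (hx : c * x + e = 0) : bih s f d x 1 (t' 0) 1 ≠ 0 := by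
  have hc1 : V.valuation c = 1 := v_one_of_sub V (by rw [Valuation.map_neg, map_one]) h.c
  have hc0 : c ≠ 0 := by
    rintro rfl
    rw [map_zero] at hc1
    exact zero_ne_one hc1
  have e1 : x = (-c)⁻¹ * e := by
    field_simp
    linear_combination hx
  have e2 : (1 : ℂ) = (-c)⁻¹ * -c := by
    field_simp
  have e3 : bih s f d x 1 (t' 0) 1 = bih s f d ((-c)⁻¹ * e) ((-c)⁻¹ * -c) (1 * t' 0) (1 * 1) := by
    rw [← e1, ← e2, one_mul, one_mul]
  rw [e3, bih_smul s f d hs]
  refine mul_ne_zero (mul_ne_zero (pow_ne_zero _ (inv_ne_zero (neg_ne_zero.2 hc0)))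
    (pow_ne_zero _ one_ne_zero)) ?_
  refine bih_unit V s f d hf (h.int 1) (by rw [map_one]) (ht' 0) (by rw [map_one]) h.e ?_ ?_ ?_
    (hcor 1 0)
  · have : -c - 1 = -(c - -1) := by ring
    rw [this, Valuation.map_neg]
    exact h.c
  · rw [sub_self, map_zero]
    exact zero_lt_one
  · rw [sub_self, map_zero]
    exact zero_lt_one

end Pool.Agent.T2H68.ZD
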