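import Pool.Agent.T2H68.ZD.A

/-!
Relations between the coordinates of the translates; corners in general position (helper file).
-/

namespace Pool.Agent.T2H68.ZD

open MvPolynomial

theorem rename_eval {n : ℕ} (F : MvPolynomial (Fin 2) ℂ) (i j : Fin n) (x : Fin n → ℂ) :
    eval x (rename ![i, j] F) = eval ![x i, x j] F := by
  rw [eval_rename]
  congr 1
  congr 1
  funext κ
  fin_cases κ <;> rfl

theorem exists_rel {n : ℕ} (P : Ideal (MvPolynomial (Fin n) ℂ))
    (hP : Algebra.trdeg ℂ (MvPolynomial (Fin n) ℂ ⧸ P) = 1) (i j : Fin n) :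
    ∃ F : MvPolynomial (Fin 2) ℂ, F ≠ 0 ∧ rename ![i, j] F ∈ P := by
  by_contra hcon
  push Not at hcon
  let x : Fin 2 → MvPolynomial (Fin n) ℂ ⧸ P :=
    fun κ => Ideal.Quotient.mk P (X (![i, j] κ))
  have h1 : AlgebraicIndependent ℂ x := by
    rw [algebraicIndependent_iff]
    intro F hF
    by_contra hF0
    apply hcon F hF0
    rw [← Ideal.Quotient.eq_zero_iff_mem]
    rw [← hF]
    have : (Ideal.Quotient.mkₐ ℂ P).comp (rename ![i, j]) = aeval x := by
      apply MvPolynomial.algHom_ext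
      intro κ
      simp [x]
    exact DFunLike.congr_fun this F
  have h2 := h1.lift_cardinalMk_le_trdeg
  rw [hP] at h2
  simp at h2

theorem moebius_num (a b c e x q : ℂ) (hq : q ≠ 0) (h : q = c * x + e) :
    e * ((a * x + b) / q) - b = ((a * e - b * c) / q) * x := by
  have h1 : (a * x + b) / q * q = a * x + b := div_mul_cancel₀ _ hq
  apply mul_right_cancel₀ hq
  have h2 : (a * e - b * c) / q * x * q = (a * e - b * c) * x := by
    rw [mul_assoc, mul_comm x q, ← mul_assoc, div_mul_cancel₀ _ hq]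
  rw [h2, sub_mul, mul_assoc, h1, h]
  ring

theorem moebius_den (a b c e x q : ℂ) (hq : q ≠ 0) (h : q = c * x + e) :
    -c * ((a * x + b) / q) + a = ((a * e - b * c) / q) * 1 := by
  have h1 : (a * x + b) / q * q = a * x + b := div_mul_cancel₀ _ hq
  apply mul_right_cancel₀ hq
  rw [mul_one, div_mul_cancel₀ _ hq, add_mul, mul_assoc, h1, h]
  ring

theorem translate_rel {n : ℕ} {S : Set (Fin n → ℂ)} {h : Fin n → Matrix (Fin 2) (Fin 2) ℂ}
    {i j : Fin n} (F : MvPolynomial (Fin 2) ℂ) (hF : ∀ x ∈ S, eval ![x i, x j] F = 0) (d : ℕ)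
    (hd : ∀ m ∈ F.support, m 0 ≤ d ∧ m 1 ≤ d) {y : Fin n → ℂ} (hy : y ∈ translate h S) :
    bih F.support F.coeff d (h i 1 1 * y i - h i 0 1) (-h i 1 0 * y i + h i 0 0)
      (h j 1 1 * y j - h j 0 1) (-h j 1 0 * y j + h j 0 0) = 0 := by
  have key : ∀ z : Fin n → ℂ, eval z (bih F.support (fun m => C (F.coeff m)) d
      (C (h i 1 1) * X i - C (h i 0 1)) (-C (h i 1 0) * X i + C (h i 0 0))
      (C (h j 1 1) * X j - C (h j 0 1)) (-C (h j 1 0) * X j + C (h j 0 0))) =
      bih F.support F.coeff d (h i 1 1 * z i - h i 0 1) (-h i 1 0 * z i + h i 0 0)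
      (h j 1 1 * z j - h j 0 1) (-h j 1 0 * z j + h j 0 0) := by
    intro z
    rw [bih_map]
    simp only [map_sub, map_add, map_mul, map_neg, eval_C, eval_X]
  rw [← key]
  apply hy
  intro x hx hq
  rw [key, moebius_num _ _ _ _ _ _ (hq i) rfl, moebius_den _ _ _ _ _ _ (hq i) rfl,
    moebius_num _ _ _ _ _ _ (hq j) rfl, moebius_den _ _ _ _ _ _ (hq j) rfl,
    bih_smul _ _ _ hd, bih_eval, hF x hx, mul_zero]

theorem exists_corners {n : ℕ} (F : Fin n → Fin n → MvPolynomial (Fin 2) ℂ)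
    (hF : ∀ i j, F i j ≠ 0) : ∃ t : Fin n → Fin 2 → ℤ, (∀ i, t i 1 - t i 0 ≠ 0) ∧
      ∀ i j, i ≠ j → ∀ κ κ', eval ![(t i κ : ℂ), (t j κ' : ℂ)] (F i j) ≠ 0 := by
  classical
  let Φ : MvPolynomial (Fin n × Fin 2) ℂ :=
    (∏ i : Fin n, ∏ j : Fin n, ∏ κ : Fin 2, ∏ κ' : Fin 2,
      if i = j then 1 else rename ![(i, κ), (j, κ')] (F i j)) * ∏ i : Fin n, (X (i, 1) - X (i, 0))
  have hΦ : Φ ≠ 0 := by
    refine mul_ne_zero ?_ ?_
    · refine Finset.prod_ne_zero_iff.2 fun i _ => Finset.prod_ne_zero_iff.2 fun j _ =>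
        Finset.prod_ne_zero_iff.2 fun κ _ => Finset.prod_ne_zero_iff.2 fun κ' _ => ?_
      split_ifs with hij
      · exact one_ne_zero
      · have hinj : Function.Injective (![(i, κ), (j, κ')] : Fin 2 → Fin n × Fin 2) := by
          intro a b hab
          fin_cases a <;> fin_cases b
          · rfl
          · exact absurd (congrArg Prod.fst hab) hij
          · exact absurd (congrArg Prod.fst hab).symm hij
          · rfl
        intro h0
        apply hF i j
        exact rename_injective _ hinj (by rw [h0, map_zero])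
    · refine Finset.prod_ne_zero_iff.2 fun i _ => ?_
      rw [sub_ne_zero]
      intro h0
      have := X_injective h0
      rw [Prod.mk.injEq] at this
      exact absurd this.2 (by decide)
  have hinf : (Set.range (Int.cast : ℤ → ℂ)).Infinite :=
    Set.infinite_range_of_injective Int.cast_injective
  obtain ⟨x, hx, hx0⟩ : ∃ x ∈ Set.pi Set.univ (fun _ : Fin n × Fin 2 =>
      Set.range (Int.cast : ℤ → ℂ)), eval x Φ ≠ 0 := by
    by_contra hcon
    push Not at hcon
    apply hΦ
    refine funext_set _ (fun _ => hinf) fun x hx => ?_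
    rw [hcon x hx, map_zero]
  have hx' : ∀ q : Fin n × Fin 2, ∃ k : ℤ, (k : ℂ) = x q := fun q => hx q (Set.mem_univ q)
  choose k hk using hx'
  refine ⟨fun i κ => k (i, κ), fun i h0 => hx0 ?_, fun i j hij κ κ' h0 => hx0 ?_⟩
  · rw [map_mul, map_prod, map_prod]
    refine mul_eq_zero_of_right _ (Finset.prod_eq_zero (Finset.mem_univ i) ?_)
    rw [map_sub, eval_X, eval_X, ← hk, ← hk, ← Int.cast_sub, h0, Int.cast_zero]
  · rw [map_mul, map_prod]
    refine mul_eq_zero_of_left (Finset.prod_eq_zero (Finset.mem_univ i) ?_) _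
    rw [map_prod]
    refine Finset.prod_eq_zero (Finset.mem_univ j) ?_
    rw [map_prod]
    refine Finset.prod_eq_zero (Finset.mem_univ κ) ?_
    rw [map_prod]
    refine Finset.prod_eq_zero (Finset.mem_univ κ') ?_
    rw [if_neg hij, eval_rename, ← h0]
    congr 1
    congr 1
    funext a
    fin_cases a
    · exact (hk (i, κ)).symm
    · exact (hk (j, κ')).symm

end Pool.Agent.T2H68.ZD
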