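import Pool.Agent.T2H68.ZD.Dens

/-!
The criterion in terms of units, and the valuation rings (helper file).
-/

namespace Pool.Agent.T2H68.ZD

open MvPolynomial Pool.Agent.TH526.ZL
open Pool.Agent.Results.MP_e573c6_ag.FourPlaces (AtypEmpty valueAt SpecialVariety rel_of_locus)

/-- Valuation rings above almost all primes, at which given finitely many numbers are integral and
units, if they are not zero, and the coefficients of the `R i` are units, if they are not zero. -/
theorem exists_places {n : ℕ} (R : Fin n → Polynomial (Polynomial ℂ)) (Γ : Finset ℂ)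
    {ι : Type*} [Finite ι] (t : ι → ℂ) :
    ∃ D : ℕ, ∀ p : ℕ, p.Prime → D < p → ∃ V : ValuationSubring ℂ, V.valuation (p : ℂ) < 1 ∧
      (∀ i u w, ((R i).coeff u).coeff w ≠ 0 → V.valuation (((R i).coeff u).coeff w) = 1) ∧
      (∀ w : ℂ, IsIntegral (Algebra.adjoin ℤ (Γ : Set ℂ)) w → V.valuation w ≤ 1) ∧
      (∀ s, V.valuation (t s) ≤ 1) ∧ ∀ s, t s ≠ 0 → V.valuation (t s) = 1 := by
  classical
  let τ : (((i : Fin n) × (expo (R i))) ⊕ Γ) ⊕ ι → ℂ :=
    Sum.elim (Sum.elim (fun q => ((R q.1).coeff q.2.1.1).coeff q.2.1.2) (fun γ => (γ : ℂ))) t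
  obtain ⟨D, hD⟩ := exists_val_units τ
  refine ⟨D, fun p hp hpD => ?_⟩
  have hS : AlgebraicIndependent ℂ (Empty.elim : Empty → ℂ) :=
    algebraicIndependent_empty_type_iff.2 (RingHom.injective _)
  obtain ⟨V, hV, hV1, hV2, -⟩ := hD p hp hpD Empty _ hS
  refine ⟨V, hV, fun i u w h0 => hV2 (Sum.inl (Sum.inl ⟨i, (u, w), mem_expo.2 h0⟩)) h0, ?_,
    fun s => hV1 (Sum.inr s), fun s hs => hV2 (Sum.inr s) hs⟩
  intro w hw
  refine (ValuationSubring.valuation_le_one_iff _ _).2 (W466.ZC.mem_of_integral V ?_ hw)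
  intro z hz
  have hle : Algebra.adjoin ℤ (Γ : Set ℂ) ≤ subalgebraOfSubring V.toSubring := by
    refine Algebra.adjoin_le ?_
    intro γ hγ
    exact (ValuationSubring.valuation_le_one_iff _ _).1 (hV1 (Sum.inl (Sum.inr ⟨γ, hγ⟩)))
  exact hle hz

/-- If at the four places all the numbers `A i * y i` but at most one are units for all points of
the set, then there are no atypical points. -/
theorem atyp_of_units {n T : ℕ} (R : Fin n → Polynomial (Polynomial ℂ)) (hR : ∀ i, (R i).Monic)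
    (hT : ∀ i u w, ((R i).coeff u).coeff w ≠ 0 → u ≤ T ∧ w ≤ T) (Γ : Finset ℂ)
    (e : Fin 4 → Fin n → ℕ) (he : IndepQ T e) (p : Fin 4 → ℕ) (hp : ∀ l, (p l).Prime)
    (A : Fin n → ℕ) (hA0 : ∀ i, 0 < A i) (hfac : ∀ l i, (A i).factorization (p l) = e l i)
    (V : Fin 4 → ValuationSubring ℂ) (hV : ∀ l, (V l).valuation (p l : ℂ) < 1)
    (hVR : ∀ l i u w, ((R i).coeff u).coeff w ≠ 0 →
      (V l).valuation (((R i).coeff u).coeff w) = 1)
    (hint : ∀ l (w : ℂ), IsIntegral (Algebra.adjoin ℤ (Γ : Set ℂ)) w → (V l).valuation w ≤ 1)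
    (D : Set (Fin n → ℂ)) (hD : ∀ y ∈ D, ∀ l i j, i ≠ j →
      (V l).valuation ((A i : ℂ) * y i) = 1 ∨ (V l).valuation ((A j : ℂ) * y j) = 1) :
    AtypEmpty (algebraMap (Algebra.adjoin ℤ (Γ : Set ℂ)) ℂ) (points R D) := by
  intro r hr Z
  rw [Set.eq_empty_iff_forall_notMem]
  rintro x ⟨⟨y, hy, hRy⟩, z, hz⟩
  have hN : ∀ i i', 0 < ((Z.mat i).det * (Z.mat i').det).toNat := by
    intro i i'
    have := mul_pos (Z.det_pos i) (Z.det_pos i')
    omega
  refine criterionCurveV R hR hT V (fun l => (V l).valuation (p l : ℂ)) hV ?_ e he.1 he.2 hr Z.cls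
    (fun i i' => ((Z.mat i).det * (Z.mat i').det).toNat) x y hN ?_
    (fun i j l hi hj => rel_of_locus Z hz i j l hi hj) ?_ ?_
  · intro l i u v h0
    exact hVR l i u v h0
  · intro l i hi
    rw [(hz i).1 hi]
    apply hint
    rcases Z.allowed i with ⟨τ', hτ, hc⟩ | h
    · rw [hc]
      exact (H294ZP.singular_modulus_integral τ' hτ).tower_top
    · exact h
  · exact hRy
  · intro l i j hij
    have hgood : ∀ i, (V l).valuation ((A i : ℂ) * y i) = 1 →
        (V l).valuation (y i) * (V l).valuation (p l : ℂ) ^ e l i = 1 := by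
      intro i h1
      rw [map_mul, v_nat_pow' (V l) (hp l) (hV l) (hA0 i).ne', hfac] at h1
      rw [mul_comm]
      exact h1
    rcases hD y hy l i j hij with h2 | h2
    · exact Or.inl (hgood i h2)
    · exact Or.inr (hgood j h2)

end Pool.Agent.T2H68.ZD
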