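import Pool.Agent.Results.MP_e573c6_ag.FourPlaces

/-!
Definitions for the translates of curves in products of modular curves.
-/

namespace Pool.Agent.T2H68.ZD

open MvPolynomial

/-- An irreducible closed algebraic curve in `ℂ^n`: the set of zeros of a prime ideal whose
coordinate ring has the transcendence degree one. -/
def IsCurve {n : ℕ} (C : Set (Fin n → ℂ)) : Prop :=
  ∃ P : Ideal (MvPolynomial (Fin n) ℂ), P.IsPrime ∧
    Algebra.trdeg ℂ (MvPolynomial (Fin n) ℂ ⧸ P) = 1 ∧ C = {x | ∀ F ∈ P, eval x F = 0}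

/-- The translate of `C` by the Möbius transformations `h_1, …, h_n`: the Zariski closure of the set
of all points `(h_1 (x_1), …, h_n (x_n))` for `x ∈ C`. -/
def translate {n : ℕ} (h : Fin n → Matrix (Fin 2) (Fin 2) ℂ) (C : Set (Fin n → ℂ)) :
    Set (Fin n → ℂ) :=
  {y | ∀ F : MvPolynomial (Fin n) ℂ, (∀ x ∈ C, (∀ i, h i 1 0 * x i + h i 1 1 ≠ 0) →
    eval (fun i => (h i 0 0 * x i + h i 0 1) / (h i 1 0 * x i + h i 1 1)) F = 0) → eval y F = 0}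

/-- a bihomogeneous form of the degree `d` in the two pairs of variables -/
def bih {R : Type*} [CommRing R] (s : Finset (Fin 2 →₀ ℕ)) (f : (Fin 2 →₀ ℕ) → R) (d : ℕ)
    (X Z Y W : R) : R :=
  ∑ m ∈ s, f m * (X ^ m 0 * Z ^ (d - m 0)) * (Y ^ m 1 * W ^ (d - m 1))

theorem bih_map {R S : Type*} [CommRing R] [CommRing S] (φ : R →+* S) (s : Finset (Fin 2 →₀ ℕ))
    (f : (Fin 2 →₀ ℕ) → R) (d : ℕ) (X Z Y W : R) :
    φ (bih s f d X Z Y W) = bih s (fun m => φ (f m)) d (φ X) (φ Z) (φ Y) (φ W) := by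
  unfold bih
  rw [map_sum]
  refine Finset.sum_congr rfl fun m _ => ?_
  simp only [map_mul, map_pow]

theorem bih_congr {R : Type*} [CommRing R] (s : Finset (Fin 2 →₀ ℕ))
    (f g : (Fin 2 →₀ ℕ) → R) (d : ℕ) (X Z Y W : R) (h : ∀ m ∈ s, f m = g m) :
    bih s f d X Z Y W = bih s g d X Z Y W := by
  unfold bih
  refine Finset.sum_congr rfl fun m hm => ?_
  rw [h m hm]

theorem bih_smul {R : Type*} [CommRing R] (s : Finset (Fin 2 →₀ ℕ)) (f : (Fin 2 →₀ ℕ) → R) (d : ℕ)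
    (hs : ∀ m ∈ s, m 0 ≤ d ∧ m 1 ≤ d) (a b X Z Y W : R) :
    bih s f d (a * X) (a * Z) (b * Y) (b * W) = a ^ d * b ^ d * bih s f d X Z Y W := by
  unfold bih
  rw [Finset.mul_sum]
  refine Finset.sum_congr rfl fun m hm => ?_
  obtain ⟨h0, h1⟩ := hs m hm
  have e0 : a ^ d = a ^ m 0 * a ^ (d - m 0) := by rw [← pow_add, Nat.add_sub_cancel' h0]
  have e1 : b ^ d = b ^ m 1 * b ^ (d - m 1) := by rw [← pow_add, Nat.add_sub_cancel' h1]
  rw [e0, e1, mul_pow, mul_pow, mul_pow, mul_pow]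
  ring

theorem bih_eval (F : MvPolynomial (Fin 2) ℂ) (d : ℕ) (x y : ℂ) :
    bih F.support F.coeff d x 1 y 1 = eval ![x, y] F := by
  unfold bih
  rw [eval_eq']
  refine Finset.sum_congr rfl fun m hm => ?_
  rw [Fin.prod_univ_two, one_pow, one_pow, mul_one, mul_one]
  simp only [Matrix.cons_val_zero, Matrix.cons_val_one]
  ring

theorem bih_unit (V : ValuationSubring ℂ) (s : Finset (Fin 2 →₀ ℕ)) (f : (Fin 2 →₀ ℕ) → ℂ) (d : ℕ)
    (hf : ∀ m ∈ s, V.valuation (f m) ≤ 1) {X Z Y W X₀ Z₀ Y₀ W₀ : ℂ}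
    (hX₀ : V.valuation X₀ ≤ 1) (hZ₀ : V.valuation Z₀ ≤ 1) (hY₀ : V.valuation Y₀ ≤ 1)
    (hW₀ : V.valuation W₀ ≤ 1) (hX : V.valuation (X - X₀) < 1) (hZ : V.valuation (Z - Z₀) < 1)
    (hY : V.valuation (Y - Y₀) < 1) (hW : V.valuation (W - W₀) < 1)
    (h : V.valuation (bih s f d X₀ Z₀ Y₀ W₀) = 1) : bih s f d X Z Y W ≠ 0 := by
  classical
  have lift0 : ∀ {a a₀ : ℂ}, V.valuation a₀ ≤ 1 → V.valuation (a - a₀) < 1 → ∃ b b₀ : V,
      (b : ℂ) = a ∧ (b₀ : ℂ) = a₀ ∧ IsLocalRing.residue V b = IsLocalRing.residue V b₀ := by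
    intro a a₀ h0 h1
    have h2 : a₀ ∈ V := (V.valuation_le_one_iff _).1 h0
    have h3 : a - a₀ ∈ V := (V.valuation_le_one_iff _).1 h1.le
    have h4 : a ∈ V := by
      have := V.add_mem _ _ h3 h2
      rwa [sub_add_cancel] at this
    refine ⟨⟨a, h4⟩, ⟨a₀, h2⟩, rfl, rfl, ?_⟩
    rw [← sub_eq_zero, ← map_sub, IsLocalRing.residue_eq_zero_iff]
    exact (V.valuation_lt_one_iff _).2 h1
  obtain ⟨x, x₀, hx, hx₀, ex⟩ := lift0 hX₀ hX
  obtain ⟨z, z₀, hz, hz₀, ez⟩ := lift0 hZ₀ hZ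
  obtain ⟨y, y₀, hy, hy₀, ey⟩ := lift0 hY₀ hY
  obtain ⟨w, w₀, hw, hw₀, ew⟩ := lift0 hW₀ hW
  let g : (Fin 2 →₀ ℕ) → V := fun m => if hm : f m ∈ V then ⟨f m, hm⟩ else 0
  have hg : ∀ m ∈ s, ((g m : V) : ℂ) = f m := by
    intro m hm
    have : f m ∈ V := (V.valuation_le_one_iff _).1 (hf m hm)
    show ((if hm : f m ∈ V then (⟨f m, hm⟩ : V) else 0 : V) : ℂ) = f m
    rw [dif_pos this]
  have e1 : ((bih s g d x z y w : V) : ℂ) = bih s f d X Z Y W := by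
    have := bih_map V.subtype s g d x z y w
    rw [← hx, ← hz, ← hy, ← hw]
    refine this.trans (bih_congr s _ _ d _ _ _ _ fun m hm => hg m hm)
  have e2 : ((bih s g d x₀ z₀ y₀ w₀ : V) : ℂ) = bih s f d X₀ Z₀ Y₀ W₀ := by
    have := bih_map V.subtype s g d x₀ z₀ y₀ w₀
    rw [← hx₀, ← hz₀, ← hy₀, ← hw₀]
    refine this.trans (bih_congr s _ _ d _ _ _ _ fun m hm => hg m hm)
  have e3 : IsLocalRing.residue V (bih s g d x z y w) =
      IsLocalRing.residue V (bih s g d x₀ z₀ y₀ w₀) := by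
    rw [bih_map, bih_map, ex, ez, ey, ew]
  have e4 : IsLocalRing.residue V (bih s g d x₀ z₀ y₀ w₀) ≠ 0 := by
    rw [Ne, IsLocalRing.residue_eq_zero_iff]
    intro h1
    have h2 := (V.valuation_lt_one_iff _).1 h1
    rw [e2, h] at h2
    exact lt_irrefl _ h2
  intro h0
  rw [← e1] at h0
  have h5 : bih s g d x z y w = 0 := Subtype.ext h0
  rw [h5, map_zero] at e3
  exact e4 e3.symm

end Pool.Agent.T2H68.ZD
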