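import Pool.Agent.T2H68.ZD.Main

/-!
Density and positive proportion of the members of a residue class of integral matrices
(helper file).
-/

namespace Pool.Agent.T2H68.ZD

/-- integral vectors in a residue class: weak approximation -/
theorem approx_class {ι : Type*} [Finite ι] (Q m : ℕ) (hQ : 0 < Q) (hm : 0 < m)
    (hco : Nat.Coprime Q m) (g N : ι → ℤ) (M : ι → ℝ) (ε : ℝ) (hε : 0 < ε) :
    ∃ (k : ℕ) (h : ι → ℤ), 0 < k ∧ k ≡ 1 [MOD m] ∧ (∀ s, |(h s : ℝ) / k - M s| < ε) ∧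
      (∀ s, h s ≡ N s [ZMOD m]) ∧ ∀ s, ∃ r : ℤ, h s = g s + Q * r := by
  obtain ⟨K, hK⟩ := exists_nat_gt ((m : ℝ) * Q / ε)
  set k : ℕ := 1 + m * K with hk
  have hkpos : 0 < k := by omega
  have hkr : (0 : ℝ) < k := by exact_mod_cast hkpos
  have hmr : (1 : ℝ) ≤ m := by exact_mod_cast hm
  have hQr : (1 : ℝ) ≤ Q := by exact_mod_cast hQ
  have hmQ : (0 : ℝ) < m * Q := by positivity
  have hkbig : (m : ℝ) * Q < ε * k := by
    have h1 : (m : ℝ) * Q < ε * K := by
      rw [div_lt_iff₀ hε] at hK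
      linarith
    have h2 : (K : ℝ) ≤ k := by
      have : K ≤ k := by
        rw [hk]
        nlinarith
      exact_mod_cast this
    nlinarith
  obtain ⟨u, v, huv⟩ : ∃ u v : ℤ, (Q : ℤ) * u + m * v = 1 := by
    refine ⟨Q.gcdA m, Q.gcdB m, ?_⟩
    rw [← Nat.gcd_eq_gcd_ab, hco.gcd_eq_one, Nat.cast_one]
  let t : ι → ℤ := fun s => N s * (Q * u) + g s * (m * v)
  let r : ι → ℤ := fun s => round (((k : ℝ) * M s - t s) / (m * Q))
  refine ⟨k, fun s => t s + m * Q * r s, hkpos, ?_, ?_, ?_, ?_⟩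
  · have : k ≡ 1 + m * K [MOD m] := by rw [hk]
    refine this.trans ?_
    show (1 + m * K) % m = 1 % m
    rw [Nat.add_mul_mod_self_left]
  · intro s
    have h1 := abs_sub_round (((k : ℝ) * M s - t s) / (m * Q))
    have h2 : ((t s + m * Q * r s : ℤ) : ℝ) / k - M s =
        -((((k : ℝ) * M s - t s) / (m * Q) - (r s : ℝ)) * (m * Q) / k) := by
      push_cast
      field_simp
      ring
    rw [h2, abs_neg, abs_div, abs_mul, abs_of_pos hmQ, abs_of_pos hkr, div_lt_iff₀ hkr]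
    calc |((k : ℝ) * M s - t s) / (m * Q) - (r s : ℝ)| * (m * Q) ≤ 1 / 2 * (m * Q) := by
          gcongr
      _ ≤ m * Q := by linarith
      _ < ε * k := hkbig
  · intro s
    show t s + m * Q * r s ≡ N s [ZMOD m]
    have h1 : t s + m * Q * r s = N s + m * (g s * v - N s * v + Q * r s) := by
      show N s * (Q * u) + g s * (m * v) + m * Q * r s = _
      have : (Q : ℤ) * u = 1 - m * v := by linarith
      rw [this]
      ring
    rw [h1]
    exact Int.modEq_iff_dvd.2 ⟨-(g s * v - N s * v + Q * r s), by ring⟩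
  · intro s
    refine ⟨N s * u - g s * u + m * r s, ?_⟩
    show N s * (Q * u) + g s * (m * v) + m * Q * r s = _
    have : (m : ℤ) * v = 1 - Q * u := by linarith
    rw [this]
    ring

/-- a residue class contains a positive proportion of all integral vectors -/
theorem prop_class {ι : Type*} [Fintype ι] (Q : ℕ) (hQ : 0 < Q) (g : ι → ℤ)
    (Good : (ι → ℤ) → Prop) (hG : ∀ h : ι → ℤ, (∀ s, ∃ r : ℤ, h s = g s + Q * r) → Good h) :
    ∃ δ : ℝ, 0 < δ ∧ ∃ H₀ : ℕ, ∀ H : ℕ, H₀ ≤ H → δ * (H : ℝ) ^ (Fintype.card ι) ≤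
      (Set.ncard {h : ι → ℤ | (∀ s, |h s| ≤ H) ∧ Good h} : ℝ) := by
  classical
  have hQr : (0 : ℝ) < Q := by exact_mod_cast hQ
  have hQz : (0 : ℤ) < Q := by exact_mod_cast hQ
  refine ⟨(1 / (2 * (Q : ℝ))) ^ (Fintype.card ι), by positivity, Q, fun H hH => ?_⟩
  let T' := H / Q
  let g' : ι → ℤ := fun s => g s % Q
  have hg' : ∀ s, 0 ≤ g' s ∧ g' s < Q := fun s =>
    ⟨Int.emod_nonneg _ hQz.ne', Int.emod_lt_of_pos _ hQz⟩
  let f : (ι → Fin T') → (ι → ℤ) := fun t s => g' s + Q * ((t s : ℕ) : ℤ)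
  have hfinj : Function.Injective f := by
    intro t t' h
    funext s
    have h1 : g' s + Q * ((t s : ℕ) : ℤ) = g' s + Q * ((t' s : ℕ) : ℤ) := congrFun h s
    have h2 : (Q : ℤ) * ((t s : ℕ) : ℤ) = Q * ((t' s : ℕ) : ℤ) := by linarith
    have h3 := mul_left_cancel₀ hQz.ne' h2
    exact Fin.ext (by exact_mod_cast h3)
  have hfin : {h : ι → ℤ | (∀ s, |h s| ≤ H) ∧ Good h}.Finite := by
    refine (Set.Finite.pi fun _ : ι => Set.finite_Icc (-(H : ℤ)) H).subset ?_
    rintro c ⟨hc, -⟩ s -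
    exact Set.mem_Icc.2 (abs_le.1 (hc s))
  have hsub : Set.range f ⊆ {h : ι → ℤ | (∀ s, |h s| ≤ H) ∧ Good h} := by
    rintro _ ⟨t, rfl⟩
    refine ⟨fun s => ?_, hG _ fun s => ⟨-(g s / Q) + ((t s : ℕ) : ℤ), ?_⟩⟩
    · have h1 := hg' s
      have h2 : (t s : ℕ) + 1 ≤ T' := (t s).2
      have h3 : Q * ((t s : ℕ) + 1) ≤ Q * T' := Nat.mul_le_mul_left _ h2
      have h4 : Q * T' ≤ H := Nat.mul_div_le H Q
      have h5 : (Q : ℤ) * (((t s : ℕ) : ℤ) + 1) ≤ H := by exact_mod_cast h3.trans h4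
      have h6 : (0 : ℤ) ≤ Q * ((t s : ℕ) : ℤ) := by positivity
      rw [abs_of_nonneg (by show 0 ≤ g' s + Q * ((t s : ℕ) : ℤ); linarith)]
      show g' s + Q * ((t s : ℕ) : ℤ) ≤ H
      linarith
    · show g s % Q + Q * ((t s : ℕ) : ℤ) = _
      have := Int.emod_add_mul_ediv (g s) Q
      linear_combination this
  have hcard : T' ^ (Fintype.card ι) ≤ Set.ncard {h : ι → ℤ | (∀ s, |h s| ≤ H) ∧ Good h} := by
    have h1 := Set.ncard_le_ncard hsub hfin
    have h2 : (Set.range f).ncard = T' ^ (Fintype.card ι) := by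
      rw [← Set.image_univ, Set.ncard_image_of_injective _ hfinj, Set.ncard_univ,
        Nat.card_eq_fintype_card, Fintype.card_fun, Fintype.card_fin]
    rwa [h2] at h1
  have hT : (H : ℝ) / (2 * Q) ≤ T' := by
    have h1 : 1 ≤ T' := (Nat.one_le_div_iff hQ).2 hH
    have h2 : H < Q * (T' + 1) := Nat.lt_mul_div_succ H hQ
    have h3 : (H : ℝ) < Q * (T' + 1) := by exact_mod_cast h2
    have h4 : (1 : ℝ) ≤ T' := by exact_mod_cast h1
    rw [div_le_iff₀ (by positivity)]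
    nlinarith
  calc (1 / (2 * (Q : ℝ))) ^ (Fintype.card ι) * (H : ℝ) ^ (Fintype.card ι) =
        ((H : ℝ) / (2 * Q)) ^ (Fintype.card ι) := by
        rw [← mul_pow]
        congr 1
        ring
    _ ≤ (T' : ℝ) ^ (Fintype.card ι) := by
        have : (0 : ℝ) ≤ (H : ℝ) / (2 * Q) := by positivity
        gcongr
    _ ≤ _ := by exact_mod_cast hcard

/-- Four different primes above a bound. -/
theorem exists_four_primes (D : ℕ) : ∃ p : Fin 4 → ℕ, (∀ l, (p l).Prime ∧ D < p l) ∧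
    Function.Injective p := by
  have hinf : {p : ℕ | p.Prime ∧ D < p}.Infinite := by
    rw [Set.infinite_iff_exists_gt]
    intro a
    obtain ⟨p, hp1, hp2⟩ := Nat.exists_infinite_primes (a + D + 1)
    exact ⟨p, ⟨hp2, by omega⟩, by omega⟩
  let emb := hinf.natEmbedding
  refine ⟨fun l => (emb l : ℕ), fun l => (emb l).2, fun l l' h => ?_⟩
  exact Fin.ext (emb.injective (Subtype.ext h))

/-- The primes dividing `Q` are bigger than `m`, hence `Q` and `m` are coprime. -/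
theorem coprime_of_primes {Q m : ℕ} (hm : 0 < m) (h : ∀ q : ℕ, q.Prime → q ∣ Q → m < q) :
    Nat.Coprime Q m := by
  refine Nat.Coprime.symm (Nat.Coprime.symm (Nat.coprime_of_dvd fun q hq h1 h2 => ?_))
  exact absurd (Nat.le_of_dvd hm h2) (not_le.2 (h q hq h1))

end Pool.Agent.T2H68.ZD
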