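import Pool.Agent.T2H68.ZD.B

/-!
The translates of an irreducible curve are irreducible curves (helper file).
-/

namespace Pool.Agent.T2H68.ZD

open MvPolynomial

/-- numerator of the Möbius transformation in a `ℂ`-algebra -/
noncomputable def nm {B : Type} [Field B] [Algebra ℂ B] (M : Matrix (Fin 2) (Fin 2) ℂ) (x : B) : B :=
  algebraMap ℂ B (M 0 0) * x + algebraMap ℂ B (M 0 1)

/-- denominator of the Möbius transformation in a `ℂ`-algebra -/
noncomputable def dn {B : Type} [Field B] [Algebra ℂ B] (M : Matrix (Fin 2) (Fin 2) ℂ) (x : B) : B :=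
  algebraMap ℂ B (M 1 0) * x + algebraMap ℂ B (M 1 1)

theorem clear_den {n : ℕ} (h : Fin n → Matrix (Fin 2) (Fin 2) ℂ) (F : MvPolynomial (Fin n) ℂ) :
    ∃ (N : ℕ) (G : MvPolynomial (Fin n) ℂ), ∀ (B : Type) [Field B] [Algebra ℂ B] (x : Fin n → B),
      (∀ i, dn (h i) (x i) ≠ 0) →
      aeval (fun i => nm (h i) (x i) / dn (h i) (x i)) F * (∏ i, dn (h i) (x i)) ^ N =
        aeval x G := by
  classical
  have hD : ∀ (s : Finset (Fin n)) (B : Type) [Field B] [Algebra ℂ B] (x : Fin n → B),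
      aeval x (∏ i ∈ s, (C (h i 1 0) * X i + C (h i 1 1)) : MvPolynomial (Fin n) ℂ) =
      ∏ i ∈ s, dn (h i) (x i) := by
    intro s B _ _ x
    rw [map_prod]
    refine Finset.prod_congr rfl fun i _ => ?_
    rw [map_add, map_mul, aeval_C, aeval_C, aeval_X]
    rfl
  induction F using MvPolynomial.induction_on with
  | C a =>
    refine ⟨0, C a, fun B _ _ x _ => ?_⟩
    rw [aeval_C, aeval_C, pow_zero, mul_one]
  | add p q hp hq =>
    obtain ⟨N₁, G₁, h₁⟩ := hp
    obtain ⟨N₂, G₂, h₂⟩ := hq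
    refine ⟨N₁ + N₂, G₁ * (∏ i, (C (h i 1 0) * X i + C (h i 1 1))) ^ N₂ +
      G₂ * (∏ i, (C (h i 1 0) * X i + C (h i 1 1))) ^ N₁, fun B _ _ x hx => ?_⟩
    rw [map_add, map_add, map_mul, map_mul, map_pow, map_pow, hD, ← h₁ B x hx, ← h₂ B x hx]
    ring
  | mul_X p i hp =>
    obtain ⟨N₁, G₁, h₁⟩ := hp
    refine ⟨N₁ + 1, G₁ * ((C (h i 0 0) * X i + C (h i 0 1)) *
      ∏ j ∈ Finset.univ.erase i, (C (h j 1 0) * X j + C (h j 1 1))), fun B _ _ x hx => ?_⟩
    have e1 : aeval x (C (h i 0 0) * X i + C (h i 0 1) : MvPolynomial (Fin n) ℂ) =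
        nm (h i) (x i) := by
      rw [map_add, map_mul, aeval_C, aeval_C, aeval_X]
      rfl
    rw [map_mul, map_mul, map_mul, e1, hD, ← h₁ B x hx, aeval_X, pow_succ]
    have e2 : ∏ i, dn (h i) (x i) = dn (h i) (x i) * ∏ j ∈ Finset.univ.erase i, dn (h j) (x j) :=
      (Finset.mul_prod_erase _ _ (Finset.mem_univ i)).symm
    have e3 : nm (h i) (x i) / dn (h i) (x i) * ∏ i, dn (h i) (x i) =
        nm (h i) (x i) * ∏ j ∈ Finset.univ.erase i, dn (h j) (x j) := by
      rw [e2, ← mul_assoc, div_mul_cancel₀ _ (hx i)]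
    rw [← e3]
    ring

theorem exists_transcendental {n : ℕ} (P : Ideal (MvPolynomial (Fin n) ℂ)) (_hP : P.IsPrime)
    (htr : Algebra.trdeg ℂ (MvPolynomial (Fin n) ℂ ⧸ P) = 1) :
    ∃ j, Transcendental ℂ (Ideal.Quotient.mk P (X j)) := by
  by_contra hcon
  simp only [Transcendental, not_exists, not_not] at hcon
  have : ∀ F : MvPolynomial (Fin n) ℂ, IsIntegral ℂ (Ideal.Quotient.mk P F) := by
    intro F
    induction F using MvPolynomial.induction_on with
    | C a => exact isIntegral_algebraMap (R := ℂ) (A := MvPolynomial (Fin n) ℂ ⧸ P) (x := a)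
    | add p q hp hq => rw [map_add]; exact hp.add hq
    | mul_X p i hp => rw [map_mul]; exact hp.mul (hcon i).isIntegral
  have halg : Algebra.IsAlgebraic ℂ (MvPolynomial (Fin n) ℂ ⧸ P) := by
    refine ⟨fun z => ?_⟩
    obtain ⟨F, rfl⟩ := Ideal.Quotient.mk_surjective z
    exact (this F).isAlgebraic
  have h0 : Algebra.trdeg ℂ (MvPolynomial (Fin n) ℂ ⧸ P) = 0 := trdeg_eq_zero
  rw [htr] at h0
  exact one_ne_zero h0

theorem aeval_mk {n : ℕ} (P : Ideal (MvPolynomial (Fin n) ℂ)) {σ : Type} (g : σ → Fin n)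
    (F : MvPolynomial σ ℂ) :
    aeval (fun κ => Ideal.Quotient.mk P (X (g κ))) F = Ideal.Quotient.mk P (rename g F) := by
  have : (Ideal.Quotient.mkₐ ℂ P).comp (rename g) =
      aeval (fun κ => Ideal.Quotient.mk P (X (g κ))) := by
    apply MvPolynomial.algHom_ext
    intro κ
    simp
  exact (DFunLike.congr_fun this F).symm

/-- the denominators do not vanish identically on the curve -/
theorem den_notMem {n : ℕ} (P : Ideal (MvPolynomial (Fin n) ℂ)) (hP : P.IsPrime)
    (htr : Algebra.trdeg ℂ (MvPolynomial (Fin n) ℂ ⧸ P) = 1) (i : Fin n)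
    (M : Matrix (Fin 2) (Fin 2) ℂ) (hdet : M.det ≠ 0) (T : Fin n → ℂ)
    (F : Fin n → MvPolynomial (Fin 2) ℂ) (hF : ∀ j, rename ![i, j] (F j) ∈ P)
    (hne : ∀ (j : Fin n) (α : ℂ), i ≠ j → M 1 0 * α + M 1 1 = 0 → eval ![α, T j] (F j) ≠ 0) :
    (C (M 1 0) * X i + C (M 1 1) : MvPolynomial (Fin n) ℂ) ∉ P := by
  intro hmem
  have hc : M 1 0 ≠ 0 := by
    intro h0
    rw [h0, C_0, zero_mul, zero_add] at hmem
    have h1 : M 1 1 ≠ 0 := by
      intro h11
      apply hdet
      rw [Matrix.det_fin_two, h0, h11]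
      ring
    apply hP.ne_top
    exact Ideal.eq_top_of_isUnit_mem _ hmem ((isUnit_iff_ne_zero.2 h1).map C)
  obtain ⟨j, hj⟩ := exists_transcendental P hP htr
  set α : ℂ := -M 1 1 / M 1 0 with hα
  have hα1 : M 1 0 * α + M 1 1 = 0 := by
    rw [hα]
    field_simp
    ring
  have hXi : Ideal.Quotient.mk P (X i) = algebraMap ℂ _ α := by
    have h1 : (X i - C α : MvPolynomial (Fin n) ℂ) ∈ P := by
      have h2 : (C (M 1 0)⁻¹ * (C (M 1 0) * X i + C (M 1 1)) : MvPolynomial (Fin n) ℂ) =
          X i - C α := by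
        rw [mul_add, ← mul_assoc, ← C_mul, ← C_mul, inv_mul_cancel₀ hc, C_1, one_mul,
          sub_eq_add_neg, ← C_neg]
        congr 2
        rw [hα]
        field_simp
      rw [← h2]
      exact P.mul_mem_left _ hmem
    rw [← sub_eq_zero]
    rw [← Ideal.Quotient.eq_zero_iff_mem, map_sub] at h1
    exact h1
  have hij : i ≠ j := by
    rintro rfl
    rw [hXi] at hj
    exact hj (isAlgebraic_algebraMap α)
  have h3 : Ideal.Quotient.mk P (rename ![i, j] (F j)) = 0 :=
    Ideal.Quotient.eq_zero_iff_mem.2 (hF j)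
  rw [← aeval_mk] at h3
  let p : Polynomial ℂ := aeval ![Polynomial.C α, Polynomial.X] (F j)
  have h4 : Polynomial.aeval (Ideal.Quotient.mk P (X j)) p = 0 := by
    rw [← h3]
    have : (Polynomial.aeval (Ideal.Quotient.mk P (X j)) : Polynomial ℂ →ₐ[ℂ] _).comp
        (aeval ![Polynomial.C α, Polynomial.X]) =
        aeval (fun κ => Ideal.Quotient.mk P (X (![i, j] κ))) := by
      apply MvPolynomial.algHom_ext
      intro κ
      fin_cases κ
      · simp [hXi]
      · simp
    exact DFunLike.congr_fun this (F j)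
  have h5 : p = 0 := by
    by_contra h0
    exact hj ⟨p, h0, h4⟩
  apply hne j α hij hα1
  have h6 : Polynomial.eval (T j) p = eval ![α, T j] (F j) := by
    have : (Polynomial.aeval (T j) : Polynomial ℂ →ₐ[ℂ] ℂ).comp
        (aeval ![Polynomial.C α, Polynomial.X]) = aeval ![α, T j] := by
      apply MvPolynomial.algHom_ext
      intro κ
      fin_cases κ
      · simp
      · simp
    have h7 := DFunLike.congr_fun this (F j)
    rw [AlgHom.comp_apply, Polynomial.coe_aeval_eq_eval] at h7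
    rw [h7]
    rfl
  rw [← h6, h5, Polynomial.eval_zero]

theorem isCurve_translate {n : ℕ} (P : Ideal (MvPolynomial (Fin n) ℂ)) (hP : P.IsPrime)
    (htr : Algebra.trdeg ℂ (MvPolynomial (Fin n) ℂ ⧸ P) = 1)
    (h : Fin n → Matrix (Fin 2) (Fin 2) ℂ) (hdet : ∀ i, (h i).det ≠ 0)
    (hq : ∀ i, (C (h i 1 0) * X i + C (h i 1 1) : MvPolynomial (Fin n) ℂ) ∉ P) :
    IsCurve (translate h {x | ∀ F ∈ P, eval x F = 0}) := by
  classical
  let A := MvPolynomial (Fin n) ℂ ⧸ P
  have hdomA : IsDomain A := Ideal.Quotient.isDomain P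
  let K := FractionRing A
  let x : Fin n → K := fun i => algebraMap A K (Ideal.Quotient.mk P (X i))
  have haev : ∀ G : MvPolynomial (Fin n) ℂ, aeval x G = algebraMap A K (Ideal.Quotient.mk P G) := by
    intro G
    have : ((Algebra.ofId A K).restrictScalars ℂ).comp (Ideal.Quotient.mkₐ ℂ P) = aeval x := by
      apply MvPolynomial.algHom_ext
      intro κ
      rw [aeval_X]
      rfl
    exact (DFunLike.congr_fun this G).symm
  have hinj : Function.Injective (algebraMap A K) := IsFractionRing.injective A K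
  have hdn : ∀ i, dn (h i) (x i) ≠ 0 := by
    intro i h0
    apply hq i
    rw [← Ideal.Quotient.eq_zero_iff_mem]
    apply hinj
    rw [map_zero, ← haev, ← h0, map_add, map_mul, aeval_C, aeval_C, aeval_X]
    rfl
  let y : Fin n → K := fun i => nm (h i) (x i) / dn (h i) (x i)
  let φ : MvPolynomial (Fin n) ℂ →ₐ[ℂ] K := aeval y
  let P' : Ideal (MvPolynomial (Fin n) ℂ) := RingHom.ker φ
  have hP' : P'.IsPrime := RingHom.ker_isPrime φ
  have hker : ∀ F G : MvPolynomial (Fin n) ℂ, ∀ N : ℕ,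
      aeval y F * (∏ i, dn (h i) (x i)) ^ N = aeval x G → (F ∈ P' ↔ G ∈ P) := by
    intro F G N hFG
    have hD : (∏ i, dn (h i) (x i)) ^ N ≠ 0 :=
      pow_ne_zero _ (Finset.prod_ne_zero_iff.2 fun i _ => hdn i)
    constructor
    · intro hF
      have h1 : aeval y F = 0 := hF
      rw [h1, zero_mul, haev] at hFG
      rw [← Ideal.Quotient.eq_zero_iff_mem]
      apply hinj
      rw [map_zero]
      exact hFG.symm
    · intro hG
      rw [← Ideal.Quotient.eq_zero_iff_mem] at hG
      rw [haev, hG, map_zero] at hFG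
      show aeval y F = 0
      exact (mul_eq_zero.1 hFG).resolve_right hD
  have hvan : ∀ F : MvPolynomial (Fin n) ℂ,
      (∀ z ∈ {x : Fin n → ℂ | ∀ F ∈ P, eval x F = 0}, (∀ i, h i 1 0 * z i + h i 1 1 ≠ 0) →
        eval (fun i => (h i 0 0 * z i + h i 0 1) / (h i 1 0 * z i + h i 1 1)) F = 0) ↔
      F ∈ P' := by
    intro F
    obtain ⟨N, G, hG⟩ := clear_den h F
    have hGK := hG K x hdn
    have hGC : ∀ z : Fin n → ℂ, (∀ i, h i 1 0 * z i + h i 1 1 ≠ 0) →
        eval (fun i => (h i 0 0 * z i + h i 0 1) / (h i 1 0 * z i + h i 1 1)) F *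
          (∏ i, (h i 1 0 * z i + h i 1 1)) ^ N = eval z G := by
      intro z hz
      have := hG ℂ z hz
      exact this
    rw [hker F G N hGK]
    constructor
    · intro hv
      have hprod : (G * ∏ i, (C (h i 1 0) * X i + C (h i 1 1)) : MvPolynomial (Fin n) ℂ) ∈ P := by
        have hnull := IsPrime.vanishingIdeal_zeroLocus (K := ℂ) P
        rw [← hnull]
        intro z hz
        have hz' : ∀ F ∈ P, eval z F = 0 := fun F hF => hz F hF
        show aeval z _ = 0
        rw [map_mul, map_prod]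
        by_cases hzd : ∀ i, h i 1 0 * z i + h i 1 1 ≠ 0
        · have h1 := hGC z hzd
          rw [hv z hz' hzd, zero_mul] at h1
          have h2 : aeval z G = 0 := h1.symm
          rw [h2, zero_mul]
        · push Not at hzd
          obtain ⟨i, hi⟩ := hzd
          refine mul_eq_zero_of_right _ (Finset.prod_eq_zero (Finset.mem_univ i) ?_)
          rw [map_add, map_mul, aeval_C, aeval_C, aeval_X]
          exact hi
      rcases hP.mem_or_mem hprod with h1 | h1
      · exact h1
      · exfalso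
        obtain ⟨i, -, hi⟩ := (Ideal.IsPrime.prod_mem_iff).1 h1
        exact hq i hi
    · intro hGP z hz hzd
      have h1 := hGC z hzd
      rw [hz G hGP] at h1
      exact (mul_eq_zero.1 h1).resolve_right
        (pow_ne_zero _ (Finset.prod_ne_zero_iff.2 fun i _ => hzd i))
  refine ⟨P', hP', ?_, ?_⟩
  · have hK : Algebra.trdeg ℂ K = 1 := by
      have hAK : Algebra.IsAlgebraic A K := IsLocalization.isAlgebraic K (nonZeroDivisors A)
      have h1 := trdeg_add_eq ℂ A (A := K)
      rw [trdeg_eq_zero (R := A) (A := K), add_zero] at h1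
      rw [← h1]
      exact htr
    refine le_antisymm ?_ ?_
    · rw [← hK]
      exact trdeg_le_of_injective (Ideal.kerLiftAlg φ) (Ideal.kerLiftAlg_injective φ)
    · rw [Cardinal.one_le_iff_ne_zero]
      intro h0
      have halg : Algebra.IsAlgebraic ℂ (MvPolynomial (Fin n) ℂ ⧸ P') := by
        have hfs : FaithfulSMul ℂ (MvPolynomial (Fin n) ℂ ⧸ P') := by
          have : Nontrivial (MvPolynomial (Fin n) ℂ ⧸ P') :=
            Ideal.Quotient.nontrivial_iff.2 hP'.ne_top
          infer_instance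
        have hd : IsDomain (MvPolynomial (Fin n) ℂ ⧸ P') := Ideal.Quotient.isDomain P'
        exact trdeg_eq_zero_iff.1 h0
      obtain ⟨j, hj⟩ := exists_transcendental P hP htr
      apply hj
      have h2 : IsAlgebraic ℂ (y j) := by
        have h3 := (halg.isAlgebraic (Ideal.Quotient.mk P' (X j))).algHom (Ideal.kerLiftAlg φ)
        rw [Ideal.kerLiftAlg_mk] at h3
        have h4 : φ (X j) = y j := aeval_X _ _
        rwa [h4] at h3
      have h5 : IsAlgebraic ℂ (x j) := by
        have e0 : ∀ a : ℂ, IsAlgebraic ℂ (algebraMap ℂ K a) := fun a => isAlgebraic_algebraMap a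
        have hΔ : algebraMap ℂ K (h j 0 0) * algebraMap ℂ K (h j 1 1) -
            algebraMap ℂ K (h j 0 1) * algebraMap ℂ K (h j 1 0) ≠ 0 := by
          rw [← map_mul, ← map_mul, ← map_sub, ← Matrix.det_fin_two]
          exact (map_ne_zero _).2 (hdet j)
        have e1 : algebraMap ℂ K (h j 1 1) * y j - algebraMap ℂ K (h j 0 1) =
            (algebraMap ℂ K (h j 0 0) * algebraMap ℂ K (h j 1 1) -
            algebraMap ℂ K (h j 0 1) * algebraMap ℂ K (h j 1 0)) / dn (h j) (x j) * x j := by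
          have h1 : y j * dn (h j) (x j) = nm (h j) (x j) := div_mul_cancel₀ _ (hdn j)
          apply mul_right_cancel₀ (hdn j)
          have h2 : (algebraMap ℂ K (h j 0 0) * algebraMap ℂ K (h j 1 1) -
            algebraMap ℂ K (h j 0 1) * algebraMap ℂ K (h j 1 0)) / dn (h j) (x j) * x j *
              dn (h j) (x j) = (algebraMap ℂ K (h j 0 0) * algebraMap ℂ K (h j 1 1) -
            algebraMap ℂ K (h j 0 1) * algebraMap ℂ K (h j 1 0)) * x j := by
            rw [mul_assoc, mul_comm (x j), ← mul_assoc, div_mul_cancel₀ _ (hdn j)]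
          rw [h2, sub_mul, mul_assoc, h1, nm, dn]
          ring
        have e2 : -algebraMap ℂ K (h j 1 0) * y j + algebraMap ℂ K (h j 0 0) =
            (algebraMap ℂ K (h j 0 0) * algebraMap ℂ K (h j 1 1) -
            algebraMap ℂ K (h j 0 1) * algebraMap ℂ K (h j 1 0)) / dn (h j) (x j) := by
          have h1 : y j * dn (h j) (x j) = nm (h j) (x j) := div_mul_cancel₀ _ (hdn j)
          apply mul_right_cancel₀ (hdn j)
          rw [div_mul_cancel₀ _ (hdn j), add_mul, mul_assoc, h1, nm, dn]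
          ring
        have e3 : x j = (algebraMap ℂ K (h j 1 1) * y j - algebraMap ℂ K (h j 0 1)) *
            (-algebraMap ℂ K (h j 1 0) * y j + algebraMap ℂ K (h j 0 0))⁻¹ := by
          rw [e1, e2, mul_comm (_ / _) (x j), mul_assoc, mul_inv_cancel₀, mul_one]
          exact div_ne_zero hΔ (hdn j)
        rw [e3]
        exact (((e0 _).mul h2).sub (e0 _)).mul (((e0 _).neg.mul h2).add (e0 _)).inv
      exact (isAlgebraic_algebraMap_iff hinj).1 h5
  · ext z
    constructor
    · intro hz F hF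
      exact hz F ((hvan F).2 hF)
    · intro hz F hF
      exact hz F ((hvan F).1 hF)

end Pool.Agent.T2H68.ZD
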