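import Pool.Agent.T2H68.ZD.Irr

/-!
All translates in a residue class (helper file).
-/

namespace Pool.Agent.T2H68.ZD

open MvPolynomial Pool.Agent.TH526.ZL
open Pool.Agent.Results.MP_e573c6_ag.FourPlaces (AtypEmpty valueAt SpecialVariety rel_of_locus)

/-- The points of `Y(1)^n` over which there are values `s ∈ D` of the functions on the factors,
which satisfy the equations `R_i (s_i, x_i) = 0`. -/
def points {n : ℕ} (R : Fin n → Polynomial (Polynomial ℂ)) (D : Set (Fin n → ℂ)) :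
    Set (Fin n → ℂ) :=
  {x | ∃ s ∈ D, ∀ i, valueAt (RingHom.id ℂ) (R i) (s i) (x i) = 0}

/-- The scaling factors and the modulus. -/
theorem exists_scalings (n T : ℕ) : ∃ e : Fin 4 → Fin n → ℕ, IndepQ T e ∧
    ∀ p : Fin 4 → ℕ, (∀ l, (p l).Prime) → Function.Injective p →
    ∃ (Q : ℕ) (A : Fin n → ℕ), 0 < Q ∧ (∀ i, 0 < A i) ∧
      (∀ q : ℕ, q.Prime → q ∣ Q → ∃ l, q = p l) ∧ (∀ l i, (A i).factorization (p l) = e l i) ∧
      ∀ l i, ∃ s, Q = A i * (p l * s) := by
  classical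
  obtain ⟨e, heprime, heinj⟩ := exists_primes n (T ^ 8)
  refine ⟨fun l i => e l i, ⟨fun l i => (heprime l i).1.pos, ?_⟩, ?_⟩
  · intro l l' hll i j hij q hq0 hqT
    beta_reduce
    refine not_sq_five hq0 (heprime l i).1 (heprime l j).1 (heprime l' i).1 (heprime l' j).1
      (lt_of_le_of_lt hqT (heprime l i).2) ?_ ?_ ?_
    · intro h
      exact hij (heinj _ _ _ _ h).2
    · intro h
      exact hll (Fin.ext (heinj _ _ _ _ h).1)
    · intro h
      exact hll (Fin.ext (heinj _ _ _ _ h).1)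
  intro p hp hpinj
  let g : Fin n → ℕ := fun i => ∏ l : Fin 4, p l ^ e l i
  have hg0 : ∀ i, 0 < g i := fun i => Finset.prod_pos fun l _ => pow_pos (hp l).pos _
  have hgfac : ∀ l i, (g i).factorization (p l) = e l i := by
    intro l i
    rw [show g i = ∏ l : Fin 4, p l ^ e l i from rfl,
      Nat.factorization_prod (fun l' _ => pow_ne_zero _ (hp l').ne_zero)]
    simp only [Finsupp.coe_finsetSum, Finset.sum_apply]
    rw [Finset.sum_eq_single l]
    · rw [(hp l).factorization_pow, Finsupp.single_eq_same]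
    · intro l' _ hne
      rw [(hp l').factorization_pow, Finsupp.single_eq_of_ne
        (fun h => hne (hpinj h).symm)]
    · intro hl
      exact absurd (Finset.mem_univ l) hl
  refine ⟨(∏ l : Fin 4, p l) * ∏ i, g i, g, Nat.mul_pos (Finset.prod_pos fun l _ => (hp l).pos)
    (Finset.prod_pos fun i _ => hg0 i), hg0, ?_, hgfac, ?_⟩
  · intro q hq hqd
    rcases (hq.dvd_mul).1 hqd with h | h
    · obtain ⟨l, -, hl⟩ := (hq.prime.dvd_finsetProd_iff _).1 h
      exact ⟨l, (Nat.prime_dvd_prime_iff_eq hq (hp l)).1 hl⟩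
    · obtain ⟨i, -, hi⟩ := (hq.prime.dvd_finsetProd_iff _).1 h
      obtain ⟨l, -, hl⟩ := (hq.prime.dvd_finsetProd_iff _).1 hi
      exact ⟨l, (Nat.prime_dvd_prime_iff_eq hq (hp l)).1 (hq.dvd_of_dvd_pow hl)⟩
  · intro l i
    obtain ⟨s1, h1⟩ := Finset.dvd_prod_of_mem p (Finset.mem_univ l)
    obtain ⟨s2, h2⟩ := Finset.dvd_prod_of_mem g (Finset.mem_univ i)
    refine ⟨s1 * s2, ?_⟩
    show (∏ l : Fin 4, p l) * ∏ i, g i = _
    rw [h1, h2]
    ring

theorem exists_bound {n : ℕ} (R : Fin n → Polynomial (Polynomial ℂ)) :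
    ∃ T : ℕ, ∀ i u w, ((R i).coeff u).coeff w ≠ 0 → u ≤ T ∧ w ≤ T := by
  classical
  refine ⟨∑ i, ∑ q ∈ expo (R i), (q.1 + q.2), fun i u w h => ?_⟩
  have h1 : u + w ≤ ∑ q ∈ expo (R i), (q.1 + q.2) :=
    Finset.single_le_sum (f := fun q : ℕ × ℕ => q.1 + q.2) (fun _ _ => Nat.zero_le _)
      (mem_expo.2 h)
  have h2 : ∑ q ∈ expo (R i), (q.1 + q.2) ≤ ∑ i, ∑ q ∈ expo (R i), (q.1 + q.2) :=
    Finset.single_le_sum (f := fun i => ∑ q ∈ expo (R i), (q.1 + q.2)) (fun _ _ => Nat.zero_le _)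
      (Finset.mem_univ i)
  omega

theorem class_main {n : ℕ} (S : Set (Fin n → ℂ)) (hS : IsCurve S)
    (R : Fin n → Polynomial (Polynomial ℂ)) (hR : ∀ i, (R i).Monic) (Γ : Finset ℂ) :
    ∃ D : ℕ, ∀ p : Fin 4 → ℕ, (∀ l, (p l).Prime ∧ D < p l) → Function.Injective p →
      ∃ (Q : ℕ) (g : Fin n → Matrix (Fin 2) (Fin 2) ℤ), 0 < Q ∧
        (∀ q : ℕ, q.Prime → q ∣ Q → ∃ l, q = p l) ∧
        ∀ h : Fin n → Matrix (Fin 2) (Fin 2) ℂ,
          (∀ i a b, ∃ w : ℂ, IsIntegral (Algebra.adjoin ℤ (Γ : Set ℂ)) w ∧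
            h i a b = (g i a b : ℂ) + Q * w) →
          (∀ i, (h i).det ≠ 0) ∧ IsCurve (translate h S) ∧
          AtypEmpty (algebraMap (Algebra.adjoin ℤ (Γ : Set ℂ)) ℂ) (points R (translate h S)) := by
  classical
  obtain ⟨P, hP, htr, rfl⟩ := hS
  have hrel0 := fun i j => exists_rel P htr i j
  choose F hF0 hFP using hrel0
  have hFS : ∀ i j, ∀ x ∈ {x : Fin n → ℂ | ∀ F ∈ P, eval x F = 0}, eval ![x i, x j] (F i j) = 0 := by
    intro i j x hx
    rw [← rename_eval]
    exact hx _ (hFP i j)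
  obtain ⟨t, htne, htF⟩ := exists_corners F hF0
  obtain ⟨T, hT⟩ := exists_bound R
  obtain ⟨e, he, hsc⟩ := exists_scalings n T
  let dd : Fin n → Fin n → ℕ := fun i j => (F i j).totalDegree
  have hdd : ∀ i j, ∀ m ∈ (F i j).support, m 0 ≤ dd i j ∧ m 1 ≤ dd i j := by
    intro i j m hm
    exact ⟨(monomial_le_degreeOf 0 hm).trans (degreeOf_le_totalDegree _ _),
      (monomial_le_degreeOf 1 hm).trans (degreeOf_le_totalDegree _ _)⟩
  let τ : ((((i : Fin n) × (expo (R i))) ⊕ ((ij : Fin n × Fin n) × (F ij.1 ij.2).support)) ⊕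
      ((Fin n × Fin n) × (Fin 2 × Fin 2))) ⊕ (Fin n ⊕ Γ) → ℂ :=
    Sum.elim (Sum.elim (Sum.elim (fun q => ((R q.1).coeff q.2.1.1).coeff q.2.1.2)
      (fun q => (F q.1.1 q.1.2).coeff q.2.1))
      (fun q => eval ![(t q.1.1 q.2.1 : ℂ), (t q.1.2 q.2.2 : ℂ)] (F q.1.1 q.1.2)))
      (Sum.elim (fun i => ((t i 1 - t i 0 : ℤ) : ℂ)) (fun γ => (γ : ℂ)))
  obtain ⟨D, hD⟩ := exists_val_units τ
  refine ⟨D, fun p hp hpinj => ?_⟩
  obtain ⟨Q, A, hQ0, hA0, hQp, hfac, hQA⟩ := hsc p (fun l => (hp l).1) hpinj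
  have hS : AlgebraicIndependent ℂ (Empty.elim : Empty → ℂ) :=
    algebraicIndependent_empty_type_iff.2 (RingHom.injective _)
  choose V hV hV1 hV2 hVx using fun l => hD (p l) (hp l).1 (hp l).2 Empty _ hS
  refine ⟨Q, fun i => !![1, -t i 0; -(A i : ℤ), (A i : ℤ) * t i 1], hQ0, hQp, fun h hh => ?_⟩
  -- integrality
  have hint : ∀ l (w : ℂ), IsIntegral (Algebra.adjoin ℤ (Γ : Set ℂ)) w → (V l).valuation w ≤ 1 := by
    intro l w hw
    refine (ValuationSubring.valuation_le_one_iff _ _).2 (W466.ZC.mem_of_integral (V l) ?_ hw)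
    intro z hz
    have hle : Algebra.adjoin ℤ (Γ : Set ℂ) ≤ subalgebraOfSubring (V l).toSubring := by
      refine Algebra.adjoin_le ?_
      intro γ hγ
      exact (ValuationSubring.valuation_le_one_iff _ _).1 (hV1 l (Sum.inr (Sum.inr ⟨γ, hγ⟩)))
    exact hle hz
  choose w hw hhw using hh
  have hAne : ∀ i, (A i : ℂ) ≠ 0 := fun i => Nat.cast_ne_zero.2 (hA0 i).ne'
  have hVQ : ∀ l, (V l).valuation (Q : ℂ) < 1 ∨ IsEmpty (Fin n) := by
    intro l
    rcases isEmpty_or_nonempty (Fin n) with hn | ⟨⟨i⟩⟩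
    · exact Or.inr hn
    · left
      obtain ⟨s, hs⟩ := hQA l i
      have e1 : (Q : ℂ) = p l * ((A i * s : ℕ) : ℂ) := by
        rw [hs]
        push_cast
        ring
      rw [e1, map_mul]
      exact (mul_le_of_le_one_right' (v_nat_le (V l) _)).trans_lt (hV l)
  have hnear : ∀ l i, Near (V l) (fun κ => (t i κ : ℂ)) (h i 0 0) (h i 0 1) (h i 1 0 / A i)
      (h i 1 1 / A i) := by
    intro l i
    have hVQ' : (V l).valuation (Q : ℂ) < 1 := (hVQ l).resolve_right fun hn => hn.elim i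
    obtain ⟨s, hs⟩ := hQA l i
    have hQs : (Q : ℂ) / A i = p l * (s : ℂ) := by
      rw [hs]
      push_cast
      rw [mul_div_assoc, mul_comm, div_mul_cancel₀]
      exact hAne i
    refine ⟨fun κ => v_int_le (V l) _, ?_, ?_, ?_, ?_⟩
    · have e1 : h i 0 0 - 1 = Q * w i 0 0 := by
        rw [hhw]
        simp
      rw [e1, map_mul]
      exact (mul_le_of_le_one_right' (hint l _ (hw i 0 0))).trans_lt hVQ'
    · have e1 : h i 0 1 - -(t i 0 : ℂ) = Q * w i 0 1 := by
        rw [hhw]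
        simp
      rw [e1, map_mul]
      exact (mul_le_of_le_one_right' (hint l _ (hw i 0 1))).trans_lt hVQ'
    · have e1 : h i 1 0 / A i - -1 = p l * ((s : ℂ) * w i 1 0) := by
        rw [← mul_assoc, ← hQs, hhw]
        have := hAne i
        simp only [Matrix.of_apply, Matrix.cons_val', Matrix.cons_val_zero, Matrix.cons_val_one,
          Matrix.cons_val_fin_one]
        push_cast
        field_simp
        ring
      rw [e1, map_mul, map_mul]
      exact (mul_le_of_le_one_right' (mul_le_one' (v_nat_le (V l) s) (hint l _ (hw i 1 0)))).trans_lt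
        (hV l)
    · have e1 : h i 1 1 / A i - (t i 1 : ℂ) = p l * ((s : ℂ) * w i 1 1) := by
        rw [← mul_assoc, ← hQs, hhw]
        have := hAne i
        simp only [Matrix.of_apply, Matrix.cons_val', Matrix.cons_val_one,
          Matrix.cons_val_fin_one]
        push_cast
        field_simp
        ring
      rw [e1, map_mul, map_mul]
      exact (mul_le_of_le_one_right' (mul_le_one' (v_nat_le (V l) s) (hint l _ (hw i 1 1)))).trans_lt
        (hV l)
  have hcoef : ∀ l i j, ∀ m ∈ (F i j).support, (V l).valuation ((F i j).coeff m) ≤ 1 :=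
    fun l i j m hm => hV1 l (Sum.inl (Sum.inl (Sum.inr ⟨(i, j), ⟨m, hm⟩⟩)))
  have hcorn : ∀ l i j, i ≠ j → ∀ κ κ', (V l).valuation
      (bih (F i j).support (F i j).coeff (dd i j) (t i κ : ℂ) 1 (t j κ' : ℂ) 1) = 1 := by
    intro l i j hij κ κ'
    rw [bih_eval]
    exact hV2 l (Sum.inl (Sum.inr ((i, j), (κ, κ')))) (htF i j hij κ κ')
  -- determinants
  have hdet : ∀ i, (h i).det ≠ 0 := by
    intro i h0
    have hN := hnear 0 i
    have e1 : (V 0).valuation ((h i 0 0) * (h i 1 1 / A i) - (h i 0 1) * (h i 1 0 / A i)) = 1 := by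
      have hle : ∀ {x y : ℂ}, (V 0).valuation y ≤ 1 → (V 0).valuation (x - y) < 1 →
          (V 0).valuation x ≤ 1 := by
        intro x y h1 h2
        have : (V 0).valuation ((x - y) + y) ≤ 1 := (V 0).valuation.map_add_le h2.le h1
        rwa [sub_add_cancel] at this
      have ha1 : (V 0).valuation (h i 0 0) ≤ 1 := hle (by rw [map_one]) hN.a
      have hb1 : (V 0).valuation (h i 0 1) ≤ 1 := hle (by rw [Valuation.map_neg]; exact hN.int 0) hN.b
      have hu : (V 0).valuation (((t i 1 - t i 0 : ℤ) : ℂ)) = 1 := by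
        refine hV2 0 (Sum.inr (Sum.inl i)) ?_
        exact Int.cast_ne_zero.2 (htne i)
      refine v_one_of_sub (V 0) hu ?_
      have e2 : (h i 0 0) * (h i 1 1 / A i) - (h i 0 1) * (h i 1 0 / A i) -
          ((t i 1 - t i 0 : ℤ) : ℂ) = (h i 0 0 * (h i 1 1 / A i - (t i 1 : ℂ)) +
          (t i 1 : ℂ) * (h i 0 0 - 1)) - (h i 0 1 * (h i 1 0 / A i - -1) -
          (h i 0 1 - -(t i 0 : ℂ))) := by
        push_cast
        ring
      rw [e2]
      refine (V 0).valuation.map_sub_lt ((V 0).valuation.map_add_lt ?_ ?_)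
        ((V 0).valuation.map_sub_lt ?_ hN.b)
      · rw [map_mul]
        exact (mul_le_of_le_one_left' ha1).trans_lt hN.e
      · rw [map_mul]
        exact (mul_le_of_le_one_left' (hN.int 1)).trans_lt hN.a
      · rw [map_mul]
        exact (mul_le_of_le_one_left' hb1).trans_lt hN.c
    rw [Matrix.det_fin_two] at h0
    have e3 : (h i 0 0) * (h i 1 1 / A i) - (h i 0 1) * (h i 1 0 / A i) =
        (h i 0 0 * h i 1 1 - h i 0 1 * h i 1 0) / A i := by ring
    rw [e3, h0, zero_div, map_zero] at e1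
    exact zero_ne_one e1
  -- the translates are curves
  have hden : ∀ i, (C (h i 1 0) * X i + C (h i 1 1) : MvPolynomial (Fin n) ℂ) ∉ P := by
    intro i
    refine den_notMem P hP htr i (h i) (hdet i) (fun j => (t j 0 : ℂ)) (fun j => F i j)
      (fun j => hFP i j) fun j α hij hα h0 => ?_
    rw [← bih_eval _ (dd i j)] at h0
    refine local_pole (V 0) _ _ (dd i j) (hdd i j) (hcoef 0 i j) (hnear 0 i) (hnear 0 j).int
      (hcorn 0 i j hij) ?_ h0
    have h5 : h i 1 0 / A i * α + h i 1 1 / A i = (h i 1 0 * α + h i 1 1) / A i := by ring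
    rw [h5, hα, zero_div]
  refine ⟨hdet, isCurve_translate P hP htr h hdet hden, ?_⟩
  intro r hr Z
  rw [Set.eq_empty_iff_forall_notMem]
  rintro x ⟨⟨y, hy, hRy⟩, z, hz⟩
  have hN : ∀ i i', 0 < ((Z.mat i).det * (Z.mat i').det).toNat := by
    intro i i'
    have := mul_pos (Z.det_pos i) (Z.det_pos i')
    omega
  refine criterionCurveV R hR hT V (fun l => (V l).valuation (p l : ℂ)) hV ?_ e he.1 he.2 hr Z.cls
    (fun i i' => ((Z.mat i).det * (Z.mat i').det).toNat) x y hN ?_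
    (fun i j l hi hj => rel_of_locus Z hz i j l hi hj) ?_ ?_
  · intro l i u v h0
    exact hV2 l (Sum.inl (Sum.inl (Sum.inl ⟨i, (u, v), mem_expo.2 h0⟩))) h0
  · intro l i hi
    rw [(hz i).1 hi]
    apply hint
    rcases Z.allowed i with ⟨τ', hτ, hc⟩ | h
    · rw [hc]
      exact (H294ZP.singular_modulus_integral τ' hτ).tower_top
    · exact h
  · exact hRy
  · intro l i j hij
    have hgood : ∀ i, (V l).valuation ((A i : ℂ) * y i) = 1 →
        (V l).valuation (y i) * (V l).valuation (p l : ℂ) ^ e l i = 1 := by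
      intro i h1
      rw [map_mul, v_nat_pow' (V l) (hp l).1 (hV l) (hA0 i).ne', hfac] at h1
      rw [mul_comm]
      exact h1
    have h1 := translate_rel (F i j) (hFS i j) (dd i j) (hdd i j) hy
    have e1 : ∀ i, h i 1 1 * y i = (h i 1 1 / A i) * ((A i : ℂ) * y i) := by
      intro i
      rw [← mul_assoc, div_mul_cancel₀ _ (hAne i)]
    have e2 : ∀ i, -h i 1 0 * y i = -(h i 1 0 / A i) * ((A i : ℂ) * y i) := by
      intro i
      rw [neg_mul, neg_mul, ← mul_assoc, div_mul_cancel₀ _ (hAne i)]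
    rw [e1 i, e1 j, e2 i, e2 j] at h1
    rcases local_unit (V l) _ _ (dd i j) (hdd i j) (hcoef l i j) (hnear l i) (hnear l j)
      (hcorn l i j hij) h1 with h2 | h2
    · exact Or.inl (hgood i h2)
    · exact Or.inr (hgood j h2)

end Pool.Agent.T2H68.ZD
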