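import Pool.Agent.T2H68.ZD.Crit

/-!
Systems of multihomogeneous equations (helper file).
-/

namespace Pool.Agent.T2H68.ZD

open Pool.Agent.TH526.ZL
open Pool.Agent.Results.MP_e573c6_ag.FourPlaces (AtypEmpty valueAt)

/-- A multihomogeneous form of the degree `d j` in the pairs of variables `X j`, `Y j` with the
coefficients `a`. -/
def form {J : Type} [Fintype J] [DecidableEq J] (d : J → ℕ) (a : (∀ j, Fin (d j + 1)) → ℂ)
    (X Y : J → ℂ) : ℂ :=
  ∑ u, a u * ∏ j, (X j ^ (u j : ℕ) * Y j ^ (d j - (u j : ℕ)))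

/-- the coefficients of the product of the powers `(X j - c Y j) ^ d j` -/
def sc {J : Type} [Fintype J] (c : ℤ) (d : J → ℕ) (u : ∀ j, Fin (d j + 1)) : ℤ :=
  ∏ j, ((-c) ^ (d j - (u j : ℕ)) * ((d j).choose (u j) : ℤ))

theorem form_sc {J : Type} [Fintype J] [DecidableEq J] (c : ℤ) (d : J → ℕ) (X Y : J → ℂ) :
    form d (fun u => (sc c d u : ℂ)) X Y = ∏ j, (X j - c * Y j) ^ d j := by
  have h1 : ∀ j, (X j - c * Y j) ^ d j = ∑ t : Fin (d j + 1),
      ((-c : ℂ) ^ (d j - (t : ℕ)) * ((d j).choose (t : ℕ) : ℂ)) *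
        (X j ^ (t : ℕ) * Y j ^ (d j - (t : ℕ))) := by
    intro j
    rw [sub_eq_add_neg, add_pow, Finset.sum_range]
    refine Finset.sum_congr rfl fun t _ => ?_
    rw [neg_mul_eq_neg_mul, mul_pow]
    ring
  simp only [h1]
  rw [Finset.prod_univ_sum, Fintype.piFinset_univ]
  unfold form sc
  refine Finset.sum_congr rfl fun u _ => ?_
  push_cast
  rw [← Finset.prod_mul_distrib]

theorem exists_small (V : ValuationSubring ℂ) {J : Type} [Fintype J] [DecidableEq J] (d : J → ℕ)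
    (a : (∀ j, Fin (d j + 1)) → ℂ) (c : ℤ) (ha : ∀ u, V.valuation (a u - (sc c d u : ℂ)) < 1)
    (X Y : J → ℂ) (hne : ∀ j, X j ≠ 0 ∨ Y j ≠ 0) (h0 : form d a X Y = 0) :
    ∃ j, V.valuation (X j - c * Y j) < max (V.valuation (X j)) (V.valuation (Y j)) := by
  by_contra hcon
  push Not at hcon
  set M : J → V.ValueGroup := fun j => max (V.valuation (X j)) (V.valuation (Y j)) with hM
  have hMne : ∀ j, M j ≠ 0 := by
    intro j h
    have h1 : V.valuation (X j) ≤ 0 := (le_max_left _ _).trans h.le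
    have h2 : V.valuation (Y j) ≤ 0 := (le_max_right _ _).trans h.le
    rcases hne j with h3 | h3
    · exact h3 ((Valuation.zero_iff _).1 (le_zero_iff.1 h1))
    · exact h3 ((Valuation.zero_iff _).1 (le_zero_iff.1 h2))
  have hB : ∏ j, M j ^ d j ≠ 0 := Finset.prod_ne_zero_iff.2 fun j _ => pow_ne_zero _ (hMne j)
  have hP : ∏ j, M j ^ d j ≤ V.valuation (∏ j, (X j - c * Y j) ^ d j) := by
    rw [map_prod]
    refine Finset.prod_le_prod' fun j _ => ?_
    rw [map_pow]
    exact pow_le_pow_left' (hcon j) _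
  have hdiff : V.valuation (∑ u : (∀ j, Fin (d j + 1)), (a u - (sc c d u : ℂ)) *
      ∏ j, (X j ^ (u j : ℕ) * Y j ^ (d j - (u j : ℕ)))) < ∏ j, M j ^ d j := by
    refine Valuation.map_sum_lt _ hB fun u _ => ?_
    rw [map_mul, map_prod]
    have h1 : ∏ j, V.valuation (X j ^ (u j : ℕ) * Y j ^ (d j - (u j : ℕ))) ≤ ∏ j, M j ^ d j := by
      refine Finset.prod_le_prod' fun j _ => ?_
      rw [map_mul, map_pow, map_pow]
      have h2 : (u j : ℕ) + (d j - (u j : ℕ)) = d j := by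
        have := (u j).2
        omega
      calc V.valuation (X j) ^ (u j : ℕ) * V.valuation (Y j) ^ (d j - (u j : ℕ)) ≤
          M j ^ (u j : ℕ) * M j ^ (d j - (u j : ℕ)) :=
            mul_le_mul' (pow_le_pow_left' (le_max_left _ _) _)
              (pow_le_pow_left' (le_max_right _ _) _)
        _ = M j ^ d j := by rw [← pow_add, h2]
    calc V.valuation (a u - (sc c d u : ℂ)) *
          ∏ j, V.valuation (X j ^ (u j : ℕ) * Y j ^ (d j - (u j : ℕ))) ≤
          V.valuation (a u - (sc c d u : ℂ)) * ∏ j, M j ^ d j := mul_le_mul_right h1 _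
      _ < 1 * ∏ j, M j ^ d j := mul_lt_mul_of_pos_right (ha u) (zero_lt_iff.2 hB)
      _ = _ := one_mul _
  have hsum : form d a X Y = ∏ j, (X j - c * Y j) ^ d j +
      ∑ u : (∀ j, Fin (d j + 1)), (a u - (sc c d u : ℂ)) *
      ∏ j, (X j ^ (u j : ℕ) * Y j ^ (d j - (u j : ℕ))) := by
    rw [← form_sc, form, form, ← Finset.sum_add_distrib]
    refine Finset.sum_congr rfl fun u _ => ?_
    ring
  rw [h0] at hsum
  have h3 : ∏ j, (X j - c * Y j) ^ d j = -∑ u : (∀ j, Fin (d j + 1)), (a u - (sc c d u : ℂ)) *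
      ∏ j, (X j ^ (u j : ℕ) * Y j ^ (d j - (u j : ℕ))) := by
    linear_combination -hsum
  rw [h3, Valuation.map_neg] at hP
  exact absurd hdiff (not_lt.2 hP)

theorem all_but_one (V : ValuationSubring ℂ) {J : Type} [Fintype J] {m : ℕ}
    (hm : Fintype.card J ≤ m + 1) (c : Fin m → ℂ) (hc : ∀ k, V.valuation (c k) = 1)
    (hcc : ∀ k k', k ≠ k' → V.valuation (c k - c k') = 1) (X Y : J → ℂ)
    (h : ∀ k, ∃ j, V.valuation (X j - c k * Y j) < max (V.valuation (X j)) (V.valuation (Y j))) :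
    ∀ j j', j ≠ j' → V.valuation (X j) = V.valuation (Y j) ∨
      V.valuation (X j') = V.valuation (Y j') := by
  classical
  choose f hf using h
  have hV : ∀ k, V.valuation (X (f k)) = V.valuation (Y (f k)) := by
    intro k
    have h1 : V.valuation (c k * Y (f k)) = V.valuation (Y (f k)) := by
      rw [map_mul, hc, one_mul]
    by_contra hne
    rcases lt_or_gt_of_ne hne with hlt | hlt
    · have h2 := V.valuation.map_sub_eq_of_lt_right (x := X (f k)) (y := c k * Y (f k))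
        (by rw [h1]; exact hlt)
      have h3 := hf k
      rw [h2, h1, max_eq_right hlt.le] at h3
      exact lt_irrefl _ h3
    · have h2 := V.valuation.map_sub_eq_of_lt_left (x := X (f k)) (y := c k * Y (f k))
        (by rw [h1]; exact hlt)
      have h3 := hf k
      rw [h2, max_eq_left (le_of_lt hlt)] at h3
      exact lt_irrefl _ h3
  have hinj : Function.Injective f := by
    intro k k' hkk
    by_contra hne
    have h1 := hf k
    have h2 := hf k'
    rw [hV, max_self] at h1 h2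
    rw [← hkk] at h2
    have h3 : V.valuation ((X (f k) - c k' * Y (f k)) - (X (f k) - c k * Y (f k))) <
        V.valuation (Y (f k)) := V.valuation.map_sub_lt h2 h1
    have h4 : (X (f k) - c k' * Y (f k)) - (X (f k) - c k * Y (f k)) =
        (c k - c k') * Y (f k) := by ring
    rw [h4, map_mul, hcc k k' hne, one_mul] at h3
    exact lt_irrefl _ h3
  intro j j' hjj
  by_contra hcon
  push Not at hcon
  obtain ⟨hj, hj'⟩ := hcon
  have h1 : j ∉ Finset.univ.image f := by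
    rw [Finset.mem_image]
    rintro ⟨k, -, rfl⟩
    exact hj (hV k)
  have h2 : j' ∉ Finset.univ.image f := by
    rw [Finset.mem_image]
    rintro ⟨k, -, rfl⟩
    exact hj' (hV k)
  have h3 : (insert j (insert j' (Finset.univ.image f))).card = m + 2 := by
    rw [Finset.card_insert_of_notMem, Finset.card_insert_of_notMem h2,
      Finset.card_image_of_injective _ hinj, Finset.card_univ, Fintype.card_fin]
    rw [Finset.mem_insert, not_or]
    exact ⟨hjj, h1⟩
  have h4 := Finset.card_le_univ (insert j (insert j' (Finset.univ.image f)))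
  omega

/-- The set given by the forms with the coefficients `a`. -/
def zeros {n r m : ℕ} (d : Fin m → Fin n ⊕ Fin r → ℕ)
    (a : ∀ k : Fin m, (∀ j, Fin (d k j + 1)) → ℂ) : Set (Fin n → ℂ) :=
  {x | ∃ X Y : Fin n ⊕ Fin r → ℂ, (∀ i, X (Sum.inl i) = x i ∧ Y (Sum.inl i) = 1) ∧
    (∀ s, X (Sum.inr s) ≠ 0 ∨ Y (Sum.inr s) ≠ 0) ∧ ∀ k, form (d k) (a k) X Y = 0}

theorem sys_class {n r m : ℕ} (hm : n + r ≤ m + 1) (d : Fin m → Fin n ⊕ Fin r → ℕ)
    (R : Fin n → Polynomial (Polynomial ℂ)) (hR : ∀ i, (R i).Monic) (Γ : Finset ℂ) :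
    ∃ D : ℕ, ∀ p : Fin 4 → ℕ, (∀ l, (p l).Prime ∧ D < p l) → Function.Injective p →
      ∃ (Q : ℕ) (g : ∀ k : Fin m, (∀ j, Fin (d k j + 1)) → ℤ), 0 < Q ∧
        (∀ q : ℕ, q.Prime → q ∣ Q → ∃ l, q = p l) ∧
        ∀ a : ∀ k : Fin m, (∀ j, Fin (d k j + 1)) → ℂ,
          (∀ k u, ∃ w : ℂ, IsIntegral (Algebra.adjoin ℤ (Γ : Set ℂ)) w ∧
            a k u = (g k u : ℂ) + Q * w) →
          AtypEmpty (algebraMap (Algebra.adjoin ℤ (Γ : Set ℂ)) ℂ) (points R (zeros d a)) := by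
  classical
  obtain ⟨T, hT⟩ := exists_bound R
  obtain ⟨e, he, hsc⟩ := exists_scalings n T
  obtain ⟨D, hD⟩ := exists_places R Γ
    (Sum.elim (fun k : Fin m => (((k : ℕ) + 1 : ℤ) : ℂ))
      (fun q : Fin m × Fin m => ((((q.1 : ℕ) + 1 : ℤ) - ((q.2 : ℕ) + 1 : ℤ) : ℤ) : ℂ)))
  refine ⟨D, fun p hp hpinj => ?_⟩
  obtain ⟨Q₀, A, hQ0, hA0, hQp, hfac, hQA⟩ := hsc p (fun l => (hp l).1) hpinj
  let AJ : Fin n ⊕ Fin r → ℕ := Sum.elim A fun _ => 1
  have hAJ0 : ∀ j, 0 < AJ j := by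
    rintro (i | s)
    · exact hA0 i
    · exact Nat.one_pos
  let B : (k : Fin m) → (∀ j, Fin (d k j + 1)) → ℕ := fun k u => ∏ j, AJ j ^ (u j : ℕ)
  have hB0 : ∀ k u, 0 < B k u := fun k u => Finset.prod_pos fun j _ => pow_pos (hAJ0 j) _
  let Q : ℕ := (∏ l, p l) * ∏ k, ∏ u, B k u
  have hQpos : 0 < Q := Nat.mul_pos (Finset.prod_pos fun l _ => (hp l).1.pos)
    (Finset.prod_pos fun k _ => Finset.prod_pos fun u _ => hB0 k u)
  have hQprime : ∀ q : ℕ, q.Prime → q ∣ Q → ∃ l, q = p l := by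
    intro q hq hqd
    rcases (hq.dvd_mul).1 hqd with h | h
    · obtain ⟨l, -, hl⟩ := (hq.prime.dvd_finsetProd_iff _).1 h
      exact ⟨l, (Nat.prime_dvd_prime_iff_eq hq (hp l).1).1 hl⟩
    · obtain ⟨k, -, hk⟩ := (hq.prime.dvd_finsetProd_iff _).1 h
      obtain ⟨u, -, hu⟩ := (hq.prime.dvd_finsetProd_iff _).1 hk
      obtain ⟨j, -, hj⟩ := (hq.prime.dvd_finsetProd_iff _).1 hu
      have hj' := hq.dvd_of_dvd_pow hj
      rcases j with i | s
      · obtain ⟨s, hs⟩ := hQA 0 i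
        apply hQp q hq
        rw [hs]
        exact Dvd.dvd.mul_right hj' _
      · have : q ∣ 1 := hj'
        exact absurd (Nat.dvd_one.1 this) hq.one_lt.ne'
  have hQB : ∀ l k u, ∃ s, Q = B k u * (p l * s) := by
    intro l k u
    obtain ⟨s1, h1⟩ := Finset.dvd_prod_of_mem p (Finset.mem_univ l)
    obtain ⟨s2, h2⟩ := Finset.dvd_prod_of_mem (fun k => ∏ u, B k u) (Finset.mem_univ k)
    obtain ⟨s3, h3⟩ := Finset.dvd_prod_of_mem (B k) (Finset.mem_univ u)
    refine ⟨s1 * (s2 * s3), ?_⟩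
    show (∏ l, p l) * ∏ k, ∏ u, B k u = _
    rw [h1, h2, h3]
    ring
  choose V hV hVR hint hV1 hV2 using fun l => hD (p l) (hp l).1 (hp l).2
  refine ⟨Q, fun k u => sc ((k : ℕ) + 1 : ℤ) (d k) u * B k u, hQpos, hQprime, fun a ha => ?_⟩
  refine atyp_of_units R hR hT Γ e he p (fun l => (hp l).1) A hA0 hfac V hV
    (fun l i u w h0 => hVR l i u w h0) hint _ ?_
  rintro y ⟨X, Y, hXY, hXYr, hz⟩ l
  have hAJc : ∀ j, (AJ j : ℂ) ≠ 0 := fun j => Nat.cast_ne_zero.2 (hAJ0 j).ne'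
  have hBc : ∀ k u, (B k u : ℂ) ≠ 0 := fun k u => Nat.cast_ne_zero.2 (hB0 k u).ne'
  let X' : Fin n ⊕ Fin r → ℂ := fun j => AJ j * X j
  have hform : ∀ k, form (d k) (fun u => a k u / B k u) X' Y = 0 := by
    intro k
    rw [← hz k]
    unfold form
    refine Finset.sum_congr rfl fun u _ => ?_
    have h1 : ∏ j, (X' j ^ (u j : ℕ) * Y j ^ (d k j - (u j : ℕ))) =
        (B k u : ℂ) * ∏ j, (X j ^ (u j : ℕ) * Y j ^ (d k j - (u j : ℕ))) := by
      have h2 : (B k u : ℂ) = ∏ j, (AJ j : ℂ) ^ (u j : ℕ) := by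
        show ((∏ j, AJ j ^ (u j : ℕ) : ℕ) : ℂ) = _
        push_cast
        rfl
      rw [h2, ← Finset.prod_mul_distrib]
      refine Finset.prod_congr rfl fun j _ => ?_
      show ((AJ j : ℂ) * X j) ^ (u j : ℕ) * _ = _
      rw [mul_pow]
      ring
    rw [h1, ← mul_assoc, div_mul_cancel₀ _ (hBc k u)]
  have hsmall : ∀ k : Fin m, ∃ j, (V l).valuation (X' j - ((((k : ℕ) + 1 : ℤ)) : ℂ) * Y j) <
      max ((V l).valuation (X' j)) ((V l).valuation (Y j)) := by
    intro k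
    refine exists_small (V l) (d k) _ _ (fun u => ?_) X' Y ?_ (hform k)
    · obtain ⟨w, hw, haw⟩ := ha k u
      obtain ⟨s, hs⟩ := hQB l k u
      have h1 : a k u / B k u - (sc ((k : ℕ) + 1 : ℤ) (d k) u : ℂ) = p l * ((s : ℂ) * w) := by
        have hQs : (Q : ℂ) = B k u * (p l * s) := by
          rw [hs]
          push_cast
          ring
        rw [haw, hQs]
        have := hBc k u
        push_cast
        field_simp
        ring
      rw [h1, map_mul, map_mul]
      exact (mul_le_of_le_one_right' (mul_le_one' (v_nat_le (V l) s) (hint l _ hw))).trans_lt (hV l)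
    · rintro (i | s)
      · right
        rw [(hXY i).2]
        exact one_ne_zero
      · rcases hXYr s with h | h
        · left
          exact mul_ne_zero (hAJc _) h
        · exact Or.inr h
  intro i j hij
  have hcard : Fintype.card (Fin n ⊕ Fin r) ≤ m + 1 := by
    rw [Fintype.card_sum, Fintype.card_fin, Fintype.card_fin]
    exact hm
  have h1 := all_but_one (V l) hcard (fun k : Fin m => ((((k : ℕ) + 1 : ℤ)) : ℂ))
    (fun k => hV2 l (Sum.inl k) ?_) (fun k k' hkk => ?_) X' Y hsmall (Sum.inl i) (Sum.inl j)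
    (fun h => hij (Sum.inl_injective h))
  · rw [(hXY i).2, (hXY j).2, map_one] at h1
    have h2 : ∀ i, X' (Sum.inl i) = (A i : ℂ) * y i := by
      intro i
      show (A i : ℂ) * X (Sum.inl i) = _
      rw [(hXY i).1]
    rw [h2, h2] at h1
    exact h1
  · show ((((k : ℕ) + 1 : ℤ)) : ℂ) ≠ 0
    rw [Int.cast_ne_zero]
    positivity
  · have h1 := hV2 l (Sum.inr (k, k')) (by
      show ((((k : ℕ) + 1 : ℤ) - ((k' : ℕ) + 1 : ℤ) : ℤ) : ℂ) ≠ 0
      rw [Int.cast_ne_zero]
      intro h0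
      apply hkk
      apply Fin.ext
      omega)
    rw [← h1]
    congr 1
    show _ = ((((k : ℕ) + 1 : ℤ) - ((k' : ℕ) + 1 : ℤ) : ℤ) : ℂ)
    push_cast
    ring

end Pool.Agent.T2H68.ZD
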