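import Pool.Agent.T2H68.ZD.V3
import Pool.Agent.T2H68.ZD.Dens2
import Pool.Agent.W282.ZP.Geo

/-!
Uniform proportions, primes, and the degrees of irreducible varieties (helper file).
-/

namespace Pool.Agent.T2H68.ZD

open MvPolynomial Pool.Agent.W282.ZP

/-- Different primes above a bound. -/
theorem exists_prime_tuple (M B : ℕ) : ∃ p : Fin M → ℕ, (∀ l, (p l).Prime ∧ B < p l) ∧
    Function.Injective p := by
  have hinf : {p : ℕ | p.Prime ∧ B < p}.Infinite := by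
    rw [Set.infinite_iff_exists_gt]
    intro a
    obtain ⟨p, hp1, hp2⟩ := Nat.exists_infinite_primes (a + B + 1)
    exact ⟨p, ⟨hp2, by omega⟩, by omega⟩
  let emb := hinf.natEmbedding
  refine ⟨fun l => (emb l : ℕ), fun l => (emb l).2, fun l l' h => ?_⟩
  exact Fin.ext (emb.injective (Subtype.ext h))

/-- A residue class has positive density in every box, with constants which depend only on the
modulus and the box. -/
theorem uni_proportion {κ : Type} [Fintype κ] (Q : ℕ) (hQ : 0 < Q)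
    (u : κ → ℝ) (ε : ℝ) (hε : 0 < ε) :
    ∃ δ : ℝ, 0 < δ ∧ ∃ H₀ : ℕ, ∀ (G : κ → ℤ) (Good : (κ → ℤ) → Prop),
      (∀ g : κ → ℤ, (∀ i, (Q : ℤ) ∣ g i - G i) → Good g) → ∀ H : ℕ, H₀ ≤ H →
      δ * (H : ℝ) ^ Fintype.card κ ≤ Nat.card {g : κ → ℤ //
        (∀ i, |(g i : ℝ) - H * u i| ≤ ε * H) ∧ Good g} := by
  classical
  have hQr : (0 : ℝ) < Q := by exact_mod_cast hQ
  refine ⟨(ε / (2 * (Q : ℝ))) ^ Fintype.card κ, by positivity, ⌈(Q : ℝ) / ε⌉₊,
    fun G Good h H hH => ?_⟩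
  have hHr : (Q : ℝ) / ε ≤ H := (Nat.le_ceil _).trans (by exact_mod_cast hH)
  have h1Q : 1 ≤ ε * H / Q := by
    rw [le_div_iff₀ hQr, one_mul]
    rw [div_le_iff₀ hε] at hHr
    linarith
  set L : ℕ := ⌊ε * H / Q⌋₊ with hL
  have hL1 : 1 ≤ L := by
    rw [hL, Nat.one_le_floor_iff]
    exact h1Q
  have hfin : Finite {g : κ → ℤ // (∀ i, |(g i : ℝ) - H * u i| ≤ ε * H) ∧ Good g} := by
    have h1 : (Set.pi Set.univ fun i : κ =>
        Set.Icc ⌊(H * u i - ε * H : ℝ)⌋ ⌈(H * u i + ε * H : ℝ)⌉).Finite :=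
      Set.Finite.pi fun _ => Set.finite_Icc _ _
    refine Set.Finite.subset h1 fun g hg i _ => ?_
    have h2 := abs_le.1 (hg.1 i)
    rw [Set.mem_Icc]
    constructor
    · have h3 : ((⌊(H * u i - ε * H : ℝ)⌋ : ℤ) : ℝ) ≤ g i := (Int.floor_le _).trans (by linarith)
      exact_mod_cast h3
    · have h3 : (g i : ℝ) ≤ ((⌈(H * u i + ε * H : ℝ)⌉ : ℤ) : ℝ) :=
        le_trans (by linarith) (Int.le_ceil _)
      exact_mod_cast h3
  let base : κ → ℤ := fun i => G i + Q * ⌈((H : ℝ) * u i - G i) / Q⌉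
  have hbase : ∀ i, (H : ℝ) * u i ≤ base i ∧ (base i : ℝ) ≤ H * u i + Q := by
    intro i
    have h2 := Int.le_ceil (((H : ℝ) * u i - G i) / Q)
    have h3 := Int.ceil_lt_add_one (((H : ℝ) * u i - G i) / Q)
    rw [div_le_iff₀ hQr] at h2
    have h4 : ((⌈((H : ℝ) * u i - G i) / Q⌉ : ℤ) : ℝ) - 1 < ((H : ℝ) * u i - G i) / Q := by
      linarith
    rw [lt_div_iff₀ hQr] at h4
    simp only [base]
    push_cast
    constructor
    · nlinarith
    · nlinarith
  let φ : (κ → Fin L) → {g : κ → ℤ // (∀ i, |(g i : ℝ) - H * u i| ≤ ε * H) ∧ Good g} :=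
    fun k => ⟨fun i => base i + Q * ((k i : ℕ) : ℤ), by
      refine ⟨fun i => ?_, h _ fun i => ?_⟩
      · obtain ⟨h2, h3⟩ := hbase i
        have h4 : ((k i : ℕ) : ℝ) + 1 ≤ L := by exact_mod_cast (k i).2
        have h5 : (L : ℝ) ≤ ε * H / Q := Nat.floor_le (by positivity)
        have h6 : (Q : ℝ) * L ≤ ε * H := by
          rw [le_div_iff₀ hQr] at h5
          linarith
        have h7 : (0 : ℝ) ≤ ((k i : ℕ) : ℝ) := Nat.cast_nonneg _
        push_cast
        rw [abs_le]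
        constructor
        · nlinarith
        · nlinarith
      · refine ⟨⌈((H : ℝ) * u i - G i) / Q⌉ + ((k i : ℕ) : ℤ), ?_⟩
        simp only [base]
        ring⟩
  have hφ : Function.Injective φ := by
    intro k l hkl
    funext i
    have h2 : base i + Q * ((k i : ℕ) : ℤ) = base i + Q * ((l i : ℕ) : ℤ) :=
      congrFun (congrArg Subtype.val hkl) i
    have h3 : (Q : ℤ) ≠ 0 := by exact_mod_cast hQ.ne'
    have h4 : ((k i : ℕ) : ℤ) = ((l i : ℕ) : ℤ) := mul_left_cancel₀ h3 (by linarith)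
    exact Fin.ext (by exact_mod_cast h4)
  have hcard := Nat.card_le_card_of_injective φ hφ
  have hcard2 : Nat.card (κ → Fin L) = L ^ Fintype.card κ := by
    simp [Nat.card_eq_fintype_card]
  rw [hcard2] at hcard
  have h1 : (ε / (2 * (Q : ℝ))) * H ≤ (L : ℝ) := by
    have h2 : ε * H / Q < (L : ℝ) + 1 := Nat.lt_floor_add_one _
    have h5 : (1 : ℝ) ≤ (L : ℝ) := by exact_mod_cast hL1
    have h6 : (ε / (2 * (Q : ℝ))) * H = (ε * H / Q) / 2 := by field_simp
    rw [h6]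
    linarith
  calc (ε / (2 * (Q : ℝ))) ^ Fintype.card κ * (H : ℝ) ^ Fintype.card κ =
        ((ε / (2 * (Q : ℝ))) * H) ^ Fintype.card κ := by rw [mul_pow]
    _ ≤ (L : ℝ) ^ Fintype.card κ := pow_le_pow_left₀ (by positivity) h1 _
    _ ≤ _ := by exact_mod_cast hcard

/-- a common residue class for two coprime moduli -/
theorem crt_class {κ : Type} (Q m : ℕ) (hco : Nat.Coprime Q m) (g c₀ : κ → ℤ) :
    ∃ G : κ → ℤ, ∀ c : κ → ℤ, (∀ i, ((Q * m : ℕ) : ℤ) ∣ c i - G i) →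
      (∀ i, (Q : ℤ) ∣ c i - g i) ∧ ∀ i, (m : ℤ) ∣ c i - c₀ i := by
  obtain ⟨u, v, huv⟩ : ∃ u v : ℤ, (Q : ℤ) * u + m * v = 1 := by
    refine ⟨Q.gcdA m, Q.gcdB m, ?_⟩
    rw [← Nat.gcd_eq_gcd_ab, hco.gcd_eq_one, Nat.cast_one]
  refine ⟨fun i => c₀ i * (Q * u) + g i * (m * v), fun c hc => ⟨fun i => ?_, fun i => ?_⟩⟩
  · obtain ⟨b, hb⟩ := hc i
    refine ⟨m * b + c₀ i * u - g i * u, ?_⟩
    have e1 : (m : ℤ) * v = 1 - Q * u := by linarith
    rw [e1] at hb
    push_cast at hb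
    linear_combination hb
  · obtain ⟨b, hb⟩ := hc i
    refine ⟨Q * b + g i * v - c₀ i * v, ?_⟩
    have e1 : (Q : ℤ) * u = 1 - m * v := by linarith
    rw [e1] at hb
    push_cast at hb
    linear_combination hb

/-- Irreducible varieties satisfy the degree condition for some degree. -/
theorem exists_degIdeal {ι : Type} [Finite ι] {d : ℕ} (P : Ideal (MvPolynomial ι ℂ)) [P.IsPrime]
    (hd : Algebra.trdeg ℂ (MvPolynomial ι ℂ ⧸ P) = d) : ∃ δ : ℕ, DegIdeal d δ P := by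
  classical
  have := Fintype.ofFinite ι
  obtain ⟨f, α, β, -, hf⟩ := exists_corners' P hd
  refine ⟨∑ J : Finset ι, (f J).totalDegree, fun J hJ => ⟨f J, ?_, fun m hm i => ?_,
    (hf J hJ).1⟩⟩
  · intro h0
    have h1 := (hf J hJ).2 fun _ => true
    rw [h0, map_zero] at h1
    exact h1 rfl
  · have h1 : m i ≤ (f J).totalDegree := by
      refine le_trans ?_ (le_totalDegree hm)
      rw [Finsupp.sum_fintype _ _ (fun _ => rfl)]
      exact Finset.single_le_sum (f := fun i => m i) (fun _ _ => Nat.zero_le _) (Finset.mem_univ i)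
    exact h1.trans (Finset.single_le_sum (f := fun J : Finset ι => (f J).totalDegree)
      (fun _ _ => Nat.zero_le _) (Finset.mem_univ J))

end Pool.Agent.T2H68.ZD
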