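import Pool.Agent.TH971.SR.Q4
import Pool.Agent.T2H68.ZD.W2

/-!
Places above a given place of a subfield (helper file).
-/

set_option autoImplicit false

namespace Pool.Agent.T2H68.ZD

open MvPolynomial Pool.Agent.W282.ZP Pool.Agent.W466.EP Pool.Agent.W466.ZP Pool.Agent.W282.RW
  Pool.Agent.TH971.RF Pool.Agent.TH971.SP Pool.Agent.TH971.SR

/-- A valuation ring of `K` above a valuation ring of `F`, in which given algebraically
independent elements are units. -/
theorem exists_above_unit' {F K ι : Type*} [Field F] [Field K] [Algebra F K]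
    (O : ValuationSubring F) (y : ι → K) (hy : AlgebraicIndependent F y) :
    ∃ B : ValuationSubring K, (∀ c : F, O.valuation c ≤ 1 → B.valuation (algebraMap F K c) ≤ 1) ∧
      (∀ c : F, O.valuation c < 1 → B.valuation (algebraMap F K c) < 1) ∧
      ∀ i, B.valuation (y i) = 1 := by
  set e : MvPolynomial ι O →+* K := eval₂Hom ((algebraMap F K).comp O.subtype) y with he
  have hemap : ∀ r : MvPolynomial ι O, e r = aeval y (map O.subtype r) := by
    intro r
    rw [he, coe_eval₂Hom, aeval_def, eval₂_map]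
  have heinj : Function.Injective e := by
    intro a b h
    rw [hemap, hemap] at h
    exact map_injective O.subtype Subtype.val_injective (hy h)
  let e' : MvPolynomial ι O →+* e.range := e.rangeRestrict
  have hsurj : Function.Surjective e' := e.rangeRestrict_surjective
  have hinj : Function.Injective e' := fun a b h => heinj (congrArg Subtype.val h)
  let ρ : MvPolynomial ι O →+* IsLocalRing.ResidueField O :=
    (IsLocalRing.residue O).comp (eval fun _ => 1)
  let I : Ideal e.range := (RingHom.ker ρ).map e'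
  have hI : I ≠ ⊤ := by
    intro h
    have h1 : (1 : e.range) ∈ I := h ▸ Submodule.mem_top
    rw [Ideal.mem_map_iff_of_surjective e' hsurj] at h1
    obtain ⟨x, hx, hx1⟩ := h1
    have h2 : x = 1 := hinj (by rw [hx1, map_one])
    rw [h2, RingHom.mem_ker, map_one] at hx
    exact one_ne_zero hx
  obtain ⟨B, hB, hnon⟩ := Ideal.image_subset_nonunits_valuationSubring I hI
  have h1 : ∀ r : MvPolynomial ι O, B.valuation (e r) ≤ 1 := fun r =>
    (B.valuation_le_one_iff _).2 (hB ⟨r, rfl⟩)
  have h2 : ∀ r : MvPolynomial ι O, ρ r = 0 → B.valuation (e r) < 1 := by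
    intro r hr
    exact hnon ⟨e' r, Ideal.mem_map_of_mem _ (by rwa [RingHom.mem_ker]), rfl⟩
  refine ⟨B, ?_, ?_, ?_⟩
  · intro c hc
    have h3 := h1 (C ⟨c, (O.valuation_le_one_iff c).1 hc⟩)
    rwa [he, eval₂Hom_C] at h3
  · intro c hc
    have h3 := h2 (C ⟨c, (O.valuation_le_one_iff c).1 hc.le⟩) (by
      simp only [ρ, RingHom.comp_apply, eval_C]
      rw [IsLocalRing.residue_eq_zero_iff, ValuationSubring.valuation_lt_one_iff]
      exact hc)
    rwa [he, eval₂Hom_C] at h3
  · intro i
    have h3 := h2 (X i - 1) (by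
      simp only [ρ, RingHom.comp_apply, map_sub, eval_X, map_one, sub_self])
    rw [map_sub, map_one, he, eval₂Hom_X'] at h3
    have h4 : y i = 1 + (y i - 1) := by ring
    rw [h4, Valuation.map_add_eq_of_lt_left, map_one]
    rw [map_one]; exact h3

/-- `V` lies above the restriction of `O` to the field `F`. -/
def Above (F : IntermediateField ℚ ℂ) (O V : ValuationSubring ℂ) : Prop :=
  (∀ c ∈ F, O.valuation c ≤ 1 → V.valuation c ≤ 1) ∧
    ∀ c ∈ F, O.valuation c < 1 → V.valuation c < 1

theorem Above.unit {F : IntermediateField ℚ ℂ} {O V : ValuationSubring ℂ} (h : Above F O V)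
    {c : ℂ} (hc : c ∈ F) (h1 : O.valuation c = 1) : V.valuation c = 1 := by
  have hc0 : c ≠ 0 := by
    rintro rfl
    rw [map_zero] at h1
    exact zero_ne_one h1
  refine le_antisymm (h.1 c hc h1.le) ?_
  have h2 := h.1 c⁻¹ (F.inv_mem hc) (by rw [map_inv₀, h1, inv_one])
  have h3 : V.valuation c * V.valuation c⁻¹ = 1 := by
    rw [← map_mul, mul_inv_cancel₀ hc0, map_one]
  calc (1 : V.ValueGroup) = V.valuation c * V.valuation c⁻¹ := h3.symm
    _ ≤ V.valuation c * 1 := by gcongr
    _ = _ := mul_one _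

/-- A place above a given one with prescribed values of independent numbers. -/
theorem exists_over {ι : Type} (F : IntermediateField ℚ ℂ) (O : ValuationSubring ℂ) (x : ι → ℂ)
    (hx : AlgebraicIndependent F x) (a : ι → ℚ) (ha : ∀ i, a i ≠ 0) :
    ∃ V : ValuationSubring ℂ, Above F O V ∧ ∀ i, V.valuation ((a i : ℂ) * x i) = 1 := by
  let OF : ValuationSubring F := O.comap (algebraMap F ℂ)
  have hy := algInd_smul hx (fun i => algebraMap ℚ F (a i)) (fun i => by
    rw [Ne, map_eq_zero]
    exact ha i)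
  obtain ⟨V, h1, h2, h3⟩ := exists_above_unit' OF _ hy
  have hle : ∀ c : F, OF.valuation c ≤ 1 ↔ O.valuation (c : ℂ) ≤ 1 := by
    intro c
    rw [ValuationSubring.valuation_le_one_iff, ValuationSubring.valuation_le_one_iff]
    rfl
  refine ⟨V, ⟨fun c hc h => h1 ⟨c, hc⟩ ((hle _).2 h), fun c hc h => h2 ⟨c, hc⟩ ?_⟩, fun i => ?_⟩
  · by_cases hc0 : c = 0
    · have : (⟨c, hc⟩ : F) = 0 := Subtype.ext hc0
      rw [this, map_zero]
      exact zero_lt_one
    by_contra hcon
    push Not at hcon
    have hcF : (⟨c, hc⟩ : F) ≠ 0 := fun h' => hc0 (congrArg Subtype.val h')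
    have h4 : OF.valuation (⟨c, hc⟩ : F)⁻¹ ≤ 1 := by
      rw [map_inv₀]
      exact inv_le_one_of_one_le₀ hcon
    have h5 := (hle _).1 h4
    have h6 : (((⟨c, hc⟩ : F)⁻¹ : F) : ℂ) = c⁻¹ := rfl
    rw [h6, map_inv₀] at h5
    have h7 : O.valuation c * (O.valuation c)⁻¹ = 1 :=
      mul_inv_cancel₀ ((Valuation.ne_zero_iff _).2 hc0)
    have h8 : O.valuation c * (O.valuation c)⁻¹ < 1 :=
      (mul_le_of_le_one_right' h5).trans_lt h
    rw [h7] at h8
    exact lt_irrefl _ h8
  · have h4 := h3 i
    have h5 : algebraMap F ℂ (algebraMap ℚ F (a i)) = (a i : ℂ) := by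
      simp
    rwa [h5] at h4

/-- The labels of the coordinates. -/
theorem patternU {n rZ : ℕ} {Γ : Finset ℂ} (F : IntermediateField ℚ ℂ) (hΓF : ∀ γ ∈ Γ, γ ∈ F)
    (O : ValuationSubring ℂ) {p : ℕ} (hp : p.Prime) (hO : O.valuation (p : ℂ) < 1)
    (hΓ : ∀ γ ∈ Γ, γ ≠ 0 → O.valuation γ = 1)
    (cls : Fin n → Option (Fin rZ)) (x : Fin n → ℂ)
    (hconst : ∀ i, cls i = none → IsIntegral (Algebra.adjoin ℤ (Γ : Set ℂ)) (x i))
    (hrel : ∀ i i' l, cls i = some l → cls i' = some l →
      IsIntegral (Algebra.adjoin ℤ {x i}) (x i'))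
    (T : Finset (Fin n)) (hT : AlgebraicIndependent F (fun j : T => x j)) :
    T.card ≤ rZ ∧ ∀ k : ℕ, rZ ≤ T.card + k →
    ∃ lam : Fin n → Option (Fin k), ∀ B : ValuationSubring ℂ,
      (∀ γ ∈ Γ, γ ≠ 0 → B.valuation γ = 1) → (∀ i : T, x i ∈ B) →
      (∀ i, lam i = none → x i ∈ B) ∧
      (∀ i i', lam i ≠ none → lam i' = lam i → x i ∈ B → x i' ∈ B) := by
  classical
  have hpF : ((p : ℕ) : ℂ) ∈ F := by
    have := F.algebraMap_mem (p : ℚ)
    simpa using this
  have hbig : ∀ t0 : T, ∃ V : ValuationSubring ℂ, Above F O V ∧ x t0 ∉ V ∧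
      ∀ t : T, t ≠ t0 → x t ∈ V := by
    intro t0
    obtain ⟨V, hV1, hV2⟩ := exists_over F O _ hT (fun t => if t = t0 then (p : ℚ) else 1)
      (fun t => by
        split_ifs
        · exact_mod_cast hp.ne_zero
        · exact one_ne_zero)
    refine ⟨V, hV1, ?_, fun t ht => ?_⟩
    · intro hmem
      have h1 := hV2 t0
      rw [if_pos rfl, map_mul] at h1
      have h2 := (ValuationSubring.valuation_le_one_iff V _).2 hmem
      have h3 : V.valuation (((p : ℚ) : ℂ)) < 1 := by
        push_cast
        exact hV1.2 _ hpF hO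
      have h4 : V.valuation (((p : ℚ) : ℂ)) * V.valuation (x t0) < 1 :=
        (mul_le_of_le_one_right' h2).trans_lt h3
      exact h4.ne h1
    · have h1 := hV2 t
      rw [if_neg ht, Rat.cast_one, one_mul] at h1
      exact (ValuationSubring.valuation_le_one_iff V _).1 h1.le
  have hΓV : ∀ V : ValuationSubring ℂ, Above F O V → ∀ γ ∈ Γ, γ ≠ 0 → V.valuation γ = 1 :=
    fun V hV γ hγ h0 => hV.unit (hΓF γ hγ) (hΓ γ hγ h0)
  have hSnone : ∀ i ∈ T, cls i ≠ none := by
    intro i hi hn
    obtain ⟨V, hV1, hV2, -⟩ := hbig ⟨i, hi⟩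
    apply hV2
    rw [← ValuationSubring.valuation_le_one_iff]
    exact val_le_one_of_adjoin V (hΓV V hV1) (hconst i hn)
  have hSinj : ∀ i ∈ T, ∀ i' ∈ T, cls i = cls i' → i = i' := by
    intro i hi i' hi' he
    by_contra hne
    obtain ⟨k', hk⟩ := Option.ne_none_iff_exists'.1 (hSnone i hi)
    obtain ⟨V, hV1, hV2, hV3⟩ := hbig ⟨i', hi'⟩
    apply hV2
    exact H294ZP.mem_of_integral V (hV3 ⟨i, hi⟩ (fun h => hne (congrArg Subtype.val h)))
      (hrel i i' k' hk (he ▸ hk))
  let Hs : Finset (Option (Fin rZ)) := T.image cls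
  have hHs : Hs.card = T.card := by
    apply Finset.card_image_of_injOn
    intro i hi i' hi' he
    exact hSinj i hi i' hi' he
  let Hc : Finset (Fin rZ) := Finset.univ.filter (fun c => some c ∈ Hs)
  have h2 : Hs = Hc.image some := by
    ext c
    simp only [Hs, Hc, Finset.mem_image, Finset.mem_filter, Finset.mem_univ, true_and]
    constructor
    · rintro ⟨i, hi, rfl⟩
      obtain ⟨c', hc'⟩ := Option.ne_none_iff_exists'.1 (hSnone i hi)
      exact ⟨c', ⟨i, hi, hc'⟩, hc'.symm⟩
    · rintro ⟨c', ⟨i, hi, hc'⟩, rfl⟩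
      exact ⟨i, hi, hc'⟩
  have h3 : Hs.card = Hc.card := by
    rw [h2]
    exact Finset.card_image_of_injective _ (Option.some_injective _)
  have h4 : Hc.card ≤ rZ := by
    have := Finset.card_le_univ Hc
    rwa [Fintype.card_fin] at this
  refine ⟨by omega, fun k hk => ?_⟩
  let Cc : Finset (Fin rZ) := Finset.univ.filter (fun c => some c ∉ Hs)
  have hCc : Cc.card ≤ k := by
    have h1 : Hc.card + Cc.card = rZ := by
      have := Finset.card_filter_add_card_filter_not (s := (Finset.univ : Finset (Fin rZ)))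
        (fun c => some c ∈ Hs)
      simpa using this
    omega
  let lam : Fin n → Option (Fin k) := fun i =>
    match cls i with
    | none => none
    | some c => if h : c ∈ Cc then some (Fin.castLE hCc (Cc.equivFin ⟨c, h⟩)) else none
  refine ⟨lam, fun B hBΓ hBx => ⟨?_, ?_⟩⟩
  · intro i hi
    cases hc : cls i with
    | none =>
      rw [← ValuationSubring.valuation_le_one_iff]
      exact val_le_one_of_adjoin B hBΓ (hconst i hc)
    | some c =>
      simp only [lam, hc] at hi
      split_ifs at hi with hmem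
      simp only [Cc, Finset.mem_filter, Finset.mem_univ, true_and, not_not, Hs,
        Finset.mem_image] at hmem
      obtain ⟨i0, hi0, hci0⟩ := hmem
      exact H294ZP.mem_of_integral B (hBx ⟨i0, hi0⟩) (hrel _ _ _ hci0 hc)
  · intro i i' hne hi' hxi
    obtain ⟨j, hi⟩ := Option.ne_none_iff_exists'.1 hne
    rw [hi] at hi'
    cases hc : cls i with
    | none => simp [lam, hc] at hi
    | some c =>
      cases hc' : cls i' with
      | none => simp [lam, hc'] at hi'
      | some c' =>
        simp only [lam, hc] at hi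
        simp only [lam, hc'] at hi'
        split_ifs at hi with h1
        split_ifs at hi' with h2
        have h3 : Fin.castLE hCc (Cc.equivFin ⟨c, h1⟩) = Fin.castLE hCc (Cc.equivFin ⟨c', h2⟩) :=
          Option.some_injective _ (hi.trans hi'.symm)
        have h4 := Cc.equivFin.injective (Fin.castLE_injective hCc h3)
        rw [Subtype.mk.injEq] at h4
        subst h4
        exact H294ZP.mem_of_integral B hxi (hrel _ _ _ hc hc')

end Pool.Agent.T2H68.ZD
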