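import Pool.Agent.T2H68.ZD.U1

/-!
Zilber-Pink in products of modular curves for random elements of linear systems, uniformly for all
varieties of bounded degree: the residue class (helper file).
-/

set_option autoImplicit false

namespace Pool.Agent.T2H68.ZD

open MvPolynomial Pool.Agent.W282.ZP Pool.Agent.W466.EP Pool.Agent.W466.ZP Pool.Agent.W282.RW
  Pool.Agent.TH971.RF Pool.Agent.TH971.SP Pool.Agent.TH971.SR

/-- the index set of the primes -/
abbrev Pat (n : ℕ) : Type := (kk : Fin (n + 1)) × (Fin n → Option (Fin kk))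

theorem exists_classU {n r s : ℕ} (δ : ℕ) (D : Fin n → ℕ)
    (b : (i : Fin n) → Fin (D i + 1) → ℤ)
    (M₁ : (i : Fin n) → Fin (D i + 1) → ℕ)
    (A₁ : (i : Fin n) → (a : Fin (D i + 1)) → Fin (M₁ i a) → Polynomial ℂ)
    (M₂ : (i : Fin n) → Fin (D i + 1) → ℕ)
    (A₂ : (i : Fin n) → (a : Fin (D i + 1)) → Fin (M₂ i a + 1) → Polynomial ℂ)
    (hA₂ : ∀ i a k, (A₂ i a k).natDegree ≤ (A₂ i a (Fin.last _)).natDegree)
    (hA₂0 : ∀ i a, A₂ i a (Fin.last _) ≠ 0) (Γ : Finset ℂ) :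
    ∃ B : ℕ, ∀ p : Fin (Fintype.card (Pat n)) → ℕ, (∀ m, (p m).Prime ∧ B < p m) →
      Function.Injective p →
      ∃ Q : ℕ, 0 < Q ∧ (∀ q : ℕ, q.Prime → q ∣ Q → ∃ m, q = p m) ∧
      ∀ (I : Fin s → Ideal (MvPolynomial (Fin r) ℂ)) (d : Fin s → ℕ),
      (∀ a, DegIdeal (d a) δ (I a)) →
      ∃ (F : IntermediateField ℚ ℂ) (Gt : Fin r × Fin 2 × Expo D → ℤ), Countable F ∧
      ∀ C : Fin r × Fin 2 × Expo D → ℂ,
        (∀ i, ∃ w : ℂ, IsIntegral (Algebra.adjoin ℤ (Γ : Set ℂ)) w ∧ C i = (Gt i : ℂ) + Q * w) →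
        ∀ (a₀ : Fin s) (rZ : ℕ) (cls : Fin n → Option (Fin rZ)) (x : Fin n → ℂ), rZ ≤ n →
          (∀ i, cls i = none → IsIntegral (Algebra.adjoin ℤ (Γ : Set ℂ)) (x i)) →
          (∀ i i' l, cls i = some l → cls i' = some l →
            IsIntegral (Algebra.adjoin ℤ {x i}) (x i')) →
        ∀ g : (i : Fin n) → Fin (D i + 1) → ℂ, (∀ i, g i 0 = 1) →
          (∀ i a, g i a ^ M₁ i a +
            ∑ k : Fin (M₁ i a), (A₁ i a k).eval (x i) * g i a ^ (k : ℕ) = 0) →
          (∀ i a, ∑ k : Fin (M₂ i a + 1), (A₂ i a k).eval (x i) *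
            (g i a ^ (k : ℕ) * (∑ a, (b i a : ℂ) * g i a) ^ (M₂ i a - (k : ℕ))) = 0) →
          (∀ f ∈ I a₀, homV (fun j => mevG (fun e => C (j, 0, e)) g)
            (fun j => mevG (fun e => C (j, 1, e)) g) f = 0) →
          ∀ T : Finset (Fin n), AlgebraicIndependent F (fun j : T => x j) →
            T.card + r ≤ rZ + d a₀ := by
  classical
  let cs : Finset ℂ := Γ ∪
    ((Finset.univ.biUnion fun i : Fin n => Finset.univ.biUnion fun a : Fin (D i + 1) =>
      Finset.univ.biUnion fun k : Fin (M₁ i a) => (A₁ i a k).support.image (A₁ i a k).coeff) ∪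
    (Finset.univ.biUnion fun i : Fin n => Finset.univ.biUnion fun a : Fin (D i + 1) =>
      Finset.univ.biUnion fun k : Fin (M₂ i a + 1) => (A₂ i a k).support.image (A₂ i a k).coeff))
  have h1s : ∀ i a k l, (A₁ i a k).coeff l ≠ 0 → (A₁ i a k).coeff l ∈ cs := fun i a k l h0 =>
    Finset.mem_union_right _ (Finset.mem_union_left _ (Finset.mem_biUnion.2 ⟨i, Finset.mem_univ _,
      Finset.mem_biUnion.2 ⟨a, Finset.mem_univ _, Finset.mem_biUnion.2 ⟨k, Finset.mem_univ _,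
        Finset.mem_image_of_mem _ (Polynomial.mem_support_iff.2 h0)⟩⟩⟩))
  have h2s : ∀ i a k l, (A₂ i a k).coeff l ≠ 0 → (A₂ i a k).coeff l ∈ cs := fun i a k l h0 =>
    Finset.mem_union_right _ (Finset.mem_union_right _ (Finset.mem_biUnion.2 ⟨i, Finset.mem_univ _,
      Finset.mem_biUnion.2 ⟨a, Finset.mem_univ _, Finset.mem_biUnion.2 ⟨k, Finset.mem_univ _,
        Finset.mem_image_of_mem _ (Polynomial.mem_support_iff.2 h0)⟩⟩⟩))
  let eqv : Pat n ≃ Fin (Fintype.card (Pat n)) := Fintype.equivFin (Pat n)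
  obtain ⟨B, hB⟩ := exists_places (Fin.elim0 : Fin 0 → Polynomial (Polynomial ℂ)) Γ
    (fun γ : cs => (γ : ℂ))
  refine ⟨B + (Fintype.card (Fin s × Finset (Fin r)) * Fintype.card (Fin r → Bool) * δ + 1) + r,
    fun p hp hpinj => ?_⟩
  choose O hO _ hint _ hunit using fun m => hB (p m) (hp m).1 (by have := (hp m).2; omega)
  obtain ⟨Q, hQ, hQp, hQd, hclass⟩ := exists_class_mod (κ := Fin r × Fin 2 × Expo D) p
    (fun m => (hp m).1) hpinj (fun _ _ => 1)
  refine ⟨Q, hQ, hQp, fun I d hI => ?_⟩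
  -- the equations
  have hf0 : ∀ (m : Fin (Fintype.card (Pat n))) (y : Fin s × Finset (Fin r)),
      ∃ G : MvPolynomial y.2 ℂ,
      (∀ l ∈ G.support, ∀ i, l i ≤ δ) ∧ (∀ l, (O m).valuation (G.coeff l) ≤ 1) ∧
      (∃ l, (O m).valuation (G.coeff l) = 1) ∧
      (y.2.card = d y.1 + 1 → rename (Subtype.val : y.2 → Fin r) G ∈ I y.1) := by
    rintro m ⟨a, J⟩
    by_cases hJ : J.card = d a + 1
    · obtain ⟨f, h1, h2, h3⟩ := hI a J hJ
      obtain ⟨G, g1, g2, g3, w, g4⟩ := exists_normal' (O m) f h1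
      refine ⟨G, fun l hl => h2 l (g1 l hl), g2, g3, fun _ => ?_⟩
      rw [g4, map_mul]
      exact (I a).mul_mem_left _ h3
    · refine ⟨1, ?_, ?_, ⟨0, ?_⟩, fun h => absurd h hJ⟩
      · intro l hl i
        rw [mem_support_iff, coeff_one] at hl
        have h0 : (0 : J →₀ ℕ) = l := by
          by_contra h
          exact hl (if_neg h)
        rw [← h0]
        exact Nat.zero_le _
      · intro l
        rw [coeff_one]
        split_ifs
        · rw [map_one]
        · rw [map_zero]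
          exact zero_le_one
      · rw [coeff_one, if_pos rfl, map_one]
  choose f hfdeg hfint hfone hfP using hf0
  have hcor := fun m => exists_local_corners' (O m) (hp m).1 (hO m)
    (Prod.snd : Fin s × Finset (Fin r) → _) (d := δ)
    (by have := (hp m).2; omega) (f m) (hfint m) (hfone m) (hfdeg m)
  choose α β hαβ using hcor
  have hcorn : ∀ m (y : Fin s × Finset (Fin r)),
      (O m).valuation (eval (fun j : y.2 => ((α m j : ℤ) : ℂ)) (f m y)) = 1 := by
    intro m y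
    have h1 := (hαβ m (α m) (β m) (fun i => by simp)).2 y (fun _ => true)
    simpa using h1
  obtain ⟨Gt, hGt⟩ := hclass (fun m' x => if x.2.1 = 0
      then α m' x.1 * lcoefB D b (eqv.symm m').2 ((x.1 : ℕ) + 1) x.2.2
      else lcoefB D b (eqv.symm m').2 ((x.1 : ℕ) + 1) x.2.2)
  let SS : Finset ℂ := ((Finset.univ.biUnion
      fun y : Fin (Fintype.card (Pat n)) × (Fin s × Finset (Fin r)) =>
        (f y.1 y.2).support.image (f y.1 y.2).coeff) ∪
    (Finset.univ.image fun y : Fin (Fintype.card (Pat n)) × (Fin s × Finset (Fin r)) =>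
      eval (fun j : y.2.2 => ((α y.1 j : ℤ) : ℂ)) (f y.1 y.2))) ∪ cs
  set F : IntermediateField ℚ ℂ := IntermediateField.adjoin ℚ (Set.range ((↑) : SS → ℂ)) with hF
  have hSS : ∀ c ∈ SS, c ∈ F := fun c hc => IntermediateField.subset_adjoin _ _ ⟨⟨c, hc⟩, rfl⟩
  have hcsF : ∀ c ∈ cs, c ∈ F := fun c hc => hSS c (Finset.mem_union_right _ hc)
  have hfF : ∀ m y l, (f m y).coeff l ∈ F := by
    intro m y l
    by_cases h0 : (f m y).coeff l = 0
    · rw [h0]
      exact F.zero_mem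
    · refine hSS _ (Finset.mem_union_left _ (Finset.mem_union_left _ ?_))
      exact Finset.mem_biUnion.2 ⟨(m, y), Finset.mem_univ _, Finset.mem_image_of_mem _
        (MvPolynomial.mem_support_iff.2 h0)⟩
  have hcF : ∀ m (y : Fin s × Finset (Fin r)),
      eval (fun j : y.2 => ((α m j : ℤ) : ℂ)) (f m y) ∈ F := fun m y =>
    hSS _ (Finset.mem_union_left _ (Finset.mem_union_right _ (Finset.mem_image_of_mem
      (fun y : Fin (Fintype.card (Pat n)) × (Fin s × Finset (Fin r)) =>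
        eval (fun j : y.2.2 => ((α y.1 j : ℤ) : ℂ)) (f y.1 y.2)) (Finset.mem_univ (m, y)))))
  have hΓF : ∀ γ ∈ Γ, γ ∈ F := fun γ hγ => hcsF γ (Finset.mem_union_left _ hγ)
  have hΓO : ∀ m, ∀ γ ∈ Γ, γ ≠ 0 → (O m).valuation γ = 1 := fun m γ hγ h0 =>
    hunit m ⟨γ, Finset.mem_union_left _ hγ⟩ h0
  have hpF : ∀ m, ((p m : ℕ) : ℂ) ∈ F := fun m => by
    have := F.algebraMap_mem (p m : ℚ)
    simp
  refine ⟨F, Gt, countable_adjoin SS, fun C hC => ?_⟩
  intro a₀ rZ cls x hrn hconst hrel g hg0 hg1 hg2 hz T hT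
  let m00 := eqv ⟨⟨0, Nat.succ_pos _⟩, fun _ => none⟩
  obtain ⟨hTr, hpat⟩ := patternU F hΓF (O m00) (hp m00).1 (hO m00) (hΓO m00) cls x hconst hrel T hT
  have hkk : rZ - T.card < n + 1 := by omega
  obtain ⟨lam, hlam⟩ := hpat (rZ - T.card) (by omega)
  let c : Pat n := ⟨⟨rZ - T.card, hkk⟩, lam⟩
  have hpc := (hp (eqv c)).1
  obtain ⟨V, hVO, hVT⟩ := exists_over F (O (eqv c)) _ hT (fun _ => 1) (fun _ => one_ne_zero)
  set v := V.valuation with hv
  have hVp : v ((p (eqv c) : ℕ) : ℂ) < 1 := hVO.2 _ (hpF _) (hO _)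
  have hΓV : ∀ γ ∈ Γ, γ ≠ 0 → V.valuation γ = 1 := fun γ hγ h0 =>
    hVO.unit (hΓF γ hγ) (hΓO _ γ hγ h0)
  have hTV : ∀ i : T, x i ∈ V := by
    intro i
    have h1 := hVT i
    rw [Rat.cast_one, one_mul] at h1
    exact (ValuationSubring.valuation_le_one_iff V _).1 h1.le
  obtain ⟨hl1, hl2⟩ := hlam V hΓV hTV
  have hcsV : ∀ c ∈ cs, c ≠ 0 → V.valuation c = 1 := fun c hc h0 =>
    hVO.unit (hcsF c hc) (hunit _ ⟨c, hc⟩ h0)
  have hcoef : ∀ {P : Polynomial ℂ}, (∀ l, P.coeff l ≠ 0 → P.coeff l ∈ cs) →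
      ∀ l, v (P.coeff l) ≤ 1 := by
    intro P hP l
    by_cases h0 : P.coeff l = 0
    · rw [h0, map_zero]
      exact zero_le_one
    · exact (hcsV _ (hP l h0) h0).le
  let sg : Fin n → ℂ := fun i => ∑ a, (b i a : ℂ) * g i a
  have hxi : ∀ i, x i ∈ V → ∀ a, v (g i a) ≤ 1 := fun i hi a =>
    val_int V (A₁ i a) (fun k => hcoef (h1s i a k)) (hg1 i a)
      ((ValuationSubring.valuation_le_one_iff V _).2 hi)
  have hxn : ∀ i, x i ∉ V → ∀ a, v (g i a) ≤ v (sg i) := fun i hi a =>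
    val_cusp V (A₂ i a) (hA₂ i a)
      (fun k l h0 => hcsV _ (h2s i a k l h0) h0) (hA₂0 i a)
      (by
        by_contra hcon
        exact hi ((ValuationSubring.valuation_le_one_iff V _).1 (not_lt.1 hcon)))
      (hg2 i a)
  have hsi : ∀ i, x i ∈ V → v (sg i) ≤ 1 := fun i hi =>
    v.map_sum_le fun a _ => by
      rw [map_mul]
      exact mul_le_one' (int_le V _) (hxi i hi a)
  have hsn : ∀ i, x i ∉ V → 1 ≤ v (sg i) := fun i hi => by
    have := hxn i hi 0
    rwa [hg0, map_one] at this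
  have hdom : ∀ i a, v (g i a) ≤ max 1 (v (sg i)) := by
    intro i a
    by_cases hi : x i ∈ V
    · exact (hxi i hi a).trans (le_max_left _ _)
    · exact (hxn i hi a).trans (le_max_right _ _)
  have hintV : ∀ w : ℂ, IsIntegral (Algebra.adjoin ℤ (Γ : Set ℂ)) w → v w ≤ 1 := fun w hw =>
    val_le_one_of_adjoin V hΓV hw
  -- the coefficients
  have hcoefC : ∀ x : Fin r × Fin 2 × Expo D, v (C x - ((if x.2.1 = 0
      then α (eqv c) x.1 * lcoefB D b lam ((x.1 : ℕ) + 1) x.2.2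
      else lcoefB D b lam ((x.1 : ℕ) + 1) x.2.2 : ℤ) : ℂ)) ≤ v ((p (eqv c) : ℕ) : ℂ) := by
    intro x
    obtain ⟨w, hw, hCw⟩ := hC x
    obtain ⟨y, hy⟩ := hGt (eqv c) x
    obtain ⟨q, hq⟩ := hQd (eqv c) x
    rw [pow_one, Equiv.symm_apply_apply] at hy
    rw [pow_one] at hq
    have e1 : C x - ((if x.2.1 = 0
      then α (eqv c) x.1 * lcoefB D b lam ((x.1 : ℕ) + 1) x.2.2
      else lcoefB D b lam ((x.1 : ℕ) + 1) x.2.2 : ℤ) : ℂ) =
        ((p (eqv c) : ℕ) : ℂ) * ((y : ℂ) + (q : ℂ) * w) := by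
      have h2 := congrArg (Int.cast : ℤ → ℂ) (sub_eq_iff_eq_add'.1 hy)
      rw [hCw, h2, hq]
      push_cast
      ring
    rw [e1, map_mul]
    refine mul_le_of_le_one_right' (v.map_add_le (int_le V _) ?_)
    rw [map_mul]
    refine mul_le_one' ?_ (hintV w hw)
    have := int_le V (q : ℤ)
    rwa [Int.cast_natCast] at this
  have hmain := card_labB (D := D) (d := d a₀) b V hpc hVp (by have := (hp (eqv c)).2; omega) lam
    (fun J => f (eqv c) (a₀, J)) (α (eqv c))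
    (fun J hJ l => hVO.1 _ (hfF _ _ _) (hfint (eqv c) (a₀, J) l))
    (fun J hJ => hVO.unit (hcF _ (a₀, J)) (hcorn (eqv c) (a₀, J)))
    (fun j e => C (j, 0, e)) (fun j e => C (j, 1, e)) Finset.univ
    (fun _ => 1) (fun _ _ => map_one _)
    (by
      intro j _ e
      have h1 := hcoefC (j, 0, e)
      push_cast at h1
      rw [one_mul]
      simpa using h1)
    (by
      intro j _ e
      have h1 := hcoefC (j, 1, e)
      push_cast at h1
      rw [one_mul]
      simpa using h1)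
    g hg0 sg (fun _ => rfl) hdom (fun i hi => hsi i (hl1 i hi))
    (fun l => by
      by_cases h : ∃ i, lam i = some l ∧ x i ∈ V
      · obtain ⟨i, hi, hiV⟩ := h
        exact Or.inl fun i' hi' => hsi i' (hl2 i i' (by rw [hi]; exact Option.some_ne_none _)
          (hi'.trans hi.symm) hiV)
      · push Not at h
        exact Or.inr fun i' hi' => hsn i' (h i' hi'))
    (fun J hJ => hz _ (hfP (eqv c) (a₀, J) hJ))
  rw [Finset.card_univ, Fintype.card_fin] at hmain
  omega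

end Pool.Agent.T2H68.ZD
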