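import Pool.Agent.T2H68.ZD.U2
import Pool.Agent.TH971.SR.P3
import Pool.Agent.TH971.SR.R7

/-!
The criterion for one point at one place above a given place of a subfield (helper file).
-/

set_option autoImplicit false

open MvPolynomial

namespace Pool.Agent.T2H68.ZD

open Pool.Agent.W282.ZP Pool.Agent.W466.EP Pool.Agent.W466.ZP Pool.Agent.W282.RW
  Pool.Agent.TH971.RF Pool.Agent.TH971.SP Pool.Agent.TH971.SR

variable {σ : Type} [Fintype σ] [DecidableEq σ]

/-- The exchange of coordinates of the base for values of the linear forms. -/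
theorem exch_pointU (F : IntermediateField ℚ ℂ) {Y : Set (σ → ℂ)} {m : ℕ}
    {s : Fin (m + 1) → σ → ℤ} {D₀ : ℕ} (hD₀ : 0 < D₀) (hgood : TH971.RF.Good Y s D₀)
    (hY : ∀ (c : ℂ) (y : σ → ℂ), y ∈ Y → c • y ∈ Y) (off : ℕ) {y : σ → ℂ} (hy : y ≠ 0)
    (hyY : y ∈ Y) {j0 : σ} (hj0 : y j0 = 1) {ι₂ : Type} (x : ι₂ → ℂ) (T1 : Finset σ)
    (T2 : Finset ι₂)
    (h : AlgebraicIndependent F
      (Sum.elim (fun j : T1 => y j) (fun j : T2 => x j))) :
    ∃ b0 : Fin (m + 1), ∑ j, (vdm s (off + (b0 : ℕ)) j : ℂ) * y j ≠ 0 ∧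
      ∃ (S : Finset (Fin (m + 1))) (T : Finset ι₂), T1.card + T2.card ≤ S.card + T.card ∧
        AlgebraicIndependent F (Sum.elim (fun j : T => x j)
          (fun b : S => (∑ j, (vdm s (off + (b0 : ℕ)) j : ℂ) * y j)⁻¹ *
            ∑ j, (vdm s (off + ((b : Fin (m + 1)) : ℕ)) j : ℂ) * y j)) := by
  classical
  have hgv := good_vdm hgood off
  have hDM : 0 < D₀ * (off + m).factorial := Nat.mul_pos hD₀ (Nat.factorial_pos _)
  -- a linear form which does not vanish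
  obtain ⟨b0, hb0⟩ : ∃ b0 : Fin (m + 1), ∑ j, (vdm s (off + (b0 : ℕ)) j : ℂ) * y j ≠ 0 := by
    obtain ⟨p, hpge, hp⟩ := Nat.exists_infinite_primes (D₀ * (off + m).factorial + 1)
    obtain ⟨V, hV⟩ := H294ZP.exists_val (fun i : Empty => i.elim)
      (algebraicIndependent_empty_type) hp
    obtain ⟨c, -, -, -, b, hb⟩ := hgv p hp (fun h => by
      have := Nat.le_of_dvd hDM h
      omega) V hV.1 y hy hyY
    refine ⟨b, fun h0 => ?_⟩
    rw [lf_smul, h0, mul_zero, map_zero] at hb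
    exact zero_ne_one hb
  refine ⟨b0, hb0, ?_⟩
  set c0 : ℂ := ∑ j, (vdm s (off + (b0 : ℕ)) j : ℂ) * y j with hc0
  have hz : c0⁻¹ • y ≠ 0 := smul_ne_zero (inv_ne_zero hb0) hy
  have hzY : c0⁻¹ • y ∈ Y := hY _ _ hyY
  set K := F with hK
  set f : Fin (m + 1) → ℂ := fun b => c0⁻¹ * ∑ j, (vdm s (off + (b : ℕ)) j : ℂ) * y j with hf
  have hrange : (fun b : Fin (m + 1) => ∑ i, (vdm s (off + (b : ℕ)) i : ℂ) * (c0⁻¹ • y) i) = f := by
    funext b
    rw [lf_smul]
  have hyalg : ∀ j, IsAlgebraic (IntermediateField.adjoin ℚ (Set.range f)) (y j) := by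
    intro j
    have h1 := alg_coord hDM hgv hz hzY j
    have h2 := alg_coord hDM hgv hz hzY j0
    rw [hrange, mem_cl] at h1 h2
    have h3 : y j = (c0⁻¹ • y) j * ((c0⁻¹ • y) j0)⁻¹ := by
      rw [Pi.smul_apply, Pi.smul_apply, smul_eq_mul, smul_eq_mul, hj0, mul_one, inv_inv]
      field_simp
    rw [h3]
    exact h1.mul h2.inv
  have hycl : ∀ j, y j ∈ (AlgebraicIndependent.matroid K ℂ).closure (Set.range f) := by
    intro j
    rw [mem_cl]
    exact alg_up (hyalg j)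
  obtain ⟨S, T, -, hcard, hind, hfcl⟩ := exchange (K := K) f y T1 x T2 (fun j _ => hycl j) h
  refine ⟨S, T, hcard, ?_⟩
  let φ : T ⊕ S → S ⊕ T := Sum.elim Sum.inr Sum.inl
  have hφ : Function.Injective φ := by
    rintro (a | a) (b | b) hab <;> simp [φ] at hab <;> simp [hab]
  have h2 := hind.comp φ hφ
  convert h2 using 1
  funext j
  rcases j with j | j <;> rfl

/-- One point and one prime. -/
theorem critPU {n r m d kk : ℕ} (D : Fin n → ℕ) (F : IntermediateField ℚ ℂ) (O : ValuationSubring ℂ)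
    {p : ℕ} (hp : p.Prime) (hO : O.valuation (p : ℂ) < 1)
    (f : ∀ J : Finset (Fin r), MvPolynomial J ℂ) (α : Fin r → ℤ)
    (hf : ∀ V : ValuationSubring ℂ, Above F O V → ∀ J : Finset (Fin r), J.card = d + 1 →
      ∀ l, V.valuation ((f J).coeff l) ≤ 1)
    (hcor : ∀ V : ValuationSubring ℂ, Above F O V → ∀ J : Finset (Fin r), J.card = d + 1 →
      V.valuation (eval (fun j : J => ((α j : ℤ) : ℂ)) (f J)) = 1)
    (Y : Set (σ → ℂ)) (s : Fin (m + 1) → σ → ℤ) (D₀ : ℕ) (hgood : TH971.RF.Good Y s D₀)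
    (hpD : ¬ p ∣ D₀) (hpM : 0 + r + m < p) (dd : Fin r → ℕ) (lam : Fin n → Option (Fin kk))
    (C : ∀ x : Fin r × Fin 2 × Expo D, Sym σ (dd x.1) → ℤ)
    (hC : ∀ (j : Fin r) (e : Expo D),
      (∀ u, (p : ℤ) ∣ C (j, 0, e) u - α j * lcoef D lam ((j : ℕ) + 1) e *
        pw _ (vdm s (0 + (j : ℕ))) u) ∧
      (∀ u, (p : ℤ) ∣ C (j, 1, e) u - lcoef D lam ((j : ℕ) + 1) e *
        pw _ (vdm s (0 + (j : ℕ))) u))
    (y : σ → ℂ) (hy : y ≠ 0) (hyY : y ∈ Y) (x : Fin n → ℂ)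
    (hz : ∀ J : Finset (Fin r), J.card = d + 1 →
      homV (fun j => mevX (fun e' => ev (C (j, 0, e')) y) x)
        (fun j => mevX (fun e' => ev (C (j, 1, e')) y) x)
        (rename (Subtype.val : J → Fin r) (f J)) = 0)
    (b0 : Fin (m + 1)) (hb0 : ∑ j, (vdm s (0 + r + (b0 : ℕ)) j : ℂ) * y j ≠ 0)
    (S : Finset (Fin (m + 1))) (T : Finset (Fin n))
    (hS : AlgebraicIndependent F (Sum.elim (fun j : T => x j)
      (fun b : S => (∑ j, (vdm s (0 + r + (b0 : ℕ)) j : ℂ) * y j)⁻¹ *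
        ∑ j, (vdm s (0 + r + ((b : Fin (m + 1)) : ℕ)) j : ℂ) * y j)))
    (hlam : ∀ V : ValuationSubring ℂ, Above F O V → (∀ i : T, x i ∈ V) →
      (∀ i, lam i = none → x i ∈ V) ∧
      (∀ i i', lam i ≠ none → lam i' = lam i → x i ∈ V → x i' ∈ V)) :
    S.card + r ≤ kk + d + m := by
  classical
  have hp0 : (p : ℂ) ≠ 0 := by exact_mod_cast hp.ne_zero
  have hpF : ((p : ℕ) : ℂ) ∈ F := by
    have := F.algebraMap_mem (p : ℚ)
    simp
  obtain ⟨V, hVτ, hVTS⟩ := exists_over F O _ hS (Sum.elim (fun _ => 1) (fun _ => (p : ℚ)⁻¹))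
    (by
      rintro (i | i)
      · exact one_ne_zero
      · exact inv_ne_zero (by exact_mod_cast hp.ne_zero))
  have hVT := fun i : T => hVTS (Sum.inl i)
  have hVS := fun i : S => hVTS (Sum.inr i)
  simp only [Sum.elim_inl, Sum.elim_inr] at hVT hVS
  set v := V.valuation with hv
  have hvp : v (p : ℂ) < 1 := hVτ.2 _ hpF hO
  have hVp : (p : ℂ) ∈ V.nonunits := (V.mem_nonunits_iff).2 hvp
  have hTV : ∀ i : T, x i ∈ V := by
    intro i
    have h1 := hVT i
    rw [Rat.cast_one, one_mul] at h1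
    exact (ValuationSubring.valuation_le_one_iff V _).1 h1.le
  obtain ⟨hl1, hl2⟩ := hlam V hVτ hTV
  obtain ⟨c, hc0, hcV, -, hbu⟩ := hgood p hp hpD V hVp y hy hyY
  have hle : ∀ b, v (∑ j, (vdm s b j : ℂ) * (c • y) j) ≤ 1 := fun b =>
    (ValuationSubring.valuation_le_one_iff V _).2
      (sum_mem fun j _ => mul_mem (intCast_mem V _) (hcV j))
  -- the forms of `S`
  have hS1 : ∀ b ∈ S, v (∑ j, (vdm s (0 + r + (b : ℕ)) j : ℂ) * (c • y) j) < 1 := by
    intro b hbS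
    have h1 := hVS ⟨b, hbS⟩
    have h3 : v ((∑ j, (vdm s (0 + r + (b0 : ℕ)) j : ℂ) * y j)⁻¹ *
        ∑ j, (vdm s (0 + r + (b : ℕ)) j : ℂ) * y j) = v (p : ℂ) := by
      have h2 : v (((p : ℚ)⁻¹ : ℚ) : ℂ) = (v (p : ℂ))⁻¹ := by
        push_cast
        rw [map_inv₀]
      rw [map_mul, h2] at h1
      have h4 : v (p : ℂ) ≠ 0 := (map_ne_zero _).2 hp0
      rw [inv_mul_eq_one₀ h4] at h1
      exact h1.symm
    have h4 : (∑ j, (vdm s (0 + r + (b : ℕ)) j : ℂ) * (c • y) j) =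
        ((∑ j, (vdm s (0 + r + (b0 : ℕ)) j : ℂ) * y j)⁻¹ *
          ∑ j, (vdm s (0 + r + (b : ℕ)) j : ℂ) * y j) *
        (∑ j, (vdm s (0 + r + (b0 : ℕ)) j : ℂ) * (c • y) j) := by
      rw [lf_smul, lf_smul]
      field_simp
    rw [h4, map_mul, h3]
    exact (mul_le_of_le_one_right' (hle _)).trans_lt hvp
  let Jb : Finset (Fin r) := Finset.univ.filter fun j =>
    v (∑ i, (vdm s (0 + (j : ℕ)) i : ℂ) * (c • y) i) ≠ 1
  have hcard := nonunit_card (m := m) (M := 0 + r + m) (parR (nn := 0)) parR_inj parR_le hp hpM V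
    hVp s (c • y) hcV hbu (((∅ : Finset (Fin 0)).disjSum Jb).disjSum S) (by
      rintro ((i | l) | b) hx'
      · exact i.elim0
      · rw [Finset.inl_mem_disjSum, Finset.inr_mem_disjSum] at hx'
        exact (Finset.mem_filter.1 hx').2
      · rw [Finset.inr_mem_disjSum] at hx'
        exact (hS1 b hx').ne)
  rw [Finset.card_disjSum, Finset.card_disjSum, Finset.card_empty, zero_add] at hcard
  have hJbc : Jbᶜ.card + Jb.card = r := by
    rw [Finset.card_compl, Fintype.card_fin]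
    have h1 := Finset.card_le_univ Jb
    rw [Fintype.card_fin] at h1
    omega
  let lf : Fin r → ℂ := fun j => ∑ i, (vdm s (0 + (j : ℕ)) i : ℂ) * (c • y) i
  have hlf : ∀ j ∈ Jbᶜ, v (lf j) = 1 := by
    intro j hj
    by_contra h4
    exact (Finset.mem_compl.1 hj) (Finset.mem_filter.2 ⟨Finset.mem_univ _, h4⟩)
  have hcastp : v (((p : ℤ) : ℤ) : ℂ) = v (p : ℂ) := by
    push_cast
    rfl
  have hmain := card_lab (D := D) V hp hvp (by omega) lam f α (hf V hVτ) (hcor V hVτ)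
    (fun j e' => ev (C (j, 0, e')) (c • y)) (fun j e' => ev (C (j, 1, e')) (c • y)) Jbᶜ
    (fun j => lf j ^ dd j)
    (fun j hj => by rw [map_pow]; change v (lf j) ^ _ = 1; rw [hlf j hj, one_pow])
    (by
      intro j _ e'
      have h1 := ev_congr V hcV (p : ℤ)
        (c' := fun u => (α j * lcoef D lam ((j : ℕ) + 1) e') * pw _ (vdm s (0 + (j : ℕ))) u)
        (hC j e').1
      rw [ev_zsmul, ev_pw, ← hv, hcastp] at h1
      have h2 : ((α j * lcoef D lam ((j : ℕ) + 1) e' : ℤ) : ℂ) *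
          (∑ i, (vdm s (0 + (j : ℕ)) i : ℂ) * (c • y) i) ^ dd j =
          (α j : ℂ) * (lf j ^ dd j * (lcoef D lam ((j : ℕ) + 1) e' : ℂ)) := by
        push_cast
        ring
      rw [← h2]
      exact h1)
    (by
      intro j _ e'
      have h1 := ev_congr V hcV (p : ℤ)
        (c' := fun u => (lcoef D lam ((j : ℕ) + 1) e') * pw _ (vdm s (0 + (j : ℕ))) u)
        (hC j e').2
      rw [ev_zsmul, ev_pw, ← hv, hcastp] at h1
      have h2 : ((lcoef D lam ((j : ℕ) + 1) e' : ℤ) : ℂ) *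
          (∑ i, (vdm s (0 + (j : ℕ)) i : ℂ) * (c • y) i) ^ dd j =
          (lf j ^ dd j * (lcoef D lam ((j : ℕ) + 1) e' : ℂ)) := by
        push_cast
        ring
      rw [← h2]
      exact h1)
    x (fun i hi => (ValuationSubring.valuation_le_one_iff V _).2 (hl1 i hi))
    (fun i i' l h1 h2 h3 => (ValuationSubring.valuation_le_one_iff V _).2
      (hl2 i i' (by rw [h1]; exact Option.some_ne_none _) (h2.trans h1.symm)
        ((ValuationSubring.valuation_le_one_iff V _).1 h3)))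
    (by
      intro J hJ
      have h1 : ∀ (j : Fin r) (a : Fin 2), mevX (fun e' => ev (C (j, a, e')) (c • y)) x =
          c ^ dd j * mevX (fun e' => ev (C (j, a, e')) y) x := by
        intro j a
        rw [mevX, mevX, Finset.mul_sum]
        refine Finset.sum_congr rfl fun e _ => ?_
        rw [ev_smul, mul_assoc]
      rw [funext fun j => h1 j 0, funext fun j => h1 j 1]
      rw [homV_scale, hz J hJ, mul_zero])
  omega

end Pool.Agent.T2H68.ZD
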