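import Pool.Agent.T2H68.ZD.U3

/-!
Zilber-Pink for correspondences over an arbitrary projective variety, uniformly for all varieties of
bounded degree: the residue class (helper file).
-/

set_option autoImplicit false

open MvPolynomial

namespace Pool.Agent.T2H68.ZD

open Pool.Agent.W282.ZP Pool.Agent.W466.EP Pool.Agent.W466.ZP Pool.Agent.W282.RW
  Pool.Agent.TH971.RF Pool.Agent.TH971.SP Pool.Agent.TH971.SR

theorem exists_classPU {n r s m N : ℕ} (δ : ℕ) (D : Fin n → ℕ) (dd : Fin r → ℕ)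
    {κ : Type} (G : κ → MvPolynomial (Fin (N + 1)) ℂ) (hhom : ∀ k, ∃ e, (G k).IsHomogeneous e)
    (halg : ∀ k s, IsAlgebraic ℚ ((G k).coeff s))
    (hdim1 : ∃ t : Fin (m + 1) → Fin (N + 1) → ℂ, ∀ y : Fin (N + 1) → ℂ,
      (∀ k, eval y (G k) = 0) → (∀ b, ∑ j, t b j * y j = 0) → y = 0) (Γ : Finset ℂ) :
    ∃ B : ℕ, ∀ p : Fin (Fintype.card (Pat n)) → ℕ, (∀ m, (p m).Prime ∧ B < p m) →
      Function.Injective p →
      ∃ Q : ℕ, 0 < Q ∧ (∀ q : ℕ, q.Prime → q ∣ Q → ∃ m, q = p m) ∧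
      ∀ (I : Fin s → Ideal (MvPolynomial (Fin r) ℂ)) (d : Fin s → ℕ),
      (∀ a, DegIdeal (d a) δ (I a)) →
      ∃ (F : IntermediateField ℚ ℂ) (Gt : IdxP N r D dd → ℤ), Countable F ∧
      ∀ C : IdxP N r D dd → ℤ, (∀ i, (Q : ℤ) ∣ C i - Gt i) →
        ∀ (a₀ : Fin s) (rZ : ℕ) (cls : Fin n → Option (Fin rZ)) (x : Fin n → ℂ), rZ ≤ n →
          (∀ i, cls i = none → IsIntegral (Algebra.adjoin ℤ (Γ : Set ℂ)) (x i)) →
          (∀ i i' l, cls i = some l → cls i' = some l →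
            IsIntegral (Algebra.adjoin ℤ {x i}) (x i')) →
        ∀ (y : Fin (N + 1) → ℂ) (j0 : Fin (N + 1)), y j0 = 1 → (∀ k, eval y (G k) = 0) →
          (∀ f ∈ I a₀, homV (fun j => mevX (fun e' => ev (fun u => C ⟨(j, 0, e'), u⟩) y) x)
            (fun j => mevX (fun e' => ev (fun u => C ⟨(j, 1, e'), u⟩) y) x) f = 0) →
          ∀ (T1 : Finset (Fin (N + 1))) (T2 : Finset (Fin n)),
            AlgebraicIndependent F (Sum.elim (fun j : T1 => y j) (fun j : T2 => x j)) →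
            T1.card + T2.card + r ≤ rZ + d a₀ + m := by
  classical
  obtain ⟨tt, htt⟩ := hdim1
  obtain ⟨sf, hsf⟩ := int_forms G hhom tt htt
  obtain ⟨D₁, hD₁, hgood⟩ := good_prime G halg hhom sf hsf
  let Y : Set (Fin (N + 1) → ℂ) := {y | ∀ k, eval y (G k) = 0}
  have hgood' : TH971.RF.Good Y sf D₁ := hgood
  let eqv : Pat n ≃ Fin (Fintype.card (Pat n)) := Fintype.equivFin (Pat n)
  obtain ⟨B, hB⟩ := exists_places (Fin.elim0 : Fin 0 → Polynomial (Polynomial ℂ)) Γ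
    (fun γ : Γ => (γ : ℂ))
  refine ⟨B + (Fintype.card (Fin s × Finset (Fin r)) * Fintype.card (Fin r → Bool) * δ + 1) +
    (D₁ + r + m), fun p hp hpinj => ?_⟩
  choose O hO _ hint _ hunit using fun m => hB (p m) (hp m).1 (by have := (hp m).2; omega)
  have hpD1 : ∀ m, ¬ p m ∣ D₁ := fun m h => by
    have := Nat.le_of_dvd hD₁ h
    have := (hp m).2
    omega
  obtain ⟨Q, hQ, hQp, hQd, hclass⟩ := exists_class_mod (κ := IdxP N r D dd) p
    (fun m => (hp m).1) hpinj (fun _ _ => 1)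
  refine ⟨Q, hQ, hQp, fun I d hI => ?_⟩
  -- the equations
  have hf0 : ∀ (m : Fin (Fintype.card (Pat n))) (y : Fin s × Finset (Fin r)),
      ∃ G : MvPolynomial y.2 ℂ,
      (∀ l ∈ G.support, ∀ i, l i ≤ δ) ∧ (∀ l, (O m).valuation (G.coeff l) ≤ 1) ∧
      (∃ l, (O m).valuation (G.coeff l) = 1) ∧
      (y.2.card = d y.1 + 1 → rename (Subtype.val : y.2 → Fin r) G ∈ I y.1) := by
    rintro m ⟨a, J⟩
    by_cases hJ : J.card = d a + 1
    · obtain ⟨f, h1, h2, h3⟩ := hI a J hJ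
      obtain ⟨G, g1, g2, g3, w, g4⟩ := exists_normal' (O m) f h1
      refine ⟨G, fun l hl => h2 l (g1 l hl), g2, g3, fun _ => ?_⟩
      rw [g4, map_mul]
      exact (I a).mul_mem_left _ h3
    · refine ⟨1, ?_, ?_, ⟨0, ?_⟩, fun h => absurd h hJ⟩
      · intro l hl i
        rw [mem_support_iff, coeff_one] at hl
        have h0 : (0 : J →₀ ℕ) = l := by
          by_contra h
          exact hl (if_neg h)
        rw [← h0]
        exact Nat.zero_le _
      · intro l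
        rw [coeff_one]
        split_ifs
        · rw [map_one]
        · rw [map_zero]
          exact zero_le_one
      · rw [coeff_one, if_pos rfl, map_one]
  choose f hfdeg hfint hfone hfP using hf0
  have hcor := fun m => exists_local_corners' (O m) (hp m).1 (hO m)
    (Prod.snd : Fin s × Finset (Fin r) → _) (d := δ)
    (by have := (hp m).2; omega) (f m) (hfint m) (hfone m) (hfdeg m)
  choose α β hαβ using hcor
  have hcorn : ∀ m (y : Fin s × Finset (Fin r)),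
      (O m).valuation (eval (fun j : y.2 => ((α m j : ℤ) : ℂ)) (f m y)) = 1 := by
    intro m y
    have h1 := (hαβ m (α m) (β m) (fun i => by simp)).2 y (fun _ => true)
    simpa using h1
  obtain ⟨Gt, hGt⟩ := hclass (fun m' x => if x.1.2.1 = 0
      then α m' x.1.1 * lcoef D (eqv.symm m').2 ((x.1.1 : ℕ) + 1) x.1.2.2 *
        pw _ (vdm sf (0 + (x.1.1 : ℕ))) x.2
      else lcoef D (eqv.symm m').2 ((x.1.1 : ℕ) + 1) x.1.2.2 *
        pw _ (vdm sf (0 + (x.1.1 : ℕ))) x.2)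
  let SS : Finset ℂ := ((Finset.univ.biUnion
      fun y : Fin (Fintype.card (Pat n)) × (Fin s × Finset (Fin r)) =>
        (f y.1 y.2).support.image (f y.1 y.2).coeff) ∪
    (Finset.univ.image fun y : Fin (Fintype.card (Pat n)) × (Fin s × Finset (Fin r)) =>
      eval (fun j : y.2.2 => ((α y.1 j : ℤ) : ℂ)) (f y.1 y.2))) ∪ Γ
  set F : IntermediateField ℚ ℂ := IntermediateField.adjoin ℚ (Set.range ((↑) : SS → ℂ)) with hF
  have hSS : ∀ c ∈ SS, c ∈ F := fun c hc => IntermediateField.subset_adjoin _ _ ⟨⟨c, hc⟩, rfl⟩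
  have hfF : ∀ m y l, (f m y).coeff l ∈ F := by
    intro m y l
    by_cases h0 : (f m y).coeff l = 0
    · rw [h0]
      exact F.zero_mem
    · refine hSS _ (Finset.mem_union_left _ (Finset.mem_union_left _ ?_))
      exact Finset.mem_biUnion.2 ⟨(m, y), Finset.mem_univ _, Finset.mem_image_of_mem _
        (MvPolynomial.mem_support_iff.2 h0)⟩
  have hcF : ∀ m (y : Fin s × Finset (Fin r)),
      eval (fun j : y.2 => ((α m j : ℤ) : ℂ)) (f m y) ∈ F := fun m y =>
    hSS _ (Finset.mem_union_left _ (Finset.mem_union_right _ (Finset.mem_image_of_mem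
      (fun y : Fin (Fintype.card (Pat n)) × (Fin s × Finset (Fin r)) =>
        eval (fun j : y.2.2 => ((α y.1 j : ℤ) : ℂ)) (f y.1 y.2)) (Finset.mem_univ (m, y)))))
  have hΓF : ∀ γ ∈ Γ, γ ∈ F := fun γ hγ => hSS γ (Finset.mem_union_right _ hγ)
  have hΓO : ∀ m, ∀ γ ∈ Γ, γ ≠ 0 → (O m).valuation γ = 1 := fun m γ hγ h0 =>
    hunit m ⟨γ, hγ⟩ h0
  have hpF : ∀ m, ((p m : ℕ) : ℂ) ∈ F := fun m => by
    have := F.algebraMap_mem (p m : ℚ)
    simp
  refine ⟨F, Gt, countable_adjoin SS, fun C hC => ?_⟩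
  intro a₀ rZ cls x hrn hconst hrel y j0 hj0 hyG hz T1 T2 hT
  have hcm : ∀ m' x, ((p m' : ℕ) : ℤ) ∣ C x - (if x.1.2.1 = 0
      then α m' x.1.1 * lcoef D (eqv.symm m').2 ((x.1.1 : ℕ) + 1) x.1.2.2 *
        pw _ (vdm sf (0 + (x.1.1 : ℕ))) x.2
      else lcoef D (eqv.symm m').2 ((x.1.1 : ℕ) + 1) x.1.2.2 *
        pw _ (vdm sf (0 + (x.1.1 : ℕ))) x.2) := by
    intro m' x
    have h1 := hGt m' x
    rw [pow_one] at h1
    have h2 : ((p m' : ℕ) : ℤ) ∣ (Q : ℤ) := by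
      have := hQd m' x
      rw [pow_one] at this
      exact_mod_cast this
    have h3 := dvd_add (h2.trans (hC x)) h1
    rwa [sub_add_sub_cancel] at h3
  have hy : y ≠ 0 := by
    intro h0
    rw [h0] at hj0
    exact zero_ne_one hj0
  have hYs : ∀ (c : ℂ) (y : Fin (N + 1) → ℂ), y ∈ Y → c • y ∈ Y := by
    intro c y hy k
    obtain ⟨w, hw⟩ := hhom k
    rw [Pool.Agent.W466.ZC.eval_smul hw, hy k, mul_zero]
  obtain ⟨b0, hb0, S, T, hcard, hind⟩ := exch_pointU F hD₁ hgood' hYs (0 + r) hy hyG hj0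
    x T1 T2 hT
  have hTF : AlgebraicIndependent F (fun j : T => x j) := by
    have h5 := hind.comp (fun j : T => Sum.inl j) Sum.inl_injective
    exact h5
  let m00 := eqv ⟨⟨0, Nat.succ_pos _⟩, fun _ => none⟩
  obtain ⟨hTr, hpat⟩ := patternU F hΓF (O m00) (hp m00).1 (hO m00) (hΓO m00) cls x hconst hrel
    T hTF
  have hkk : rZ - T.card < n + 1 := by omega
  obtain ⟨lam, hlam⟩ := hpat (rZ - T.card) (by omega)
  let c : Pat n := ⟨⟨rZ - T.card, hkk⟩, lam⟩
  have hmain := critPU (kk := rZ - T.card) (d := d a₀) D F (O (eqv c)) (hp (eqv c)).1 (hO _)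
    (fun J => f (eqv c) (a₀, J)) (α (eqv c))
    (fun V hV J hJ l => hV.1 _ (hfF _ _ _) (hfint (eqv c) (a₀, J) l))
    (fun V hV J hJ => hV.unit (hcF _ (a₀, J)) (hcorn (eqv c) (a₀, J)))
    Y sf D₁ hgood' (hpD1 (eqv c)) (by have := (hp (eqv c)).2; omega) dd lam (fun z u => C ⟨z, u⟩)
    (by
      intro j e
      constructor
      · intro u
        have h1 := hcm (eqv c) ⟨(j, 0, e), u⟩
        rw [Equiv.symm_apply_apply] at h1
        simpa using h1
      · intro u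
        have h1 := hcm (eqv c) ⟨(j, 1, e), u⟩
        rw [Equiv.symm_apply_apply] at h1
        simpa using h1)
    y hy hyG x (fun J hJ => hz _ (hfP (eqv c) (a₀, J) hJ)) b0 hb0 S T hind
    (fun V hV hTV => hlam V (fun γ hγ h0 => hV.unit (hΓF γ hγ) (hΓO _ γ hγ h0)) hTV)
  omega

end Pool.Agent.T2H68.ZD
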