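import Pool.Agent.T2H68.ZD.Crit

/-!
Translates which are good for all curves of bounded degree: the local data (helper file).
-/

namespace Pool.Agent.T2H68.ZD

open MvPolynomial Pool.Agent.TH526.ZL
open Pool.Agent.Results.MP_e573c6_ag.FourPlaces (AtypEmpty valueAt)

/-- The degree of the curve is at most `d`: any two different coordinates satisfy a nontrivial
equation of degree at most `d` in each of the two variables. -/
def DegLE {n : ℕ} (d : ℕ) (S : Set (Fin n → ℂ)) : Prop :=
  ∀ i j, i ≠ j → ∃ F : MvPolynomial (Fin 2) ℂ, F ≠ 0 ∧ (∀ m ∈ F.support, m 0 ≤ d ∧ m 1 ≤ d) ∧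
    ∀ x ∈ S, eval ![x i, x j] F = 0

theorem degLE_of_isCurve {n : ℕ} {S : Set (Fin n → ℂ)} (hS : IsCurve S) : ∃ d, DegLE d S := by
  classical
  obtain ⟨P, hP, htr, rfl⟩ := hS
  have hrel0 := fun i j => exists_rel P htr i j
  choose F hF0 hFP using hrel0
  refine ⟨∑ i, ∑ j, (F i j).totalDegree, fun i j _ => ⟨F i j, hF0 i j, fun m hm => ?_, ?_⟩⟩
  · have h1 : (F i j).totalDegree ≤ ∑ j, (F i j).totalDegree :=
      Finset.single_le_sum (f := fun j => (F i j).totalDegree) (fun _ _ => Nat.zero_le _)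
        (Finset.mem_univ j)
    have h2 : ∑ j, (F i j).totalDegree ≤ ∑ i, ∑ j, (F i j).totalDegree :=
      Finset.single_le_sum (f := fun i => ∑ j, (F i j).totalDegree) (fun _ _ => Nat.zero_le _)
        (Finset.mem_univ i)
    exact ⟨((monomial_le_degreeOf 0 hm).trans (degreeOf_le_totalDegree _ _)).trans (h1.trans h2),
      ((monomial_le_degreeOf 1 hm).trans (degreeOf_le_totalDegree _ _)).trans (h1.trans h2)⟩
  · intro x hx
    rw [← rename_eval]
    exact hx _ (hFP i j)

/-- normalisation of an equation at a place -/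
theorem exists_normal (V : ValuationSubring ℂ) (F : MvPolynomial (Fin 2) ℂ) (hF : F ≠ 0) :
    ∃ G : MvPolynomial (Fin 2) ℂ, (∀ m ∈ G.support, m ∈ F.support) ∧
      (∀ m, V.valuation (G.coeff m) ≤ 1) ∧ (∃ m, V.valuation (G.coeff m) = 1) ∧
      ∀ x : Fin 2 → ℂ, eval x F = 0 → eval x G = 0 := by
  classical
  obtain ⟨m₀, hm₀, hmax⟩ := Finset.exists_max_image F.support
    (fun m => V.valuation (F.coeff m)) (by rwa [support_nonempty])
  have hc : F.coeff m₀ ≠ 0 := mem_support_iff.1 hm₀
  have hvc : V.valuation (F.coeff m₀) ≠ 0 := (Valuation.ne_zero_iff _).2 hc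
  refine ⟨C (F.coeff m₀)⁻¹ * F, fun m hm => ?_, fun m => ?_, ⟨m₀, ?_⟩, fun x hx => ?_⟩
  · rw [mem_support_iff, coeff_C_mul] at hm
    rw [mem_support_iff]
    exact right_ne_zero_of_mul hm
  · rw [coeff_C_mul, map_mul, map_inv₀]
    by_cases hm : m ∈ F.support
    · rw [inv_mul_le_iff₀ (zero_lt_iff.2 hvc), mul_one]
      exact hmax m hm
    · rw [notMem_support_iff.1 hm, map_zero, mul_zero]
      exact zero_le_one
  · rw [coeff_C_mul, map_mul, map_inv₀, inv_mul_cancel₀ hvc]
  · rw [map_mul, hx, mul_zero]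

/-- A point in general position, with coordinates in the prime field. -/
theorem exists_residues {k : Type} [Field k] {n d : ℕ} (Z : Finset k)
    (hZ : 4 * n * d + 1 < Z.card)
    (F : Fin n → Fin n → MvPolynomial (Fin 2) k) (hF : ∀ i j, i ≠ j → F i j ≠ 0)
    (hd : ∀ i j, i ≠ j → ∀ m ∈ (F i j).support, m 0 ≤ d ∧ m 1 ≤ d) :
    ∃ t : Fin n → Fin 2 → k, (∀ i κ, t i κ ∈ Z) ∧ (∀ i, t i 1 ≠ t i 0) ∧
      ∀ i j, i ≠ j → ∀ κ κ', eval ![t i κ, t j κ'] (F i j) ≠ 0 := by
  classical
  let Φ : MvPolynomial (Fin n × Fin 2) k :=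
    (∏ i : Fin n, ∏ j : Fin n, ∏ κ : Fin 2, ∏ κ' : Fin 2,
      if i = j then 1 else rename ![(i, κ), (j, κ')] (F i j)) * ∏ i : Fin n, (X (i, 1) - X (i, 0))
  have hinj : ∀ i j : Fin n, i ≠ j → ∀ κ κ' : Fin 2,
      Function.Injective (![(i, κ), (j, κ')] : Fin 2 → Fin n × Fin 2) := by
    intro i j hij κ κ' a b hab
    fin_cases a <;> fin_cases b
    · rfl
    · exact absurd (congrArg Prod.fst hab) hij
    · exact absurd (congrArg Prod.fst hab).symm hij
    · rfl
  have hΦ : Φ ≠ 0 := by
    refine mul_ne_zero ?_ ?_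
    · refine Finset.prod_ne_zero_iff.2 fun i _ => Finset.prod_ne_zero_iff.2 fun j _ =>
        Finset.prod_ne_zero_iff.2 fun κ _ => Finset.prod_ne_zero_iff.2 fun κ' _ => ?_
      split_ifs with hij
      · exact one_ne_zero
      · intro h0
        apply hF i j hij
        exact rename_injective _ (hinj i j hij κ κ') (by rw [h0, map_zero])
    · refine Finset.prod_ne_zero_iff.2 fun i _ => ?_
      rw [sub_ne_zero]
      intro h0
      have := X_injective h0
      rw [Prod.mk.injEq] at this
      exact absurd this.2 (by decide)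
  -- the degrees
  have hdeg1 : ∀ (a : Fin n × Fin 2) (i j : Fin n) (κ κ' : Fin 2),
      degreeOf a (if i = j then (1 : MvPolynomial (Fin n × Fin 2) k) else
        rename ![(i, κ), (j, κ')] (F i j)) ≤
        (if a = (i, κ) then d else 0) + (if a = (j, κ') then d else 0) := by
    intro a i j κ κ'
    by_cases hij : i = j
    · rw [if_pos hij, degreeOf_one]
      exact Nat.zero_le _
    rw [if_neg hij]
    by_cases h1 : a = (i, κ)
    · rw [if_pos h1]
      refine le_trans ?_ (Nat.le_add_right _ _)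
      have h3 : a = (![(i, κ), (j, κ')] : Fin 2 → Fin n × Fin 2) 0 := h1
      rw [h3, degreeOf_rename_of_injective (hinj i j hij κ κ'), degreeOf_le_iff]
      exact fun m hm => (hd i j hij m hm).1
    by_cases h2 : a = (j, κ')
    · rw [if_pos h2]
      refine le_trans ?_ (Nat.le_add_left _ _)
      have h3 : a = (![(i, κ), (j, κ')] : Fin 2 → Fin n × Fin 2) 1 := h2
      rw [h3, degreeOf_rename_of_injective (hinj i j hij κ κ'), degreeOf_le_iff]
      exact fun m hm => (hd i j hij m hm).2
    · refine le_trans (le_of_eq ?_) (Nat.zero_le _)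
      by_contra h0
      have h3 : a ∈ (rename ![(i, κ), (j, κ')] (F i j)).vars := by
        by_contra hv
        exact h0 (Nat.le_zero.1 (degreeOf_le_iff.2 fun m hm =>
          (mem_support_notMem_vars_zero hm hv).le))
      have h4 := vars_rename _ _ h3
      rw [Finset.mem_image] at h4
      obtain ⟨b, -, hb⟩ := h4
      fin_cases b
      · exact h1 hb.symm
      · exact h2 hb.symm
  have hdeg : ∀ a : Fin n × Fin 2, degreeOf a Φ ≤ 4 * n * d + 1 := by
    intro a
    refine (degreeOf_mul_le _ _ _).trans (add_le_add ?_ ?_)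
    · refine (degreeOf_prod_le _ _ _).trans ?_
      refine (Finset.sum_le_sum fun i _ => (degreeOf_prod_le _ _ _).trans
        (Finset.sum_le_sum fun j _ => (degreeOf_prod_le _ _ _).trans
        (Finset.sum_le_sum fun κ _ => (degreeOf_prod_le _ _ _).trans
        (Finset.sum_le_sum fun κ' _ => hdeg1 a i j κ κ')))).trans ?_
      have e1 : ∑ i : Fin n, ∑ j : Fin n, ∑ κ : Fin 2, ∑ κ' : Fin 2,
          ((if a = (i, κ) then d else 0) + (if a = (j, κ') then d else 0)) =
          (∑ i : Fin n, ∑ κ : Fin 2, if a = (i, κ) then d else 0) * (2 * n) +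
          (∑ j : Fin n, ∑ κ' : Fin 2, if a = (j, κ') then d else 0) * (2 * n) := by
        simp only [Finset.sum_add_distrib, Fin.sum_univ_two, Finset.sum_const, Finset.card_univ,
          Fintype.card_fin, smul_eq_mul]
        simp only [← Finset.mul_sum]
        ring
      have e2 : ∑ i : Fin n, ∑ κ : Fin 2, (if a = (i, κ) then d else 0) = d := by
        rw [← Fintype.sum_prod_type' (f := fun i κ => if a = (i, κ) then d else 0)]
        simp
      rw [e1, e2]
      apply le_of_eq
      ring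
    · refine (degreeOf_prod_le _ _ _).trans ?_
      have e3 : ∀ i : Fin n, degreeOf a (X (i, 1) - X (i, 0) : MvPolynomial (Fin n × Fin 2) k) ≤
          (if a.1 = i then 1 else 0) := by
        intro i
        refine (degreeOf_sub_le _ _ _).trans ?_
        rw [degreeOf_X, degreeOf_X]
        split_ifs with h1 h2 h3
        all_goals try simp
        all_goals simp_all
      refine (Finset.sum_le_sum fun i _ => e3 i).trans ?_
      simp
  obtain ⟨x, hx, hx0⟩ : ∃ x : Fin n × Fin 2 → k, (∀ a, x a ∈ Z) ∧ eval x Φ ≠ 0 := by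
    by_contra hcon
    push Not at hcon
    apply hΦ
    exact eq_zero_of_eval_zero_at_prod_finset Φ (fun _ => Z)
      (fun a => lt_of_le_of_lt (hdeg a) hZ) hcon
  refine ⟨fun i κ => x (i, κ), fun i κ => hx (i, κ), fun i h0 => hx0 ?_,
    fun i j hij κ κ' h0 => hx0 ?_⟩
  · rw [map_mul, map_prod, map_prod]
    refine mul_eq_zero_of_right _ (Finset.prod_eq_zero (Finset.mem_univ i) ?_)
    rw [map_sub, eval_X, eval_X]
    exact sub_eq_zero.2 h0
  · rw [map_mul, map_prod]
    refine mul_eq_zero_of_left (Finset.prod_eq_zero (Finset.mem_univ i) ?_) _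
    rw [map_prod]
    refine Finset.prod_eq_zero (Finset.mem_univ j) ?_
    rw [map_prod]
    refine Finset.prod_eq_zero (Finset.mem_univ κ) ?_
    rw [map_prod]
    refine Finset.prod_eq_zero (Finset.mem_univ κ') ?_
    rw [if_neg hij, eval_rename, ← h0]
    congr 1
    congr 1
    funext a
    fin_cases a
    · rfl
    · rfl

end Pool.Agent.T2H68.ZD
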