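import Pool.Agent.T2H68.ZD.Uni

/-!
Corners in general position at a place with a large residue characteristic (helper file).
-/

namespace Pool.Agent.T2H68.ZD

open MvPolynomial Pool.Agent.TH526.ZL

theorem v_of_res_ne (V : ValuationSubring ℂ) (a : V) (h : IsLocalRing.residue V a ≠ 0) :
    V.valuation (a : ℂ) = 1 := by
  refine le_antisymm ((V.valuation_le_one_iff _).2 a.2) ?_
  by_contra hlt
  push Not at hlt
  apply h
  rw [IsLocalRing.residue_eq_zero_iff]
  exact (V.valuation_lt_one_iff _).2 hlt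

theorem res_ne_of_v (V : ValuationSubring ℂ) (a : V) (h : V.valuation (a : ℂ) = 1) :
    IsLocalRing.residue V a ≠ 0 := by
  rw [Ne, IsLocalRing.residue_eq_zero_iff]
  intro h1
  have h2 := (V.valuation_lt_one_iff _).1 h1
  rw [h] at h2
  exact lt_irrefl _ h2

/-- Corners in general position at a place above a large prime. -/
theorem exists_local_corners (V : ValuationSubring ℂ) {p : ℕ} (hp : p.Prime)
    (hV : V.valuation (p : ℂ) < 1) {n d : ℕ} (hpd : 4 * n * d + 1 < p)
    (F : Fin n → Fin n → MvPolynomial (Fin 2) ℂ)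
    (hint : ∀ i j, i ≠ j → ∀ m, V.valuation ((F i j).coeff m) ≤ 1)
    (hone : ∀ i j, i ≠ j → ∃ m, V.valuation ((F i j).coeff m) = 1)
    (hd : ∀ i j, i ≠ j → ∀ m ∈ (F i j).support, m 0 ≤ d ∧ m 1 ≤ d) :
    ∃ t : Fin n → Fin 2 → ℕ, ∀ t' : Fin n → Fin 2 → ℤ, (∀ i κ, (p : ℤ) ∣ t' i κ - t i κ) →
      (∀ i, V.valuation (((t' i 1 - t' i 0 : ℤ) : ℂ)) = 1) ∧ ∀ i j, i ≠ j → ∀ κ κ',
        V.valuation (eval ![(t' i κ : ℂ), (t' j κ' : ℂ)] (F i j)) = 1 := by
  classical
  let k := IsLocalRing.ResidueField V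
  let res : V →+* k := IsLocalRing.residue V
  let g : ℂ → V := fun z => if h : z ∈ V then ⟨z, h⟩ else 0
  have hg : ∀ z, V.valuation z ≤ 1 → ((g z : V) : ℂ) = z := by
    intro z hz
    have : z ∈ V := (V.valuation_le_one_iff _).1 hz
    show ((if h : z ∈ V then (⟨z, h⟩ : V) else 0 : V) : ℂ) = z
    rw [dif_pos this]
  let G : Fin n → Fin n → MvPolynomial (Fin 2) k := fun i j =>
    ∑ m ∈ (F i j).support, monomial m (res (g ((F i j).coeff m)))
  have hGc : ∀ i j m, (G i j).coeff m =
      if m ∈ (F i j).support then res (g ((F i j).coeff m)) else 0 := by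
    intro i j m
    show coeff m (∑ m ∈ (F i j).support, monomial m (res (g ((F i j).coeff m)))) = _
    rw [coeff_sum]
    simp only [coeff_monomial]
    rw [Finset.sum_ite_eq']
  have hGne : ∀ i j, i ≠ j → G i j ≠ 0 := by
    intro i j hij h0
    obtain ⟨m, hm⟩ := hone i j hij
    have hms : m ∈ (F i j).support := by
      rw [mem_support_iff]
      intro h1
      rw [h1, map_zero] at hm
      exact zero_ne_one hm
    have h1 := hGc i j m
    rw [if_pos hms, h0, coeff_zero] at h1
    refine res_ne_of_v V (g ((F i j).coeff m)) ?_ h1.symm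
    rw [hg _ (hint i j hij m)]
    exact hm
  have hGd : ∀ i j, i ≠ j → ∀ m ∈ (G i j).support, m 0 ≤ d ∧ m 1 ≤ d := by
    intro i j hij m hm
    refine hd i j hij m ?_
    by_contra hms
    rw [mem_support_iff, hGc, if_neg hms] at hm
    exact hm rfl
  have hsmall : ∀ c : ℕ, 0 < c → c < p → V.valuation (c : ℂ) = 1 := by
    intro c hc0 hcp
    rw [v_nat_pow' V hp hV hc0.ne', Nat.factorization_eq_zero_of_not_dvd, pow_zero]
    intro hd
    exact absurd (Nat.le_of_dvd hc0 hd) (not_le.2 hcp)
  have hinj : Set.InjOn (Nat.cast : ℕ → k) (Finset.range p) := by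
    have key : ∀ a b : ℕ, a < b → b < p → ((a : ℕ) : k) ≠ ((b : ℕ) : k) := by
      intro a b hab hb h
      have h1 : res ((b - a : ℕ) : V) = 0 := by
        rw [Nat.cast_sub hab.le, map_sub, map_natCast, map_natCast, h, sub_self]
      refine res_ne_of_v V _ ?_ h1
      have := hsmall (b - a) (by omega) (by omega)
      exact_mod_cast this
    intro a ha b hb h
    have ha' := Finset.mem_range.1 (Finset.mem_coe.1 ha)
    have hb' := Finset.mem_range.1 (Finset.mem_coe.1 hb)
    rcases lt_trichotomy a b with hab | hab | hab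
    · exact absurd h (key a b hab hb')
    · exact hab
    · exact absurd h.symm (key b a hab ha')
  have hcard : ((Finset.range p).image (Nat.cast : ℕ → k)).card = p := by
    rw [Finset.card_image_of_injOn hinj, Finset.card_range]
  obtain ⟨τ, hτZ, hτne, hτF⟩ := exists_residues ((Finset.range p).image (Nat.cast : ℕ → k))
    (by rw [hcard]; exact hpd) G hGne hGd
  have hτ : ∀ i κ, ∃ c : ℕ, ((c : ℕ) : k) = τ i κ := by
    intro i κ
    obtain ⟨c, -, hc⟩ := Finset.mem_image.1 (hτZ i κ)
    exact ⟨c, hc⟩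
  choose t ht using hτ
  refine ⟨t, fun t' ht' => ?_⟩
  have hres : ∀ i κ, res ((t' i κ : ℤ) : V) = τ i κ := by
    intro i κ
    obtain ⟨s, hs⟩ := ht' i κ
    have h1 : res (((t' i κ - t i κ : ℤ)) : V) = 0 := by
      show IsLocalRing.residue V _ = 0
      rw [IsLocalRing.residue_eq_zero_iff]
      refine (V.valuation_lt_one_iff _).2 ?_
      rw [hs]
      push_cast
      rw [map_mul]
      refine (mul_le_of_le_one_right' (v_int_le V s)).trans_lt ?_
      exact_mod_cast hV
    rw [← ht i κ]
    rw [Int.cast_sub, map_sub, sub_eq_zero] at h1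
    rw [h1]
    simp
  constructor
  · intro i
    have h1 := v_of_res_ne V ((t' i 1 - t' i 0 : ℤ) : V) (by
      show res _ ≠ 0
      rw [Int.cast_sub, map_sub, hres, hres]
      exact sub_ne_zero.2 (hτne i))
    exact_mod_cast h1
  · intro i j hij κ κ'
    let b : V := ∑ m ∈ (F i j).support, g ((F i j).coeff m) *
      (((t' i κ : ℤ) : V) ^ m 0 * ((t' j κ' : ℤ) : V) ^ m 1)
    have hb : (b : ℂ) = eval ![(t' i κ : ℂ), (t' j κ' : ℂ)] (F i j) := by
      rw [eval_eq']
      show V.subtype b = _
      rw [map_sum]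
      refine Finset.sum_congr rfl fun m _ => ?_
      rw [map_mul, map_mul, map_pow, map_pow, Fin.prod_univ_two]
      have h1 : V.subtype (g ((F i j).coeff m)) = (F i j).coeff m := hg _ (hint i j hij m)
      rw [h1]
      simp
    have hbres : res b = eval ![τ i κ, τ j κ'] (G i j) := by
      show res (∑ m ∈ (F i j).support, _) = eval ![τ i κ, τ j κ'] (∑ m ∈ (F i j).support, _)
      rw [map_sum, map_sum]
      refine Finset.sum_congr rfl fun m _ => ?_
      rw [map_mul, map_mul, map_pow, map_pow, hres, hres, eval_monomial, Finsupp.prod_fintype]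
      · rw [Fin.prod_univ_two]
        simp
      · intro a
        exact pow_zero _
    rw [← hb]
    refine v_of_res_ne V b ?_
    show res b ≠ 0
    rw [hbres]
    exact hτF i j hij κ κ'

end Pool.Agent.T2H68.ZD
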