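import Pool.Agent.T2H68.ZD.Uni2

/-!
Translates which are good for all curves of bounded degree (helper file).
-/

namespace Pool.Agent.T2H68.ZD

open MvPolynomial Pool.Agent.TH526.ZL
open Pool.Agent.Results.MP_e573c6_ag.FourPlaces (AtypEmpty valueAt)

theorem mem_of_vanish {n : ℕ} (P : Ideal (MvPolynomial (Fin n) ℂ)) (hP : P.IsPrime)
    (F : MvPolynomial (Fin n) ℂ) (h : ∀ x : Fin n → ℂ, (∀ G ∈ P, eval x G = 0) → eval x F = 0) :
    F ∈ P := by
  have hnull := IsPrime.vanishingIdeal_zeroLocus (K := ℂ) P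
  rw [← hnull]
  intro z hz
  exact h z fun G hG => hz G hG

theorem uni_class (n d : ℕ) (R : Fin n → Polynomial (Polynomial ℂ)) (hR : ∀ i, (R i).Monic)
    (Γ : Finset ℂ) :
    ∃ D : ℕ, ∀ p : Fin 4 → ℕ, (∀ l, (p l).Prime ∧ D < p l) → Function.Injective p →
      ∃ Q : ℕ, 0 < Q ∧ (∀ q : ℕ, q.Prime → q ∣ Q → ∃ l, q = p l) ∧
        ∀ S : Set (Fin n → ℂ), IsCurve S → DegLE d S →
        ∃ g : Fin n → Matrix (Fin 2) (Fin 2) ℤ, ∀ h : Fin n → Matrix (Fin 2) (Fin 2) ℂ,
          (∀ i a b, ∃ w : ℂ, IsIntegral (Algebra.adjoin ℤ (Γ : Set ℂ)) w ∧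
            h i a b = (g i a b : ℂ) + Q * w) →
          (∀ i, (h i).det ≠ 0) ∧ IsCurve (translate h S) ∧
          AtypEmpty (algebraMap (Algebra.adjoin ℤ (Γ : Set ℂ)) ℂ) (points R (translate h S)) := by
  classical
  obtain ⟨T, hT⟩ := exists_bound R
  obtain ⟨e, he, hsc⟩ := exists_scalings n T
  obtain ⟨D, hD⟩ := exists_places R Γ (Fin.elim0 : Fin 0 → ℂ)
  refine ⟨D + (4 * n * d + 1), fun p hp hpinj => ?_⟩
  obtain ⟨Q, A, hQ0, hA0, hQp, hfac, hQA⟩ := hsc p (fun l => (hp l).1) hpinj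
  choose V hV hVR hint _ _ using fun l => hD (p l) (hp l).1 (by have := (hp l).2; omega)
  refine ⟨Q, hQ0, hQp, fun S hS hdS => ?_⟩
  obtain ⟨P, hP, htr, rfl⟩ := hS
  -- the equations
  have hF0 : ∀ i j : Fin n, ∃ F : MvPolynomial (Fin 2) ℂ, i ≠ j → F ≠ 0 ∧
      (∀ m ∈ F.support, m 0 ≤ d ∧ m 1 ≤ d) ∧
      ∀ x ∈ {x : Fin n → ℂ | ∀ F ∈ P, eval x F = 0}, eval ![x i, x j] F = 0 := by
    intro i j
    by_cases hij : i = j
    · exact ⟨0, fun h => absurd hij h⟩
    · obtain ⟨F, h1, h2, h3⟩ := hdS i j hij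
      exact ⟨F, fun _ => ⟨h1, h2, h3⟩⟩
  choose F hF using hF0
  have hG0 : ∀ (l : Fin 4) (i j : Fin n), ∃ G : MvPolynomial (Fin 2) ℂ, i ≠ j →
      (∀ m ∈ G.support, m 0 ≤ d ∧ m 1 ≤ d) ∧ (∀ m, (V l).valuation (G.coeff m) ≤ 1) ∧
      (∃ m, (V l).valuation (G.coeff m) = 1) ∧
      ∀ x ∈ {x : Fin n → ℂ | ∀ F ∈ P, eval x F = 0}, eval ![x i, x j] G = 0 := by
    intro l i j
    by_cases hij : i = j
    · exact ⟨0, fun h => absurd hij h⟩
    · obtain ⟨h1, h2, h3⟩ := hF i j hij
      obtain ⟨G, g1, g2, g3, g4⟩ := exists_normal (V l) (F i j) h1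
      exact ⟨G, fun _ => ⟨fun m hm => h2 m (g1 m hm), g2, g3, fun x hx => g4 _ (h3 x hx)⟩⟩
  choose G hG using hG0
  -- the corners
  choose tl htl using fun l => exists_local_corners (V l) (hp l).1 (hV l)
    (n := n) (d := d) (by have := (hp l).2; omega) (G l) (fun i j hij => (hG l i j hij).2.1)
    (fun i j hij => (hG l i j hij).2.2.1) (fun i j hij => (hG l i j hij).1)
  have hcrt : ∀ (i : Fin n) (κ : Fin 2), ∃ t : ℤ, ∀ l, (p l : ℤ) ∣ t - tl l i κ := by
    intro i κ
    have hpp : Set.Pairwise ((Finset.univ : Finset (Fin 4)) : Set (Fin 4))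
        (Function.onFun Nat.Coprime p) := by
      intro l _ l' _ hll
      exact (Nat.coprime_primes (hp l).1 (hp l').1).2 fun h => hll (hpinj h)
    obtain ⟨t, ht⟩ := Nat.chineseRemainderOfFinset (fun l => tl l i κ) p Finset.univ
      (fun l _ => (hp l).1.ne_zero) hpp
    refine ⟨t, fun l => ?_⟩
    exact (Nat.modEq_iff_dvd.1 (ht l (Finset.mem_univ l)).symm)
  choose t ht using hcrt
  have hunit := fun l => htl l t fun i κ => ht i κ l
  refine ⟨fun i => !![1, -t i 0; -(A i : ℤ), (A i : ℤ) * t i 1], fun h hh => ?_⟩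
  choose w hw hhw using hh
  have hAne : ∀ i, (A i : ℂ) ≠ 0 := fun i => Nat.cast_ne_zero.2 (hA0 i).ne'
  have hVQ : ∀ l, (V l).valuation (Q : ℂ) < 1 ∨ IsEmpty (Fin n) := by
    intro l
    rcases isEmpty_or_nonempty (Fin n) with hn | ⟨⟨i⟩⟩
    · exact Or.inr hn
    · left
      obtain ⟨s, hs⟩ := hQA l i
      have e1 : (Q : ℂ) = p l * ((A i * s : ℕ) : ℂ) := by
        rw [hs]
        push_cast
        ring
      rw [e1, map_mul]
      exact (mul_le_of_le_one_right' (v_nat_le (V l) _)).trans_lt (hV l)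
  have hnear : ∀ l i, Near (V l) (fun κ => (t i κ : ℂ)) (h i 0 0) (h i 0 1) (h i 1 0 / A i)
      (h i 1 1 / A i) := by
    intro l i
    have hVQ' : (V l).valuation (Q : ℂ) < 1 := (hVQ l).resolve_right fun hn => hn.elim i
    obtain ⟨s, hs⟩ := hQA l i
    have hQs : (Q : ℂ) / A i = p l * (s : ℂ) := by
      rw [hs]
      push_cast
      rw [mul_div_assoc, mul_comm, div_mul_cancel₀]
      exact hAne i
    refine ⟨fun κ => v_int_le (V l) _, ?_, ?_, ?_, ?_⟩
    · have e1 : h i 0 0 - 1 = Q * w i 0 0 := by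
        rw [hhw]
        simp
      rw [e1, map_mul]
      exact (mul_le_of_le_one_right' (hint l _ (hw i 0 0))).trans_lt hVQ'
    · have e1 : h i 0 1 - -(t i 0 : ℂ) = Q * w i 0 1 := by
        rw [hhw]
        simp
      rw [e1, map_mul]
      exact (mul_le_of_le_one_right' (hint l _ (hw i 0 1))).trans_lt hVQ'
    · have e1 : h i 1 0 / A i - -1 = p l * ((s : ℂ) * w i 1 0) := by
        rw [← mul_assoc, ← hQs, hhw]
        have := hAne i
        simp only [Matrix.of_apply, Matrix.cons_val', Matrix.cons_val_zero, Matrix.cons_val_one,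
          Matrix.cons_val_fin_one]
        push_cast
        field_simp
        ring
      rw [e1, map_mul, map_mul]
      exact (mul_le_of_le_one_right' (mul_le_one' (v_nat_le (V l) s) (hint l _ (hw i 1 0)))).trans_lt
        (hV l)
    · have e1 : h i 1 1 / A i - (t i 1 : ℂ) = p l * ((s : ℂ) * w i 1 1) := by
        rw [← mul_assoc, ← hQs, hhw]
        have := hAne i
        simp only [Matrix.of_apply, Matrix.cons_val', Matrix.cons_val_one,
          Matrix.cons_val_fin_one]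
        push_cast
        field_simp
        ring
      rw [e1, map_mul, map_mul]
      exact (mul_le_of_le_one_right' (mul_le_one' (v_nat_le (V l) s) (hint l _ (hw i 1 1)))).trans_lt
        (hV l)
  have hcorn : ∀ l i j, i ≠ j → ∀ κ κ', (V l).valuation
      (bih (G l i j).support (G l i j).coeff d (t i κ : ℂ) 1 (t j κ' : ℂ) 1) = 1 := by
    intro l i j hij κ κ'
    rw [bih_eval]
    exact (hunit l).2 i j hij κ κ'
  -- determinants
  have hdet : ∀ i, (h i).det ≠ 0 := by
    intro i h0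
    have hN := hnear 0 i
    have e1 : (V 0).valuation ((h i 0 0) * (h i 1 1 / A i) - (h i 0 1) * (h i 1 0 / A i)) = 1 := by
      have hle : ∀ {x y : ℂ}, (V 0).valuation y ≤ 1 → (V 0).valuation (x - y) < 1 →
          (V 0).valuation x ≤ 1 := by
        intro x y h1 h2
        have : (V 0).valuation ((x - y) + y) ≤ 1 := (V 0).valuation.map_add_le h2.le h1
        rwa [sub_add_cancel] at this
      have ha1 : (V 0).valuation (h i 0 0) ≤ 1 := hle (by rw [map_one]) hN.a
      have hb1 : (V 0).valuation (h i 0 1) ≤ 1 := hle (by rw [Valuation.map_neg]; exact hN.int 0) hN.b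
      refine v_one_of_sub (V 0) ((hunit 0).1 i) ?_
      have e2 : (h i 0 0) * (h i 1 1 / A i) - (h i 0 1) * (h i 1 0 / A i) -
          ((t i 1 - t i 0 : ℤ) : ℂ) = (h i 0 0 * (h i 1 1 / A i - (t i 1 : ℂ)) +
          (t i 1 : ℂ) * (h i 0 0 - 1)) - (h i 0 1 * (h i 1 0 / A i - -1) -
          (h i 0 1 - -(t i 0 : ℂ))) := by
        push_cast
        ring
      rw [e2]
      refine (V 0).valuation.map_sub_lt ((V 0).valuation.map_add_lt ?_ ?_)
        ((V 0).valuation.map_sub_lt ?_ hN.b)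
      · rw [map_mul]
        exact (mul_le_of_le_one_left' ha1).trans_lt hN.e
      · rw [map_mul]
        exact (mul_le_of_le_one_left' (hN.int 1)).trans_lt hN.a
      · rw [map_mul]
        exact (mul_le_of_le_one_left' hb1).trans_lt hN.c
    rw [Matrix.det_fin_two] at h0
    have e3 : (h i 0 0) * (h i 1 1 / A i) - (h i 0 1) * (h i 1 0 / A i) =
        (h i 0 0 * h i 1 1 - h i 0 1 * h i 1 0) / A i := by ring
    rw [e3, h0, zero_div, map_zero] at e1
    exact zero_ne_one e1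
  -- the translates are curves
  have hden : ∀ i, (C (h i 1 0) * X i + C (h i 1 1) : MvPolynomial (Fin n) ℂ) ∉ P := by
    intro i
    refine den_notMem P hP htr i (h i) (hdet i) (fun j => (t j 0 : ℂ))
      (fun j => if i = j then 0 else G 0 i j) (fun j => ?_) fun j α hij hα h0 => ?_
    · by_cases hij : i = j
      · rw [if_pos hij, map_zero]
        exact P.zero_mem
      · rw [if_neg hij]
        refine mem_of_vanish P hP _ fun x hx => ?_
        rw [rename_eval]
        exact (hG 0 i j hij).2.2.2 x hx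
    · rw [if_neg hij, ← bih_eval _ d] at h0
      refine local_pole (V 0) _ _ d (hG 0 i j hij).1 (fun m _ => (hG 0 i j hij).2.1 m) (hnear 0 i)
        (hnear 0 j).int (hcorn 0 i j hij) ?_ h0
      have h5 : h i 1 0 / A i * α + h i 1 1 / A i = (h i 1 0 * α + h i 1 1) / A i := by ring
      rw [h5, hα, zero_div]
  refine ⟨hdet, isCurve_translate P hP htr h hdet hden, ?_⟩
  refine atyp_of_units R hR hT Γ e he p (fun l => (hp l).1) A hA0 hfac V hV
    (fun l i u w h0 => hVR l i u w h0) hint _ ?_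
  intro y hy l i j hij
  have h1 := translate_rel (G l i j) (hG l i j hij).2.2.2 d (hG l i j hij).1 hy
  have e1 : ∀ i, h i 1 1 * y i = (h i 1 1 / A i) * ((A i : ℂ) * y i) := by
    intro i
    rw [← mul_assoc, div_mul_cancel₀ _ (hAne i)]
  have e2 : ∀ i, -h i 1 0 * y i = -(h i 1 0 / A i) * ((A i : ℂ) * y i) := by
    intro i
    rw [neg_mul, neg_mul, ← mul_assoc, div_mul_cancel₀ _ (hAne i)]
  rw [e1 i, e1 j, e2 i, e2 j] at h1
  exact local_unit (V l) _ _ d (hG l i j hij).1 (fun m _ => (hG l i j hij).2.1 m) (hnear l i)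
    (hnear l j) (hcorn l i j hij) h1

end Pool.Agent.T2H68.ZD
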