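import Pool.Agent.T2H68.ZD.Uni2

/-!
Corners in general position, for equations between any number of coordinates (helper file).
-/

namespace Pool.Agent.T2H68.ZD

open MvPolynomial Pool.Agent.TH526.ZL

/-- A point in general position, with coordinates in a given large finite set. -/
theorem exists_residues' {k : Type} [Field k] {ι : Type} [Fintype ι] [DecidableEq ι]
    {κ : Type} [Fintype κ] (S : κ → Finset ι) {d : ℕ}
    (Z : Finset k) (hZ : Fintype.card κ * Fintype.card (ι → Bool) * d + 1 < Z.card)
    (F : ∀ J : κ, MvPolynomial (S J) k) (hF : ∀ J, F J ≠ 0)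
    (hd : ∀ J, ∀ m ∈ (F J).support, ∀ i, m i ≤ d) :
    ∃ α β : ι → k, (∀ i, α i ∈ Z ∧ β i ∈ Z) ∧ (∀ i, α i ≠ β i) ∧
      ∀ (J : κ) (c : ι → Bool),
        eval (fun i : S J => if c i then α i else β i) (F J) ≠ 0 := by
  classical
  let Φ : MvPolynomial (ι × Bool) k :=
    (∏ J : κ, ∏ c : ι → Bool, rename (fun i : S J => ((i : ι), c i)) (F J)) *
      ∏ i : ι, (X (i, true) - X (i, false))
  have hinj : ∀ (J : κ) (c : ι → Bool),
      Function.Injective (fun i : S J => ((i : ι), c i)) := by
    intro J c i i' h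
    exact Subtype.ext (congrArg Prod.fst h)
  have hΦ : Φ ≠ 0 := by
    refine mul_ne_zero (Finset.prod_ne_zero_iff.2 fun J _ => Finset.prod_ne_zero_iff.2
      fun c _ => ?_) (Finset.prod_ne_zero_iff.2 fun i _ => ?_)
    · intro h
      exact hF J (rename_injective _ (hinj J c) (by rw [h, map_zero]))
    · intro h
      rw [sub_eq_zero] at h
      have h2 : ((i, true) : ι × Bool) = (i, false) := X_injective h
      simp at h2
  have hdeg1 : ∀ (a : ι × Bool) (J : κ) (c : ι → Bool),
      degreeOf a (rename (fun i : S J => ((i : ι), c i)) (F J)) ≤ d := by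
    intro a J c
    by_cases ha : ∃ i : S J, a = ((i : ι), c i)
    · obtain ⟨i, rfl⟩ := ha
      have h1 := degreeOf_rename_of_injective (p := F J) (hinj J c) i
      rw [h1, degreeOf_le_iff]
      exact fun m hm => hd J m hm i
    · refine le_trans (le_of_eq ?_) (Nat.zero_le _)
      by_contra h0
      have h3 : a ∈ (rename (fun i : S J => ((i : ι), c i)) (F J)).vars := by
        by_contra hv
        exact h0 (Nat.le_zero.1 (degreeOf_le_iff.2 fun m hm =>
          (mem_support_notMem_vars_zero hm hv).le))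
      have h4 := vars_rename _ _ h3
      rw [Finset.mem_image] at h4
      obtain ⟨b, -, hb⟩ := h4
      exact ha ⟨b, hb.symm⟩
  have hdeg : ∀ a : ι × Bool, degreeOf a Φ ≤
      Fintype.card κ * Fintype.card (ι → Bool) * d + 1 := by
    intro a
    refine (degreeOf_mul_le _ _ _).trans (add_le_add ?_ ?_)
    · refine (degreeOf_prod_le _ _ _).trans ?_
      refine (Finset.sum_le_sum fun J _ => (degreeOf_prod_le _ _ _).trans
        (Finset.sum_le_sum fun c _ => hdeg1 a J c)).trans ?_
      simp only [Finset.sum_const, Finset.card_univ, smul_eq_mul]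
      rw [mul_assoc]
    · refine (degreeOf_prod_le _ _ _).trans ?_
      have e3 : ∀ i : ι, degreeOf a (X (i, true) - X (i, false) : MvPolynomial (ι × Bool) k) ≤
          (if a.1 = i then 1 else 0) := by
        intro i
        refine (degreeOf_sub_le _ _ _).trans ?_
        rw [degreeOf_X, degreeOf_X]
        split_ifs with h1 h2 h3
        all_goals try simp
        all_goals simp_all
      refine (Finset.sum_le_sum fun i _ => e3 i).trans ?_
      simp
  obtain ⟨x, hx, hx0⟩ : ∃ x : ι × Bool → k, (∀ a, x a ∈ Z) ∧ eval x Φ ≠ 0 := by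
    by_contra hcon
    push Not at hcon
    apply hΦ
    exact eq_zero_of_eval_zero_at_prod_finset Φ (fun _ => Z)
      (fun a => lt_of_le_of_lt (hdeg a) hZ) hcon
  refine ⟨fun i => x (i, true), fun i => x (i, false), fun i => ⟨hx _, hx _⟩,
    fun i h0 => hx0 ?_, fun J c h0 => hx0 ?_⟩
  · rw [map_mul, map_prod (eval x) _ (Finset.univ : Finset ι)]
    refine mul_eq_zero_of_right _ (Finset.prod_eq_zero (Finset.mem_univ i) ?_)
    rw [map_sub, eval_X, eval_X]
    exact sub_eq_zero.2 h0
  · rw [map_mul, map_prod]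
    refine mul_eq_zero_of_left (Finset.prod_eq_zero (Finset.mem_univ J) ?_) _
    rw [map_prod]
    refine Finset.prod_eq_zero (Finset.mem_univ c) ?_
    rw [eval_rename, ← h0]
    congr 1
    congr 1
    funext i
    show x ((i : ι), c i) = _
    cases c i <;> simp

/-- normalisation of an equation at a place -/
theorem exists_normal' (V : ValuationSubring ℂ) {σ : Type} (F : MvPolynomial σ ℂ) (hF : F ≠ 0) :
    ∃ G : MvPolynomial σ ℂ, (∀ m ∈ G.support, m ∈ F.support) ∧
      (∀ m, V.valuation (G.coeff m) ≤ 1) ∧ (∃ m, V.valuation (G.coeff m) = 1) ∧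
      ∃ a : ℂ, G = C a * F := by
  classical
  obtain ⟨m₀, hm₀, hmax⟩ := Finset.exists_max_image F.support
    (fun m => V.valuation (F.coeff m)) (by rwa [support_nonempty])
  have hc : F.coeff m₀ ≠ 0 := mem_support_iff.1 hm₀
  have hvc : V.valuation (F.coeff m₀) ≠ 0 := (Valuation.ne_zero_iff _).2 hc
  refine ⟨C (F.coeff m₀)⁻¹ * F, fun m hm => ?_, fun m => ?_, ⟨m₀, ?_⟩, ⟨_, rfl⟩⟩
  · rw [mem_support_iff, coeff_C_mul] at hm
    rw [mem_support_iff]
    exact right_ne_zero_of_mul hm
  · rw [coeff_C_mul, map_mul, map_inv₀]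
    by_cases hm : m ∈ F.support
    · rw [inv_mul_le_iff₀ (zero_lt_iff.2 hvc), mul_one]
      exact hmax m hm
    · rw [notMem_support_iff.1 hm, map_zero, mul_zero]
      exact zero_le_one
  · rw [coeff_C_mul, map_mul, map_inv₀, inv_mul_cancel₀ hvc]

/-- Corners in general position at a place above a large prime. -/
theorem exists_local_corners' (V : ValuationSubring ℂ) {p : ℕ} (hp : p.Prime)
    (hV : V.valuation (p : ℂ) < 1) {ι : Type} [Fintype ι] [DecidableEq ι]
    {κ : Type} [Fintype κ] (S : κ → Finset ι) {d : ℕ}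
    (hpd : Fintype.card κ * Fintype.card (ι → Bool) * d + 1 < p)
    (F : ∀ J : κ, MvPolynomial (S J) ℂ)
    (hint : ∀ J m, V.valuation ((F J).coeff m) ≤ 1)
    (hone : ∀ J, ∃ m, V.valuation ((F J).coeff m) = 1)
    (hd : ∀ J, ∀ m ∈ (F J).support, ∀ i, m i ≤ d) :
    ∃ α β : ι → ℤ, ∀ α' β' : ι → ℤ, (∀ i, (p : ℤ) ∣ α' i - α i ∧ (p : ℤ) ∣ β' i - β i) →
      (∀ i, V.valuation (((α' i - β' i : ℤ) : ℂ)) = 1) ∧ ∀ (J : κ) (c : ι → Bool),
        V.valuation (eval (fun i : S J => (((if c i then α' i else β' i : ℤ)) : ℂ)) (F J)) = 1 := by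
  classical
  let k := IsLocalRing.ResidueField V
  let res : V →+* k := IsLocalRing.residue V
  let g : ℂ → V := fun z => if h : z ∈ V then ⟨z, h⟩ else 0
  have hg : ∀ z, V.valuation z ≤ 1 → ((g z : V) : ℂ) = z := by
    intro z hz
    have : z ∈ V := (V.valuation_le_one_iff _).1 hz
    show ((if h : z ∈ V then (⟨z, h⟩ : V) else 0 : V) : ℂ) = z
    rw [dif_pos this]
  let G : ∀ J : κ, MvPolynomial (S J) k := fun J =>
    ∑ m ∈ (F J).support, monomial m (res (g ((F J).coeff m)))
  have hGc : ∀ J m, (G J).coeff m =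
      if m ∈ (F J).support then res (g ((F J).coeff m)) else 0 := by
    intro J m
    show coeff m (∑ m ∈ (F J).support, monomial m (res (g ((F J).coeff m)))) = _
    rw [coeff_sum]
    simp only [coeff_monomial]
    rw [Finset.sum_ite_eq']
  have hGne : ∀ J, G J ≠ 0 := by
    intro J h0
    obtain ⟨m, hm⟩ := hone J
    have hms : m ∈ (F J).support := by
      rw [mem_support_iff]
      intro h1
      rw [h1, map_zero] at hm
      exact zero_ne_one hm
    have h1 := hGc J m
    rw [if_pos hms, h0, coeff_zero] at h1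
    refine res_ne_of_v V (g ((F J).coeff m)) ?_ h1.symm
    rw [hg _ (hint J m)]
    exact hm
  have hGd : ∀ J, ∀ m ∈ (G J).support, ∀ i, m i ≤ d := by
    intro J m hm
    refine hd J m ?_
    by_contra hms
    rw [mem_support_iff, hGc, if_neg hms] at hm
    exact hm rfl
  have hsmall : ∀ c : ℕ, 0 < c → c < p → V.valuation (c : ℂ) = 1 := by
    intro c hc0 hcp
    rw [v_nat_pow' V hp hV hc0.ne', Nat.factorization_eq_zero_of_not_dvd, pow_zero]
    intro hd
    exact absurd (Nat.le_of_dvd hc0 hd) (not_le.2 hcp)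
  have hinj : Set.InjOn (Nat.cast : ℕ → k) (Finset.range p) := by
    have key : ∀ a b : ℕ, a < b → b < p → ((a : ℕ) : k) ≠ ((b : ℕ) : k) := by
      intro a b hab hb h
      have h1 : res ((b - a : ℕ) : V) = 0 := by
        rw [Nat.cast_sub hab.le, map_sub, map_natCast, map_natCast, h, sub_self]
      refine res_ne_of_v V _ ?_ h1
      have := hsmall (b - a) (by omega) (by omega)
      exact_mod_cast this
    intro a ha b hb h
    have ha' := Finset.mem_range.1 (Finset.mem_coe.1 ha)
    have hb' := Finset.mem_range.1 (Finset.mem_coe.1 hb)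
    rcases lt_trichotomy a b with hab | hab | hab
    · exact absurd h (key a b hab hb')
    · exact hab
    · exact absurd h.symm (key b a hab ha')
  have hcard : ((Finset.range p).image (Nat.cast : ℕ → k)).card = p := by
    rw [Finset.card_image_of_injOn hinj, Finset.card_range]
  obtain ⟨a, b, habZ, habne, habF⟩ := exists_residues' S
    ((Finset.range p).image (Nat.cast : ℕ → k)) (by rw [hcard]; exact hpd) G hGne hGd
  have ha : ∀ i, ∃ c : ℤ, ((c : ℤ) : k) = a i := by
    intro i
    obtain ⟨c, -, hc⟩ := Finset.mem_image.1 (habZ i).1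
    exact ⟨c, by rw [← hc]; simp⟩
  have hb : ∀ i, ∃ c : ℤ, ((c : ℤ) : k) = b i := by
    intro i
    obtain ⟨c, -, hc⟩ := Finset.mem_image.1 (habZ i).2
    exact ⟨c, by rw [← hc]; simp⟩
  choose α hα using ha
  choose β hβ using hb
  have hresc : ∀ x y : ℤ, (p : ℤ) ∣ x - y → res ((x : ℤ) : V) = ((y : ℤ) : k) := by
    rintro x y ⟨s, hs⟩
    have h1 : res (((x - y : ℤ)) : V) = 0 := by
      show IsLocalRing.residue V _ = 0
      rw [IsLocalRing.residue_eq_zero_iff]
      refine (V.valuation_lt_one_iff _).2 ?_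
      rw [hs]
      push_cast
      rw [map_mul]
      refine (mul_le_of_le_one_right' (v_int_le V s)).trans_lt ?_
      exact_mod_cast hV
    rw [Int.cast_sub, map_sub, sub_eq_zero] at h1
    rw [h1]
    simp
  refine ⟨α, β, fun α' β' hab => ?_⟩
  have hra : ∀ i, res ((α' i : ℤ) : V) = a i := fun i => by
    rw [← hα i]
    exact hresc _ _ (hab i).1
  have hrb : ∀ i, res ((β' i : ℤ) : V) = b i := fun i => by
    rw [← hβ i]
    exact hresc _ _ (hab i).2
  constructor
  · intro i
    have h1 := v_of_res_ne V ((α' i - β' i : ℤ) : V) (by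
      show res _ ≠ 0
      rw [Int.cast_sub, map_sub, hra, hrb]
      exact sub_ne_zero.2 (habne i))
    exact_mod_cast h1
  · intro J c
    let y : S J → V := fun i => ((if c i then α' i else β' i : ℤ) : V)
    let w : V := ∑ m ∈ (F J).support, g ((F J).coeff m) * ∏ i, y i ^ m i
    have hw : (w : ℂ) = eval (fun i : S J => (((if c i then α' i else β' i : ℤ)) : ℂ)) (F J) := by
      rw [eval_eq']
      show V.subtype w = _
      rw [map_sum]
      refine Finset.sum_congr rfl fun m _ => ?_
      rw [map_mul, map_prod]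
      have h1 : V.subtype (g ((F J).coeff m)) = (F J).coeff m := hg _ (hint J m)
      rw [h1]
      congr 1
    have hwres : res w = eval (fun i : S J => if c i then a i else b i) (G J) := by
      show res (∑ m ∈ (F J).support, _) = eval _ (∑ m ∈ (F J).support, _)
      rw [map_sum, map_sum]
      refine Finset.sum_congr rfl fun m _ => ?_
      rw [map_mul, map_prod, eval_monomial, Finsupp.prod_fintype]
      · congr 1
        refine Finset.prod_congr rfl fun i _ => ?_
        rw [map_pow]
        congr 1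
        show res (((if c i then α' i else β' i : ℤ)) : V) = _
        cases c i
        · simp only [Bool.false_eq_true, if_false]
          exact hrb i
        · simp only [if_true]
          exact hra i
      · intro i
        exact pow_zero _
    rw [← hw]
    refine v_of_res_ne V w ?_
    show res w ≠ 0
    rw [hwres]
    exact habF J c

end Pool.Agent.T2H68.ZD
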