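import Pool.Agent.W282.ZP.Mix

/-!
Pull-backs by rational functions with complex coefficients in each coordinate (helper file).
-/

namespace Pool.Agent.T2H68.ZD

open MvPolynomial Pool.Agent.W282.ZP

/-- The value of the polynomial with the coefficients `c 0, …, c m`. -/
def cev {R : Type*} [CommRing R] {m : ℕ} (c : Fin (m + 1) → R) (x : R) : R :=
  ∑ k, c k * x ^ (k : ℕ)

theorem map_cev {R S : Type*} [CommRing R] [CommRing S] (φ : R →+* S) {m : ℕ}
    (c : Fin (m + 1) → R) (x : R) : φ (cev c x) = cev (fun k => φ (c k)) (φ x) := by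
  simp [cev]

/-- The polynomial `∑ coeff_k ∏ N_i(X_i)^(k_i) M_i(X_i)^(D - k_i)`, where `N_i / M_i` is the
rational function of the coordinate `i`. -/
noncomputable def cpull {ι : Type} {D : ι → ℕ} (c : Idx D → ℂ) {J : Finset ι}
    (f : MvPolynomial J ℂ) : MvPolynomial ι ℂ :=
  ∑ k ∈ f.support, C (f.coeff k) * ∏ i : J,
    (cev (fun l => C (c ⟨i, 0, l⟩)) (X (i : ι)) ^ (k i) *
      cev (fun l => C (c ⟨i, 1, l⟩)) (X (i : ι)) ^ (f.totalDegree - k i))

theorem aeval_cpull {K : Type*} [Field K] [Algebra ℂ K] {ι : Type} {D : ι → ℕ}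
    (c : Idx D → ℂ) {J : Finset ι} (f : MvPolynomial J ℂ) (z : ι → K)
    (ht : ∀ i ∈ J, cev (fun l => algebraMap ℂ K (c ⟨i, 1, l⟩)) (z i) ≠ 0) :
    aeval z (cpull c f) =
      (∏ i : J, cev (fun l => algebraMap ℂ K (c ⟨i, 1, l⟩)) (z i)) ^ f.totalDegree *
      aeval (fun i : J => cev (fun l => algebraMap ℂ K (c ⟨i, 0, l⟩)) (z i) /
        cev (fun l => algebraMap ℂ K (c ⟨i, 1, l⟩)) (z i)) f := by
  classical
  have hpev : ∀ (i : ι) (s : Fin 2), aeval z (cev (fun l => C (c ⟨i, s, l⟩))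
      (X i : MvPolynomial ι ℂ)) = cev (fun l => algebraMap ℂ K (c ⟨i, s, l⟩)) (z i) := by
    intro i s
    simp [cev]
  rw [cpull, map_sum, aeval_def, eval₂_eq', Finset.mul_sum]
  refine Finset.sum_congr rfl fun k hk => ?_
  rw [map_mul, map_prod, aeval_C]
  simp only [map_mul, map_pow, hpev]
  rw [← Finset.prod_pow, mul_left_comm]
  congr 1
  rw [← Finset.prod_mul_distrib]
  refine Finset.prod_congr rfl fun i _ => ?_
  have hk' : k i ≤ f.totalDegree := by
    refine le_trans ?_ (le_totalDegree hk)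
    rw [Finsupp.sum_fintype _ _ (fun _ => rfl)]
    exact Finset.single_le_sum (f := fun i => k i) (fun _ _ => Nat.zero_le _) (Finset.mem_univ i)
  have hti := ht i i.2
  rw [div_pow, ← mul_div_assoc, eq_div_iff (pow_ne_zero _ hti), mul_assoc, ← pow_add,
    Nat.sub_add_cancel hk', mul_comm]

/-- The dichotomy at one coordinate: either the coordinate has a pole of exact order `e`, or its
image reduces to `α` or `β`. -/
theorem ctypical_or {K : Type*} [Field K] [CharZero K] (B : ValuationSubring K) (p e m : ℕ)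
    (hm : 0 < m) (hp : B.valuation (p : K) < 1) (hp0 : p ≠ 0) (α β : ℤ)
    (cn cd : Fin (m + 1) → K)
    (hn : ∀ k : Fin (m + 1), ∃ l : K, B.valuation l ≤ 1 ∧
      cn k = (p : K) ^ (e * k) * (((tgt α β k : ℤ) : K) + p * l))
    (hd : ∀ k : Fin (m + 1), ∃ l : K, B.valuation l ≤ 1 ∧
      cd k = (p : K) ^ (e * k) * (((tgt 1 1 k : ℤ) : K) + p * l)) (z : K) :
    B.valuation z * B.valuation (p : K) ^ e = 1 ∨ (cev cd z ≠ 0 ∧
      (B.valuation (cev cn z / cev cd z - (α : K)) < 1 ∨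
       B.valuation (cev cn z / cev cd z - (β : K)) < 1)) := by
  set v := B.valuation with hv
  have hint : ∀ a : ℤ, v (a : K) ≤ 1 := fun a =>
    (B.valuation_le_one_iff _).2 (intCast_mem B a)
  have hpK : (p : K) ≠ 0 := by exact_mod_cast hp0
  set t : K := (p : K) ^ e * z with ht
  have hvt : v t = v z * v (p : K) ^ e := by rw [ht, map_mul, map_pow, mul_comm]
  -- expansions in `t`
  have hexp : ∀ (c : Fin (m + 1) → K) (x y : ℤ),
      (∀ k : Fin (m + 1), ∃ l : K, v l ≤ 1 ∧
        c k = (p : K) ^ (e * k) * (((tgt x y k : ℤ) : K) + p * l)) →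
      ∃ l : Fin (m + 1) → K, (∀ k, v (l k) ≤ 1) ∧ cev c z = ∑ k : Fin (m + 1),
        (((tgt x y k : ℤ) : K) + p * l k) * t ^ (k : ℕ) := by
    intro c x y hc
    choose l hl1 hl using hc
    refine ⟨l, hl1, Finset.sum_congr rfl fun k _ => ?_⟩
    rw [hl k, ht, mul_pow, ← pow_mul]
    ring
  obtain ⟨ln, hln1, hln⟩ := hexp cn α β hn
  obtain ⟨ld, hld1, hld⟩ := hexp cd 1 1 hd
  have hpl : ∀ b : K, v b ≤ 1 → v ((p : K) * b) < 1 := by
    intro b hb
    rw [map_mul]
    calc v (p : K) * v b ≤ v (p : K) * 1 := by gcongr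
      _ = v (p : K) := mul_one _
      _ < 1 := hp
  have hint' : ∀ (a : ℤ) (b : K), v b ≤ 1 → v ((a : K) + p * b) ≤ 1 := fun a b hb =>
    v.map_add_le (hint a) (hpl b hb).le
  have hsmall : ∀ (a : ℤ) (b : K), v b ≤ 1 → v ((a : K) - ((a : K) + p * b)) < 1 := by
    intro a b hb
    have h1 : (a : K) - ((a : K) + p * b) = -((p : K) * b) := by ring
    rw [h1, Valuation.map_neg]
    exact hpl b hb
  have hcomb : ∀ a b c : K, v (a - b) < 1 → v (c - b) < 1 → v (a - c) < 1 := by
    intro a b c h1 h2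
    have h3 : a - c = (a - b) - (c - b) := by ring
    rw [h3]
    exact lt_of_le_of_lt (Valuation.map_sub _ _ _) (max_lt h1 h2)
  rcases lt_trichotomy (v t) 1 with h | h | h
  · -- the point reduces to `0`
    right
    have hres : ∀ (x y : ℤ) (l : Fin (m + 1) → K), (∀ k, v (l k) ≤ 1) →
        v ((∑ k : Fin (m + 1), (((tgt x y k : ℤ) : K) + p * l k) * t ^ (k : ℕ)) - (x : K)) < 1 := by
      intro x y l hl
      have h1 := val_sum_sub_lt B Finset.univ (fun k : Fin (m + 1) =>
        (((tgt x y k : ℤ) : K) + p * l k)) (fun k => (k : ℕ)) t h (fun k _ => hint' _ _ (hl k)) 0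
        (Finset.mem_univ _) rfl (fun k _ hk => by
          intro h0; exact hk (Fin.ext h0))
      have h2 : tgt x y (0 : Fin (m + 1)) = x := by simp [tgt]
      rw [h2] at h1
      exact hcomb _ _ _ h1 (hsmall x _ (hl _))
    have hN := hres α β ln hln1
    have hD := hres 1 1 ld hld1
    rw [← hln] at hN
    rw [← hld, Int.cast_one] at hD
    obtain ⟨h3, h4⟩ := val_div_sub_lt B (cev cn z) (cev cd z) (α : K) (hint α) hN hD
    exact ⟨h3, Or.inl h4⟩
  · left
    rw [← hvt, h]
  · -- the point reduces to `∞`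
    right
    have ht0 : t ≠ 0 := by
      rintro h0
      rw [h0, map_zero] at h
      exact absurd h (not_lt.2 zero_le_one)
    have hw : v t⁻¹ < 1 := by
      rw [map_inv₀]
      exact inv_lt_one_of_one_lt₀ h
    have hres : ∀ (x y : ℤ) (l : Fin (m + 1) → K), (∀ k, v (l k) ≤ 1) →
        v ((∑ k : Fin (m + 1),
        (((tgt x y k : ℤ) : K) + p * l k) * t ^ (k : ℕ)) / t ^ m - (y : K)) < 1 := by
      intro x y l hl
      have h1 := val_sum_sub_lt B Finset.univ (fun k : Fin (m + 1) =>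
        (((tgt x y k : ℤ) : K) + p * l k)) (fun k => m - (k : ℕ)) t⁻¹ hw
        (fun k _ => hint' _ _ (hl k))
        (Fin.last m) (Finset.mem_univ _) (by simp) (fun k _ hk => by
          intro h0
          apply hk
          apply Fin.ext
          have := k.2
          simp only [Fin.val_last]
          omega)
      have h2 : tgt x y (Fin.last m) = y := by
        simp [tgt, hm.ne']
      rw [h2] at h1
      have h3 : (∑ k : Fin (m + 1), (((tgt x y k : ℤ) : K) + p * l k) * t ^ (k : ℕ)) / t ^ m =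
          ∑ k : Fin (m + 1), (((tgt x y k : ℤ) : K) + p * l k) * t⁻¹ ^ (m - (k : ℕ)) := by
        rw [Finset.sum_div]
        refine Finset.sum_congr rfl fun k _ => ?_
        have hk : (k : ℕ) ≤ m := Nat.lt_succ_iff.1 k.2
        rw [mul_div_assoc]
        congr 1
        rw [inv_pow, ← one_div, div_eq_div_iff (pow_ne_zero _ ht0) (pow_ne_zero _ ht0), one_mul,
          ← pow_add, Nat.add_sub_cancel' hk]
      rw [h3]
      exact hcomb _ _ _ h1 (hsmall y _ (hl _))
    have hN := hres α β ln hln1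
    have hD := hres 1 1 ld hld1
    rw [← hln] at hN
    rw [← hld, Int.cast_one] at hD
    obtain ⟨h3, h4⟩ := val_div_sub_lt B (cev cn z / t ^ m) (cev cd z / t ^ m) (β : K) (hint β)
      hN hD
    have htm : t ^ m ≠ 0 := pow_ne_zero _ ht0
    rw [div_div_div_cancel_right₀ htm] at h4
    refine ⟨?_, Or.inr h4⟩
    intro h5
    rw [h5, zero_div] at h3
    exact h3 rfl

/-- The congruence conditions at the place `O` above the prime `p` with exponents `e`. -/
def CCong {ι : Type} {D : ι → ℕ} (O : ValuationSubring ℂ) (p : ℕ) (e : ι → ℕ) (α β : ι → ℤ)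
    (c : Idx D → ℂ) : Prop :=
  ∀ (i : ι) (k : Fin (D i + 1)),
    (∃ l : ℂ, O.valuation l ≤ 1 ∧
      c ⟨i, 0, k⟩ = (p : ℂ) ^ (e i * k) * (((tgt (α i) (β i) k : ℤ) : ℂ) + p * l)) ∧
    (∃ l : ℂ, O.valuation l ≤ 1 ∧
      c ⟨i, 1, k⟩ = (p : ℂ) ^ (e i * k) * (((tgt 1 1 k : ℤ) : ℂ) + p * l))

/-- One prime: at most `d` coordinates are atypical. -/
theorem card_atypicalC {ι : Type} {D : ι → ℕ} (hD : ∀ i, 0 < D i) {d : ℕ}
    {K : Type} [Field K] [Algebra ℂ K] (O : ValuationSubring ℂ) (B : ValuationSubring K)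
    (hOB : ∀ c : ℂ, O.valuation c ≤ 1 → B.valuation (algebraMap ℂ K c) ≤ 1)
    (hOB' : ∀ c : ℂ, O.valuation c < 1 → B.valuation (algebraMap ℂ K c) < 1)
    (p : ℕ) (hp : p.Prime) (hpO : O.valuation ((p : ℕ) : ℂ) < 1)
    (f : ∀ J : Finset ι, MvPolynomial J ℂ) (α β : ι → ℤ)
    (hf : ∀ J : Finset ι, J.card = d + 1 → ∀ k, O.valuation ((f J).coeff k) ≤ 1)
    (hcor : ∀ J : Finset ι, J.card = d + 1 → ∀ c : ι → Bool, O.valuation
      (MvPolynomial.eval (fun i : J => (((if c i then α i else β i : ℤ)) : ℂ)) (f J)) = 1)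
    (e : ι → ℕ) (c : Idx D → ℂ) (hc : CCong O p e α β c)
    (z : ι → K) (hz : ∀ J : Finset ι, J.card = d + 1 →
      MvPolynomial.aeval z (cpull c (f J)) = 0) (A : Finset ι)
    (hA : ∀ i ∈ A, B.valuation (z i) * B.valuation ((p : ℕ) : K) ^ e i ≠ 1) : A.card ≤ d := by
  classical
  have hchar : CharZero K := charZero_of_injective_algebraMap (algebraMap ℂ K).injective
  by_contra hcon
  push Not at hcon
  obtain ⟨J, hJA, hJ⟩ := Finset.exists_subset_card_eq (Nat.succ_le_of_lt hcon)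
  have hunit : ∀ c : ℂ, O.valuation c = 1 → B.valuation (algebraMap ℂ K c) = 1 := by
    intro c hc
    have hc0 : c ≠ 0 := by
      rintro rfl
      rw [map_zero] at hc
      exact zero_ne_one hc
    refine le_antisymm (hOB c hc.le) ?_
    have h1 := hOB c⁻¹ (by rw [map_inv₀, hc, inv_one])
    have h2 : B.valuation (algebraMap ℂ K c) * B.valuation (algebraMap ℂ K c⁻¹) = 1 := by
      rw [← map_mul, ← map_mul, mul_inv_cancel₀ hc0, map_one, map_one]
    calc (1 : B.ValueGroup) = B.valuation (algebraMap ℂ K c) * B.valuation (algebraMap ℂ K c⁻¹) :=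
          h2.symm
      _ ≤ B.valuation (algebraMap ℂ K c) * 1 := by gcongr
      _ = _ := mul_one _
  have hpB : B.valuation ((p : ℕ) : K) < 1 := by
    have := hOB' _ hpO
    rwa [map_natCast] at this
  set x : ι → K := fun i => cev (fun l => algebraMap ℂ K (c ⟨i, 0, l⟩)) (z i) /
    cev (fun l => algebraMap ℂ K (c ⟨i, 1, l⟩)) (z i) with hx
  have htr : ∀ (k : ℕ) (a : ℤ) (y : ℂ), (∃ l : ℂ, O.valuation l ≤ 1 ∧
      y = (p : ℂ) ^ k * ((a : ℂ) + p * l)) → ∃ l : K, B.valuation l ≤ 1 ∧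
      algebraMap ℂ K y = (p : K) ^ k * ((a : K) + p * l) := by
    rintro k a y ⟨l, hl, rfl⟩
    exact ⟨algebraMap ℂ K l, hOB l hl, by simp⟩
  have hty : ∀ i ∈ J, cev (fun l => algebraMap ℂ K (c ⟨i, 1, l⟩)) (z i) ≠ 0 ∧
      (B.valuation (x i - (α i : K)) < 1 ∨ B.valuation (x i - (β i : K)) < 1) := by
    intro i hi
    rcases ctypical_or B p (e i) (D i) (hD i) hpB hp.ne_zero (α i) (β i)
      (fun l => algebraMap ℂ K (c ⟨i, 0, l⟩)) (fun l => algebraMap ℂ K (c ⟨i, 1, l⟩))
      (fun k => htr _ _ _ (hc i k).1) (fun k => htr _ _ _ (hc i k).2) (z i) with h5 | h5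
    · exact absurd h5 (hA i (hJA hi))
    · exact h5
  let b : ι → Bool := fun i => decide (B.valuation (x i - (α i : K)) < 1)
  have hb : ∀ i ∈ J, B.valuation (x i - (((if b i then α i else β i : ℤ)) : K)) < 1 := by
    intro i hi
    by_cases h1 : B.valuation (x i - (α i : K)) < 1
    · simp [b, h1]
    · have h2 := (hty i hi).2.resolve_left h1
      simpa [b, h1] using h2
  have h1 := hz J hJ
  rw [aeval_cpull c (f J) z (fun i hi => (hty i hi).1)] at h1
  have h2 : MvPolynomial.aeval (fun i : J => x i) (f J) = 0 := by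
    refine (mul_eq_zero.1 h1).resolve_left (pow_ne_zero _ ?_)
    exact Finset.prod_ne_zero_iff.2 fun i _ => (hty i i.2).1
  have h3 := val_aeval_sub_lt B (f J) (fun k => hOB _ (hf J hJ k)) (fun i : J => x i)
    (fun i : J => (((if b i then α i else β i : ℤ)) : K)) (fun i => hb i i.2)
    (fun i => (B.valuation_le_one_iff _).2 (intCast_mem B _))
  rw [h2, zero_sub, Valuation.map_neg] at h3
  have h4 : MvPolynomial.aeval (fun i : J => (((if b i then α i else β i : ℤ)) : K)) (f J) =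
      algebraMap ℂ K (MvPolynomial.eval
        (fun i : J => (((if b i then α i else β i : ℤ)) : ℂ)) (f J)) := by
    rw [← MvPolynomial.aeval_eq_eval, ← MvPolynomial.aeval_algebraMap_apply]
    congr 2
    funext i
    exact (map_intCast (algebraMap ℂ K) _).symm
  rw [h4, hunit _ (hcor J hJ b)] at h3
  exact lt_irrefl _ h3

end Pool.Agent.T2H68.ZD
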