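import Pool.Agent.T2H68.ZD.V1
import Pool.Agent.T2H68.ZD.Crit
import Pool.Agent.T2H68.ZD.W1

/-!
The data at the primes, with a modulus which does not depend on the varieties (helper file).
-/

namespace Pool.Agent.T2H68.ZD

open MvPolynomial Pool.Agent.TH526.ZL Pool.Agent.W282.ZP

/-- Residue classes with prescribed residues modulo powers of finitely many primes; the modulus does
not depend on the residues. -/
theorem exists_class_mod {κ : Type} [Fintype κ] {M : ℕ} (p : Fin M → ℕ)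
    (hp : ∀ m, (p m).Prime) (hinj : Function.Injective p) (E : Fin M → κ → ℕ) :
    ∃ Q : ℕ, 0 < Q ∧ (∀ q : ℕ, q.Prime → q ∣ Q → ∃ m, q = p m) ∧ (∀ m i, p m ^ E m i ∣ Q) ∧
      ∀ t : Fin M → κ → ℤ, ∃ G : κ → ℤ, ∀ m i, (p m : ℤ) ^ E m i ∣ G i - t m i := by
  classical
  let md : κ → Fin M → ℤ := fun i m => (p m : ℤ) ^ E m i
  have hcop : ∀ i, Pairwise (Function.onFun IsCoprime fun o => Ideal.span {md i o}) := by
    intro i m m' hne
    rw [Function.onFun, Ideal.isCoprime_span_singleton_iff]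
    change IsCoprime ((p m : ℤ) ^ E m i) ((p m' : ℤ) ^ E m' i)
    apply IsCoprime.pow
    rw [Nat.isCoprime_iff_coprime, Nat.coprime_primes (hp m) (hp m')]
    intro h
    exact hne (hinj h)
  let Q : ℕ := ∏ m, ∏ i, p m ^ E m i
  have hQ : 0 < Q := Finset.prod_pos fun m _ => Finset.prod_pos fun i _ => pow_pos (hp m).pos _
  refine ⟨Q, hQ, ?_, ?_, fun t => ?_⟩
  · intro q hq hqQ
    obtain ⟨m, -, h1⟩ := (hq.prime.dvd_finsetProd_iff _).1 hqQ
    obtain ⟨i, -, h2⟩ := (hq.prime.dvd_finsetProd_iff _).1 h1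
    have h3 := hq.prime.dvd_of_dvd_pow h2
    exact ⟨m, (Nat.prime_dvd_prime_iff_eq hq (hp m)).1 h3⟩
  · intro m i
    exact (Finset.dvd_prod_of_mem (fun i => p m ^ E m i) (Finset.mem_univ i)).trans
      (Finset.dvd_prod_of_mem (fun m => ∏ i, p m ^ E m i) (Finset.mem_univ m))
  · have hcrt : ∀ i, ∃ x : ℤ, ∀ m, md i m ∣ x - t m i := by
      intro i
      obtain ⟨x, hx⟩ := Ideal.exists_forall_sub_mem_ideal (hcop i) (fun m => t m i)
      exact ⟨x, fun o => Ideal.mem_span_singleton.1 (hx o)⟩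
    choose G hG using hcrt
    exact ⟨G, fun m i => hG i m⟩

/-- the degree condition for an ideal -/
def DegIdeal {ι : Type} (d δ : ℕ) (P : Ideal (MvPolynomial ι ℂ)) : Prop :=
  ∀ J : Finset ι, J.card = d + 1 → ∃ f : MvPolynomial J ℂ, f ≠ 0 ∧
    (∀ m ∈ f.support, ∀ i, m i ≤ δ) ∧ rename (Subtype.val : J → ι) f ∈ P

/-- the data at the primes: residue class, valuation rings, relations -/
theorem exists_data_uni {n k δ s : ℕ} (D : Fin n ⊕ Fin k → ℕ) (Γ : Finset ℂ) (M : ℕ)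
    (e : ℕ → Fin n ⊕ Fin k → ℕ) :
    ∃ B : ℕ, ∀ p : Fin M → ℕ, (∀ m, (p m).Prime ∧ B < p m) → Function.Injective p →
      ∃ (Q : ℕ) (O : Fin M → ValuationSubring ℂ), 0 < Q ∧
        (∀ q : ℕ, q.Prime → q ∣ Q → ∃ m, q = p m) ∧
        (∀ m, (O m).valuation ((p m : ℕ) : ℂ) < 1 ∧
          (∀ γ ∈ Γ, γ ≠ 0 → (O m).valuation γ = 1) ∧
          (∀ c : ℂ, IsIntegral (Algebra.adjoin ℤ (Γ : Set ℂ)) c → (O m).valuation c ≤ 1)) ∧
        ∀ (P : Fin s → Ideal (MvPolynomial (Fin n ⊕ Fin k) ℂ)) (d : Fin s → ℕ),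
          (∀ a, DegIdeal (d a) δ (P a)) →
          ∃ (G : Idx D → ℤ)
            (f : Fin M → Fin s → ∀ J : Finset (Fin n ⊕ Fin k), MvPolynomial J ℂ)
            (α β : Fin M → Fin n ⊕ Fin k → ℤ),
            (∀ m a, (∀ J : Finset (Fin n ⊕ Fin k), J.card = d a + 1 → ∀ l,
              (O m).valuation ((f m a J).coeff l) ≤ 1) ∧
            (∀ J : Finset (Fin n ⊕ Fin k), J.card = d a + 1 → ∀ c : Fin n ⊕ Fin k → Bool,
              (O m).valuation (MvPolynomial.eval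
                (fun i : J => (((if c i then α m i else β m i : ℤ)) : ℂ)) (f m a J)) = 1)) ∧
            (∀ m a, ∀ J : Finset (Fin n ⊕ Fin k), J.card = d a + 1 →
              MvPolynomial.rename (Subtype.val : J → Fin n ⊕ Fin k) (f m a J) ∈ P a) ∧
            (∀ m i, (O m).valuation (((α m i - β m i : ℤ)) : ℂ) = 1) ∧
            ∀ c : Idx D → ℂ, (∀ i, ∃ w : ℂ, IsIntegral (Algebra.adjoin ℤ (Γ : Set ℂ)) w ∧
                c i = (G i : ℂ) + Q * w) →
              ∀ m, CCong (O m) (p m) (e m) (α m) (β m) c := by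
  classical
  obtain ⟨B, hB⟩ := exists_places (Fin.elim0 : Fin 0 → Polynomial (Polynomial ℂ)) Γ
    (fun γ : Γ => (γ : ℂ))
  refine ⟨B + (Fintype.card (Fin s × Finset (Fin n ⊕ Fin k)) *
    Fintype.card (Fin n ⊕ Fin k → Bool) * δ + 1), fun p hp hpinj => ?_⟩
  choose O hO _ hint _ hunit using fun m => hB (p m) (hp m).1 (by have := (hp m).2; omega)
  obtain ⟨Q, hQ, hQp, hQd, hclass⟩ := exists_class_mod (κ := Idx D) p (fun m => (hp m).1) hpinj
    (fun m x => e m x.1 * (x.2.2 : ℕ) + 1)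
  refine ⟨Q, O, hQ, hQp, fun m => ⟨hO m, fun γ hγ h0 => hunit m ⟨γ, hγ⟩ h0, hint m⟩,
    fun P d hP => ?_⟩
  have hf0 : ∀ (m : Fin M) (x : Fin s × Finset (Fin n ⊕ Fin k)), ∃ G : MvPolynomial x.2 ℂ,
      (∀ l ∈ G.support, ∀ i, l i ≤ δ) ∧ (∀ l, (O m).valuation (G.coeff l) ≤ 1) ∧
      (∃ l, (O m).valuation (G.coeff l) = 1) ∧
      (x.2.card = d x.1 + 1 → rename (Subtype.val : x.2 → Fin n ⊕ Fin k) G ∈ P x.1) := by
    rintro m ⟨a, J⟩
    by_cases hJ : J.card = d a + 1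
    · obtain ⟨f, h1, h2, h3⟩ := hP a J hJ
      obtain ⟨G, g1, g2, g3, w, g4⟩ := exists_normal' (O m) f h1
      refine ⟨G, fun l hl => h2 l (g1 l hl), g2, g3, fun _ => ?_⟩
      rw [g4, map_mul]
      exact (P a).mul_mem_left _ h3
    · refine ⟨1, ?_, ?_, ⟨0, ?_⟩, fun h => absurd h hJ⟩
      · intro l hl i
        rw [mem_support_iff, coeff_one] at hl
        have h0 : (0 : J →₀ ℕ) = l := by
          by_contra h
          exact hl (if_neg h)
        rw [← h0]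
        exact Nat.zero_le _
      · intro l
        rw [coeff_one]
        split_ifs
        · rw [map_one]
        · rw [map_zero]
          exact zero_le_one
      · rw [coeff_one, if_pos rfl, map_one]
  choose f hfdeg hfint hfone hfP using hf0
  have hcor := fun m => exists_local_corners' (O m) (hp m).1 (hO m)
    (Prod.snd : Fin s × Finset (Fin n ⊕ Fin k) → _) (d := δ)
    (by have := (hp m).2; omega) (f m) (hfint m) (hfone m) (hfdeg m)
  choose α β hαβ using hcor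
  obtain ⟨G, hG⟩ := hclass (fun m x => (p m : ℤ) ^ (e m x.1 * (x.2.2 : ℕ)) *
      (if x.2.1 = 0 then tgt (α m x.1) (β m x.1) x.2.2 else tgt 1 1 x.2.2))
  have hself := fun m => hαβ m (α m) (β m) (fun i => by simp)
  have hvint : ∀ m (b : ℤ), (O m).valuation (b : ℂ) ≤ 1 := fun m b =>
    ((O m).valuation_le_one_iff _).2 (intCast_mem (O m) b)
  have hkey : ∀ c : Idx D → ℂ, (∀ i, ∃ w : ℂ, IsIntegral (Algebra.adjoin ℤ (Γ : Set ℂ)) w ∧
      c i = (G i : ℂ) + Q * w) → ∀ m x, ∃ l : ℂ, (O m).valuation l ≤ 1 ∧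
      c x = (p m : ℂ) ^ (e m x.1 * (x.2.2 : ℕ)) *
        (((if x.2.1 = 0 then tgt (α m x.1) (β m x.1) x.2.2 else tgt 1 1 x.2.2 : ℤ) : ℂ) +
          p m * l) := by
    intro c hc m x
    obtain ⟨w, hw, hcw⟩ := hc x
    obtain ⟨b, hb⟩ := hG m x
    obtain ⟨q, hq⟩ := hQd m x
    refine ⟨b + q * w, (O m).valuation.map_add_le (hvint m b) ?_, ?_⟩
    · rw [map_mul]
      have h1 : (O m).valuation ((q : ℕ) : ℂ) ≤ 1 := by
        have := hvint m (q : ℤ)
        rwa [Int.cast_natCast] at this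
      exact mul_le_one' h1 (hint m w hw)
    · have hb' : (G x : ℂ) = (p m : ℂ) ^ (e m x.1 * (x.2.2 : ℕ)) *
          ((if x.2.1 = 0 then tgt (α m x.1) (β m x.1) x.2.2 else tgt 1 1 x.2.2 : ℤ) : ℂ) +
          (p m : ℂ) ^ (e m x.1 * (x.2.2 : ℕ) + 1) * b := by
        have h2 := congrArg (Int.cast : ℤ → ℂ) (sub_eq_iff_eq_add'.1 hb)
        rw [h2]
        push_cast
        ring
      have hq' : (Q : ℂ) = (p m : ℂ) ^ (e m x.1 * (x.2.2 : ℕ) + 1) * q := by
        exact_mod_cast congrArg (Nat.cast : ℕ → ℂ) hq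
      rw [hcw, hb', hq', pow_succ]
      ring
  refine ⟨G, fun m a J => f m (a, J), α, β, fun m a => ⟨fun J _ => hfint m (a, J),
    fun J _ c => (hself m).2 (a, J) c⟩, fun m a J => hfP m (a, J), fun m => (hself m).1,
    fun c hc m i l => ⟨?_, ?_⟩⟩
  · have h3 := hkey c hc m ⟨i, 0, l⟩
    simpa using h3
  · have h3 := hkey c hc m ⟨i, 1, l⟩
    simpa using h3

end Pool.Agent.T2H68.ZD
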