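import Pool.Agent.T2H68.ZD.V2

/-!
Uniform version of the main theorem for generic points (helper file).
-/

namespace Pool.Agent.T2H68.ZD

open MvPolynomial Pool.Agent.W282.ZP H294ZP

/-- **Main theorem for generic points** of intersections with special subvarieties of
`Y(1)^n × G_m^k`, for `s` varieties, with a modulus which does not depend on the varieties. -/
theorem exists_class_uni {n k : ℕ} (δ s : ℕ) (D : Fin n ⊕ Fin k → ℕ) (hD : ∀ i, 0 < D i)
    (Γ : Finset ℂ) :
    ∃ B : ℕ, ∀ p : Fin ((n * n + 2 ^ k) * (k + 1) + 1) → ℕ, (∀ m, (p m).Prime ∧ B < p m) →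
      Function.Injective p →
      ∃ Q : ℕ, 0 < Q ∧ (∀ q : ℕ, q.Prime → q ∣ Q → ∃ m, q = p m) ∧
      ∀ (P : Fin s → Ideal (MvPolynomial (Fin n ⊕ Fin k) ℂ)) (d : Fin s → ℕ),
      (∀ a, DegIdeal (d a) δ (P a)) →
      ∃ G : Idx D → ℤ, ∀ c : Idx D → ℂ,
        (∀ i, ∃ w : ℂ, IsIntegral (Algebra.adjoin ℤ (Γ : Set ℂ)) w ∧ c i = (G i : ℂ) + Q * w) →
        (∀ i, c ⟨i, 0, 0⟩ * c ⟨i, 1, Fin.last (D i)⟩ ≠ c ⟨i, 0, Fin.last (D i)⟩ * c ⟨i, 1, 0⟩) ∧
        ∀ (a₀ : Fin s) (K : Type) [Field K] [Algebra ℂ K] (z : Fin n ⊕ Fin k → K),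
          (∀ (J : Finset (Fin n ⊕ Fin k)) (f : MvPolynomial J ℂ),
            MvPolynomial.rename (Subtype.val : J → Fin n ⊕ Fin k) f ∈ P a₀ →
              MvPolynomial.aeval z (cpull c f) = 0) →
          ∀ (r : ℕ) (cls : Fin n → Option (Fin r)) (N : Fin n → Fin n → ℕ), (∀ i i', 0 < N i i') →
          (∀ i, cls i = none → ∃ c : ℂ, IsIntegral (Algebra.adjoin ℤ (Γ : Set ℂ)) c ∧
            z (Sum.inl i) = algebraMap ℂ K c) →
          (∀ i i' l, cls i = some l → cls i' = some l → Polynomial.eval₂
            (Polynomial.aeval (z (Sum.inl i)) : Polynomial ℂ →ₐ[ℂ] K).toRingHom (z (Sum.inl i'))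
              (Psi (N i i')) = 0) →
          (∀ i, z (Sum.inr i) ≠ 0) →
          ∀ (Λ : Submodule ℤ (Fin k → ℤ)) (η : Fin k → ℂ), (∀ i, DivHull Γ (η i)) →
          (∀ a ∈ Λ, chi (fun i => z (Sum.inr i)) a = algebraMap ℂ K (chi η a)) →
          ∀ T : Finset (Fin n ⊕ Fin k), AlgebraicIndependent ℂ (fun j : T => z j) →
            T.card + n + Module.finrank ℤ Λ ≤ r + d a₀ := by
  classical
  obtain ⟨e, he0, heprime, heinj, hevan⟩ := exists_exponents' n k
  set L := k + 1 with hL
  set M := (n * n + 2 ^ k) * L + 1 with hM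
  obtain ⟨B₀, hB₀⟩ := exists_data_uni (δ := δ) (s := s) D Γ M e
  refine ⟨B₀, fun p hp hpinj => ?_⟩
  obtain ⟨Q, O, hQ, hQp, hpO, hdata⟩ := hB₀ p hp hpinj
  refine ⟨Q, hQ, hQp, fun P d hPd => ?_⟩
  obtain ⟨G, f, α, β, hfm, hfP, hpαβ, hclass⟩ := hdata P d hPd
  refine ⟨G, fun c hc => ⟨?_, fun a₀ => ?_⟩⟩
  · intro i heq
    have hm0 : 0 < M := Nat.succ_pos _
    set m : Fin M := ⟨0, hm0⟩ with hm
    obtain ⟨⟨x1, hx1, h1⟩, x2, hx2, h2⟩ := (hclass c hc) m i 0
    obtain ⟨⟨x3, hx3, h3⟩, x4, hx4, h4⟩ := (hclass c hc) m i (Fin.last (D i))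
    have hDi := (hD i).ne'
    simp only [tgt, Fin.val_zero, mul_zero, pow_zero, one_mul, if_true,
      Fin.val_last, if_neg hDi, Int.cast_one] at h1 h2 h3 h4
    set q : ℂ := ((p m : ℕ) : ℂ) with hq
    set E : ℕ := e m i * D i with hE
    have hq0 : q ^ E ≠ 0 := pow_ne_zero _ (by rw [hq]; exact_mod_cast (hp m).1.ne_zero)
    have h5 : q ^ E * (((α m i : ℤ) + q * x1) * (1 + q * x4)) =
        q ^ E * (((β m i : ℤ) + q * x3) * (1 + q * x2)) := by
      rw [h1, h2, h3, h4] at heq
      linear_combination heq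
    have h6 := mul_left_cancel₀ hq0 h5
    have h7 : (((α m i - β m i : ℤ)) : ℂ) =
        q * (x3 + (β m i : ℤ) * x2 + q * x3 * x2 - x1 - (α m i : ℤ) * x4 - q * x1 * x4) := by
      push_cast
      linear_combination h6
    have h8 := hpαβ m i
    have hvint : ∀ b : ℤ, (O m).valuation (b : ℂ) ≤ 1 := fun b =>
      ((O m).valuation_le_one_iff _).2 (intCast_mem (O m) b)
    have hvq : (O m).valuation q ≤ 1 := (hpO m).1.le
    have hmul : ∀ {x y : ℂ}, (O m).valuation x ≤ 1 → (O m).valuation y ≤ 1 →
        (O m).valuation (x * y) ≤ 1 := fun h h' => by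
      rw [map_mul]
      exact mul_le_one' h h'
    have hsub : ∀ {x y : ℂ}, (O m).valuation x ≤ 1 → (O m).valuation y ≤ 1 →
        (O m).valuation (x - y) ≤ 1 := fun h h' => (O m).valuation.map_sub_le h h'
    have hadd : ∀ {x y : ℂ}, (O m).valuation x ≤ 1 → (O m).valuation y ≤ 1 →
        (O m).valuation (x + y) ≤ 1 := fun h h' => (O m).valuation.map_add_le h h'
    rw [h7, map_mul] at h8
    have h9 := (mul_le_of_le_one_right' (a := (O m).valuation q)
      (hsub (hsub (hsub (hadd (hadd hx3 (hmul (hvint (β m i)) hx2)) (hmul (hmul hvq hx3) hx2)) hx1)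
        (hmul (hvint (α m i)) hx4)) (hmul (hmul hvq hx1) hx4))).trans_lt (hpO m).1
    rw [h8] at h9
    exact lt_irrefl _ h9
  have hcong := hclass c hc
  intro K _ _ z hz r cls N hN hconst hrel hz0 Λ η hη hΛ T hT
  have hchar : CharZero K := charZero_of_injective_algebraMap (algebraMap ℂ K).injective
  -- the modular part of `T`
  have hTsome : ∀ t : T.toLeft, ∃ l, cls t = some l := by
    intro t
    cases hc : cls t with
    | none =>
      obtain ⟨c, -, hc2⟩ := hconst t hc
      have h1 := hT.transcendental ⟨Sum.inl (t : Fin n), Finset.mem_toLeft.1 t.2⟩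
      exact absurd (hc2 ▸ isAlgebraic_algebraMap c) h1
    | some l => exact ⟨l, rfl⟩
  choose κ hκ using hTsome
  have hκinj : Function.Injective κ := by
    intro t t' htt
    by_contra hne
    have h1 := hrel t t' (κ t) (hκ t) (by rw [htt]; exact hκ t')
    have h2 := hT.transcendental_adjoin (s := {⟨Sum.inl (t : Fin n), Finset.mem_toLeft.1 t.2⟩})
      (i := ⟨Sum.inl (t' : Fin n), Finset.mem_toLeft.1 t'.2⟩) (by
      intro h
      rw [Set.mem_singleton_iff] at h
      have h3 := Sum.inl_injective (congrArg Subtype.val h)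
      exact hne (Subtype.ext h3.symm))
    apply h2
    rw [Set.image_singleton]
    set y : K := z (Sum.inl (t : Fin n)) with hy
    have hmem : y ∈ Algebra.adjoin ℂ {y} := Algebra.subset_adjoin rfl
    let ψ : Polynomial ℂ →ₐ[ℂ] Algebra.adjoin ℂ {y} := Polynomial.aeval ⟨y, hmem⟩
    have hcomp : ((Algebra.adjoin ℂ {y}).val.comp ψ) =
        (Polynomial.aeval y : Polynomial ℂ →ₐ[ℂ] K) := by
      apply Polynomial.algHom_ext
      simp [ψ]
    have hint : IsIntegral (Algebra.adjoin ℂ {y}) (z (Sum.inl (t' : Fin n))) := by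
      refine ⟨(Psi (N t t')).map ψ.toRingHom, (Psi_spec (hN t t')).1.map _, ?_⟩
      rw [Polynomial.eval₂_map, ← h1]
      congr 1
      exact congrArg AlgHom.toRingHom hcomp
    exact hint.isAlgebraic
  -- the torus part of `T`
  set zt : Fin k → K := fun i => z (Sum.inr i) with hzt
  have hTind : AlgebraicIndependent ℂ (fun j : T.toRight => zt j) := by
    have h1 := hT.comp (fun j : T.toRight =>
      (⟨Sum.inr (j : Fin k), Finset.mem_toRight.1 j.2⟩ : T)) (by
        intro j j' h
        have h3 := Sum.inr_injective (congrArg Subtype.val h)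
        exact Subtype.ext h3)
    exact h1
  set Λ' : Submodule ℤ (Fin k → ℤ) := Λ ⊔ Submodule.span ℤ
    ((fun j : Fin k => (Pi.single j (1 : ℤ) : Fin k → ℤ)) '' (T.toRight : Set (Fin k))) with hΛ'
  have hrank : Module.finrank ℤ Λ + T.toRight.card ≤ Module.finrank ℤ Λ' := by
    refine finrank_add_card' zt hz0 T.toRight hTind Λ (fun a ha => ⟨_, hΛ a ha⟩) Λ' le_sup_left ?_
    intro j hj
    exact Submodule.mem_sup_right (Submodule.subset_span ⟨j, hj, rfl⟩)
  have hTcard : T.toLeft.card + T.toRight.card = T.card := Finset.card_toLeft_add_card_toRight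
  by_contra hcon
  push Not at hcon
  -- supported relations
  have hsup : ∀ Y : Finset (Fin k), ∃ a : Fin k → ℤ, a ∈ Λ' ∧
      (k < Module.finrank ℤ Λ' + Y.card → a ≠ 0) ∧ ∀ j, j ∉ Y → a j = 0 := by
    intro Y
    by_cases hY : k < Module.finrank ℤ Λ' + Y.card
    · obtain ⟨a, h1, h2, h3⟩ := exists_supported Λ' Y hY
      exact ⟨a, h1, fun _ => h2, h3⟩
    · exact ⟨0, Λ'.zero_mem, fun h => absurd h hY, fun _ _ => rfl⟩
  choose A hAΛ hA0 hAY using hsup
  -- one prime
  have hone : ∀ m : Fin M, ∃ q : (Fin n × Fin n) ⊕ Finset (Fin k),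
      (∀ i i', q = Sum.inl (i, i') → i ≠ i' ∧
        IsSquare (N i i' * (e m (Sum.inl i) * e m (Sum.inl i')))) ∧
      (∀ Y, q = Sum.inr Y → A Y ≠ 0 ∧ ∑ i, A Y i * (e m (Sum.inr i) : ℤ) = 0) := by
    intro m
    have hpp := (hp m).1
    obtain ⟨hpv, hΓu, hΓi⟩ := hpO m
    obtain ⟨hfc, hfcor⟩ := hfm m a₀
    obtain ⟨B, hB1, hB2, hB3⟩ := exists_above_unit (O m) (fun j : T => z j) hT
    have hpB : B.valuation ((p m : ℕ) : K) < 1 := by
      have := hB2 _ hpv
      rwa [map_natCast] at this
    have hpB0 : 0 < B.valuation ((p m : ℕ) : K) := by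
      rw [zero_lt_iff, Valuation.ne_zero_iff]
      exact_mod_cast hpp.ne_zero
    set w := B.valuation ((p m : ℕ) : K) with hw
    let At : Finset (Fin n ⊕ Fin k) := Finset.univ.filter fun i =>
      B.valuation (z i) * w ^ e m i ≠ 1
    let Ty : Finset (Fin n ⊕ Fin k) := Finset.univ.filter fun i =>
      B.valuation (z i) * w ^ e m i = 1
    have hAcard : At.card ≤ d a₀ := card_atypicalC hD (O m) B hB1 hB2 (p m) hpp hpv (f m a₀) (α m) (β m)
      hfc hfcor (e m) c (hcong m) z
      (fun J hJ => hz J (f m a₀ J) (hfP m a₀ J hJ)) At (fun i hi => (Finset.mem_filter.1 hi).2)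
    have hcards : Ty.card + At.card = n + k := by
      have := Finset.card_filter_add_card_filter_not (s := (Finset.univ : Finset (Fin n ⊕ Fin k)))
        (fun i => B.valuation (z i) * w ^ e m i = 1)
      rw [Finset.card_univ, Fintype.card_sum, Fintype.card_fin, Fintype.card_fin] at this
      exact this
    have hTycard : Ty.toLeft.card + Ty.toRight.card = Ty.card :=
      Finset.card_toLeft_add_card_toRight
    have hTy : ∀ i ∈ Ty, 1 < B.valuation (z i) := by
      intro i hi
      have h1 := (Finset.mem_filter.1 hi).2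
      by_contra h2
      push Not at h2
      have h3 : w ^ e m i < 1 := pow_lt_one₀ zero_le hpB (he0 m i).ne'
      have h4 : B.valuation (z i) * w ^ e m i < 1 := by
        calc B.valuation (z i) * w ^ e m i ≤ 1 * w ^ e m i := by gcongr
          _ = w ^ e m i := one_mul _
          _ < 1 := h3
      rw [h1] at h4
      exact lt_irrefl _ h4
    by_cases hcase : r < Ty.toLeft.card + T.toLeft.card
    · -- the modular part is atypical
      let Fr : Finset (Option (Fin r)) := (Finset.univ.filter fun l : Fin r =>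
        l ∉ Finset.univ.image κ).image some
      have hFr : Fr.card + T.toLeft.card = r := by
        have h1 : Fr.card = (Finset.univ.filter fun l : Fin r =>
            l ∉ Finset.univ.image κ).card :=
          Finset.card_image_of_injective _ (Option.some_injective _)
        have h2 : (Finset.univ.filter fun l : Fin r => l ∈ Finset.univ.image κ).card =
            T.toLeft.card := by
          have h3 : (Finset.univ.filter fun l : Fin r => l ∈ Finset.univ.image κ) =
              Finset.univ.image κ := by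
            ext l; simp
          rw [h3, Finset.card_image_of_injective _ hκinj, Finset.card_univ, Fintype.card_coe]
        have := Finset.card_filter_add_card_filter_not (s := (Finset.univ : Finset (Fin r)))
          (fun l => l ∈ Finset.univ.image κ)
        rw [Finset.card_univ, Fintype.card_fin] at this
        rw [h1]
        omega
      have hmaps : ∀ i ∈ Ty.toLeft, cls i ∈ Fr := by
        intro i hi
        have h1 := hTy _ (Finset.mem_toLeft.1 hi)
        cases hc : cls i with
        | none =>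
          obtain ⟨c, hc1, hc2⟩ := hconst i hc
          have h2 := hB1 c (hΓi c hc1)
          rw [← hc2] at h2
          exact absurd h1 (not_lt.2 h2)
        | some l =>
          refine Finset.mem_image_of_mem _ (Finset.mem_filter.2 ⟨Finset.mem_univ _, ?_⟩)
          intro hk
          obtain ⟨t, -, ht⟩ := Finset.mem_image.1 hk
          have h2 := hrel t i l (ht ▸ hκ t) hc
          have h4 : B.valuation (z (Sum.inl (t : Fin n))) = 1 :=
            hB3 ⟨Sum.inl (t : Fin n), Finset.mem_toLeft.1 t.2⟩
          have h3 := (((Psi_spec (hN t i)).2.2 K B _ _ h2).1) h4.le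
          exact absurd h1 (not_lt.2 h3)
      obtain ⟨i, hi, i', hi', hne, hcls⟩ := Finset.exists_ne_map_eq_of_card_lt_of_maps_to
        (s := Ty.toLeft) (t := Fr) (by omega) (f := cls) hmaps
      refine ⟨Sum.inl (i, i'), ?_, fun Y h => absurd h (by simp)⟩
      rintro j j' hjj
      obtain ⟨rfl, rfl⟩ := Prod.mk.injEq .. ▸ Sum.inl_injective hjj
      refine ⟨hne, ?_⟩
      obtain ⟨l, -, hk⟩ := Finset.mem_image.1 (hmaps i hi)
      have h2 := hrel i i' l hk.symm (hcls ▸ hk.symm)
      obtain ⟨a, ha⟩ := (((Psi_spec (hN i i')).2.2 K B _ _ h2).2) (hTy _ (Finset.mem_toLeft.1 hi))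
      have h3 := (Finset.mem_filter.1 (Finset.mem_toLeft.1 hi)).2
      have h4 := (Finset.mem_filter.1 (Finset.mem_toLeft.1 hi')).2
      have h5 : w ^ (e m (Sum.inl i') * N i i') = w ^ (e m (Sum.inl i) * a ^ 2) := by
        have h6 : (B.valuation (z (Sum.inl i')) * w ^ e m (Sum.inl i')) ^ N i i' = 1 := by
          rw [h4, one_pow]
        have h7 : (B.valuation (z (Sum.inl i)) * w ^ e m (Sum.inl i)) ^ (a ^ 2) = 1 := by
          rw [h3, one_pow]
        rw [mul_pow, ← pow_mul] at h6 h7
        rw [ha] at h6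
        have h8 : B.valuation (z (Sum.inl i)) ^ (a ^ 2) ≠ 0 :=
          pow_ne_zero _ (zero_lt_one.trans (hTy _ (Finset.mem_toLeft.1 hi))).ne'
        exact mul_left_cancel₀ h8 (h6.trans h7.symm)
      have h6 := exponent_eq B w hpB0 hpB h5
      refine ⟨e m (Sum.inl i) * a, ?_⟩
      calc N i i' * (e m (Sum.inl i) * e m (Sum.inl i')) =
            e m (Sum.inl i) * (e m (Sum.inl i') * N i i') := by ring
        _ = e m (Sum.inl i) * (e m (Sum.inl i) * a ^ 2) := by rw [h6]
        _ = _ := by ring
    · -- the torus part is atypical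
      refine ⟨Sum.inr Ty.toRight, fun i i' h => absurd h (by simp), ?_⟩
      rintro Y hY
      obtain rfl := Sum.inr_injective hY
      have hbig : k < Module.finrank ℤ Λ' + Ty.toRight.card := by omega
      refine ⟨hA0 _ hbig, ?_⟩
      set a := A Ty.toRight with ha
      -- the valuations of the torus coordinates
      have hv0 : ∀ i, B.valuation (zt i) ≠ 0 := fun i => (Valuation.ne_zero_iff _).2 (hz0 i)
      have hle : Λ' ≤ oneLat (fun i => B.valuation (zt i)) hv0 := by
        refine sup_le ?_ (Submodule.span_le.2 ?_)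
        · intro b hb
          change chi (fun i => B.valuation (zt i)) b = 1
          have h1 : chi (fun i => B.valuation (zt i)) b = B.valuation (chi zt b) := by
            simp [chi]
          rw [h1, hΛ b hb]
          have h2 : ∀ i, B.valuation (algebraMap ℂ K (η i)) = 1 := by
            intro i
            have h3 := (hη i).val (O m) hΓu
            have h4 := (hη i).ne_zero
            refine le_antisymm (hB1 _ h3.le) ?_
            have h5 := hB1 (η i)⁻¹ (by rw [map_inv₀, h3, inv_one])
            have h6 : B.valuation (algebraMap ℂ K (η i)) *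
                B.valuation (algebraMap ℂ K (η i)⁻¹) = 1 := by
              rw [← map_mul, ← map_mul, mul_inv_cancel₀ h4, map_one, map_one]
            calc (1 : B.ValueGroup) = _ := h6.symm
              _ ≤ B.valuation (algebraMap ℂ K (η i)) * 1 := by gcongr
              _ = _ := mul_one _
          simp only [chi, map_prod, map_zpow₀, h2, one_zpow, Finset.prod_const_one]
        · rintro _ ⟨j, hj, rfl⟩
          change chi (fun i => B.valuation (zt i)) (Pi.single j (1 : ℤ)) = 1
          rw [chi_single]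
          exact hB3 ⟨Sum.inr j, Finset.mem_toRight.1 hj⟩
      have h1 : chi (fun i => B.valuation (zt i)) a = 1 := hle (hAΛ _)
      have h2 : chi (fun i => B.valuation (zt i)) a = w ^ (-∑ i, a i * (e m (Sum.inr i) : ℤ)) := by
        have hw0 : w ≠ 0 := hpB0.ne'
        have h3 : ∀ i, B.valuation (zt i) ^ a i = w ^ (-(a i * (e m (Sum.inr i) : ℤ))) := by
          intro i
          by_cases hi : i ∈ Ty.toRight
          · have h4 := (Finset.mem_filter.1 (Finset.mem_toRight.1 hi)).2
            have h5 : B.valuation (zt i) = w ^ (-(e m (Sum.inr i) : ℤ)) := by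
              rw [zpow_neg, zpow_natCast]
              exact eq_inv_of_mul_eq_one_left h4
            rw [h5, ← zpow_mul]
            congr 1
            ring
          · rw [ha, hAY _ i hi]
            simp
        have h4 : (-∑ i, a i * (e m (Sum.inr i) : ℤ)) =
            ∑ i, -(a i * (e m (Sum.inr i) : ℤ)) := by
          rw [Finset.sum_neg_distrib]
        rw [h4, chi, Finset.prod_congr rfl fun i _ => h3 i]
        have h5 : ∀ s : Finset (Fin k), ∏ i ∈ s, w ^ (-(a i * (e m (Sum.inr i) : ℤ))) =
            w ^ (∑ i ∈ s, -(a i * (e m (Sum.inr i) : ℤ))) := by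
          intro s
          induction s using Finset.induction_on with
          | empty => simp
          | insert j s hj ih =>
            rw [Finset.prod_insert hj, Finset.sum_insert hj, zpow_add₀ hw0, ih]
        exact h5 _
      rw [h2] at h1
      have h3 := zpow_eq_one B w hpB0 hpB h1
      exact neg_eq_zero.1 h3
  choose q hq1 hq2 using hone
  obtain ⟨y, hy⟩ := Fintype.exists_lt_card_fiber_of_mul_lt_card q (n := L) (by
    rw [Fintype.card_sum, Fintype.card_prod, Fintype.card_fin, Fintype.card_fin,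
      Fintype.card_finset, Fintype.card_fin]
    omega)
  rcases y with ⟨i, i'⟩ | Y
  · -- two primes with the same pair
    obtain ⟨m, hm, m', hm', hmm⟩ := Finset.one_lt_card.1 (show 1 <
      (Finset.univ.filter fun m => q m = Sum.inl (i, i')).card by omega)
    have h1 := hq1 m i i' (Finset.mem_filter.1 hm).2
    have h2 := hq1 m' i i' (Finset.mem_filter.1 hm').2
    refine four_primes (hN i i') (heprime m i) (heprime m i') (heprime m' i) (heprime m' i')
      ?_ ?_ ?_ h1.2 h2.2
    · intro h
      exact h1.1 (heinj _ _ _ _ h).2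
    · intro h
      exact hmm (Fin.ext (heinj _ _ _ _ h).1)
    · intro h
      exact hmm (Fin.ext (heinj _ _ _ _ h).1)
  · -- many primes with the same set
    set S := Finset.univ.filter fun m => q m = Sum.inr Y with hS
    have h1 : 0 < S.card := by omega
    obtain ⟨m₀, hm₀⟩ := Finset.card_pos.1 h1
    have h2 := (hq2 m₀ Y (Finset.mem_filter.1 hm₀).2).1
    apply h2
    refine hevan (S.image fun m : Fin M => (m : ℕ)) (A Y) ?_ ?_
    · rw [Finset.card_image_of_injective _ Fin.val_injective]
      omega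
    · intro m hm
      obtain ⟨m', hm', rfl⟩ := Finset.mem_image.1 hm
      exact (hq2 m' Y (Finset.mem_filter.1 hm').2).2
end Pool.Agent.T2H68.ZD
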